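import Pool.Agent.Lib.MP_305fdd_al.Corank

/-!
# MP_305fdd_al, VFib: subgroups of finite index of finitely presented groups
-/

set_option autoImplicit false

namespace Pool.Agent.VFib

open Pool.Agent.MP_305fdd_al

/-- subgroups of finite index of finitely presented groups are finitely presented -/
theorem fp_of_finiteIndex {G : Type} [Group G] (hG : Group.IsFinitelyPresented G) (H : Subgroup G)
    [H.FiniteIndex] : Group.IsFinitelyPresented H := by
  classical
  obtain ⟨n, φ, hφ, R, hR, hker⟩ := hG.out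
  let F₀ : Subgroup (FreeGroup (Fin n)) := H.comap φ
  have hfi : F₀.FiniteIndex := ⟨by
    rw [Subgroup.index_comap_of_surjective H hφ]
    exact Subgroup.FiniteIndex.index_ne_zero⟩
  have hfg : Group.FG F₀ := Subgroup.fg_of_index_ne_zero F₀
  have e1 : F₀ ≃* FreeGroup (IsFreeGroup.Generators F₀) := IsFreeGroup.toFreeGroup _
  have hfg' : Group.FG (FreeGroup (IsFreeGroup.Generators F₀)) :=
    Group.fg_of_surjective (f := e1.toMonoidHom) e1.surjective
  have hfin : Finite (IsFreeGroup.Generators F₀) := finite_of_fg hfg'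
  have hfp : Group.IsFinitelyPresented F₀ := Group.IsFinitelyPresented.equiv e1.symm
  let ψ : F₀ →* H := φ.subgroupComap H
  have hψ : Function.Surjective ψ := by
    rintro ⟨y, hy⟩
    obtain ⟨x, rfl⟩ := hφ y
    exact ⟨⟨x, hy⟩, rfl⟩
  have hkm : ∀ x : FreeGroup (Fin n), φ x = 1 → x ∈ F₀ := fun x hx => by
    show φ x ∈ H
    rw [hx]
    exact H.one_mem
  have hφR : ∀ r ∈ R, φ r = 1 := fun r hr => by
    have : r ∈ φ.ker := by
      rw [← hker]
      exact Subgroup.subset_normalClosure hr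
    exact this
  have hfq : Finite (FreeGroup (Fin n) ⧸ F₀) := Subgroup.finite_quotient_of_finiteIndex
  refine Group.IsFinitelyPresented.of_surjective ψ hψ ?_
  let S : Set F₀ := {y | ∃ q : FreeGroup (Fin n) ⧸ F₀, ∃ r ∈ R,
    (y : FreeGroup (Fin n)) = q.out⁻¹ * r * q.out}
  have hS : S.Finite := by
    have h1 : (Set.image2 (fun (q : FreeGroup (Fin n) ⧸ F₀) (r : FreeGroup (Fin n)) =>
        q.out⁻¹ * r * q.out) Set.univ R).Finite := Set.Finite.image2 _ Set.finite_univ hR
    refine Set.Finite.of_finite_image (f := Subtype.val) (h1.subset ?_)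
      Subtype.val_injective.injOn
    rintro _ ⟨y, ⟨q, r, hr, h⟩, rfl⟩
    exact ⟨q, Set.mem_univ _, r, hr, h.symm⟩
  refine ⟨S, hS, ?_⟩
  apply le_antisymm
  · apply Subgroup.normalClosure_le_normal
    rintro y ⟨q, r, hr, h⟩
    show y ∈ ψ.ker
    rw [MonoidHom.mem_ker]
    apply Subtype.ext
    show φ (y : FreeGroup (Fin n)) = 1
    rw [h, map_mul, map_mul, hφR r hr, mul_one, ← map_mul, inv_mul_cancel, map_one]
  · intro x hx
    have h1 : (x : FreeGroup (Fin n)) ∈ φ.ker := congrArg Subtype.val (MonoidHom.mem_ker.1 hx)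
    rw [← hker] at h1
    have h2 : Subgroup.normalClosure R ≤ (Subgroup.normalClosure S).map F₀.subtype := by
      unfold Subgroup.normalClosure
      rw [Subgroup.closure_le]
      intro z hz
      obtain ⟨r, hr, hc⟩ := Group.mem_conjugatesOfSet_iff.1 hz
      obtain ⟨g, hg⟩ := isConj_iff.1 hc
      let q : FreeGroup (Fin n) ⧸ F₀ := QuotientGroup.mk g⁻¹
      have h3 : g * q.out ∈ F₀ := by
        have h4 : (QuotientGroup.mk q.out : FreeGroup (Fin n) ⧸ F₀) = QuotientGroup.mk g⁻¹ :=
          QuotientGroup.out_eq' q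
        have h5 := QuotientGroup.eq.1 h4.symm
        rwa [inv_inv] at h5
      have h6 : q.out⁻¹ * r * q.out ∈ F₀ := hkm _ (by
        rw [map_mul, map_mul, hφR r hr, mul_one, ← map_mul, inv_mul_cancel, map_one])
      refine ⟨⟨_, h3⟩ * ⟨_, h6⟩ * ⟨_, h3⟩⁻¹, ?_, ?_⟩
      · exact (Subgroup.normalClosure_normal (s := S)).conj_mem _
          (Subgroup.subset_normalClosure ⟨q, r, hr, rfl⟩) _
      · show g * q.out * (q.out⁻¹ * r * q.out) * (g * q.out)⁻¹ = z
        rw [← hg]
        group
    obtain ⟨y, hy, hyx⟩ := h2 h1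
    have h3 : y = x := Subtype.ext hyx
    rw [← h3]
    exact hy

end Pool.Agent.VFib
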