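import Pool.Agent.Lib.MP_305fdd_al.F8.Tower
import Pool.Agent.Lib.MP_305fdd_al.LF.Main
import Pool.Agent.Lib.MP_305fdd_al.LF.P.A
import Pool.Agent.Lib.MP_305fdd_al.LF.P.B1
import Pool.Agent.Lib.MP_305fdd_al.LF.P.B2
import Pool.Agent.Lib.MP_305fdd_al.LF.P.C1
import Pool.Agent.Lib.MP_305fdd_al.LF.P.C2
import Pool.Agent.Lib.MP_305fdd_al.LF.P.D
import Pool.Agent.Lib.MP_305fdd_al.VFib.FP

/-!
# MP_305fdd_al, VFib: classes which are isolated by automorphisms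
-/

set_option autoImplicit false

namespace Pool.Agent.VFib

open Pool.Agent.MP_305fdd_al Pool.Agent.Lib.MP_305fdd_al Pool.Agent.F8 Pool.Agent.LF

section Conj

variable {Λ Γ Q : Type} [Group Λ] [Group Γ] [Group Q] [Finite Q] {π : Λ →* Q} {π' : Γ →* Q}

theorem natBij_comap' (Φ : NatBij Λ Γ) (hπ : Φ.toFun Q π = π') (S : Subgroup Q) :
    ∃ Ψ : NatBij (S.comap π) (S.comap π'),
    ∀ (P : Type) [Group P] [Finite P] (ψ : S.comap π →* P), Cor Φ _ _ ψ (Ψ.toFun P ψ) := by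
  have hπ' : Φ.symm.toFun Q π' = π := by rw [← hπ]; exact Φ.left_inv Q π
  choose f hf using fun (P : Type) (_ : Group P) (_ : Finite P) (ψ : S.comap π →* P) =>
    Cor.exists Φ hπ S ψ
  choose f' hf' using fun (P : Type) (_ : Group P) (_ : Finite P) (ψ : S.comap π' →* P) =>
    Cor.exists Φ.symm hπ' S ψ
  refine ⟨⟨fun P _ _ ψ => f P _ ‹_› ψ, fun P _ _ ψ => f' P _ ‹_› ψ, ?_, ?_, ?_⟩, ?_⟩
  · intro P _ _ ψ
    exact Cor.unique hπ' (hf' P _ _ _) (hf P _ _ ψ).symm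
  · intro P _ _ ψ
    exact Cor.unique hπ (hf P _ _ _) (Cor.symm (Φ := Φ.symm) (hf' P _ _ ψ))
  · intro P R _ _ _ _ r ψ
    exact Cor.unique hπ (hf R _ _ _) ((hf P _ _ ψ).comp r)
  · intro P _ _ ψ
    exact hf P _ _ ψ

theorem exists_Psi (Φ : NatBij Λ Γ) (hπ : Φ.toFun Q π = π') {A : Subgroup Λ} {B : Subgroup Γ}
    (hA : A = (⊥ : Subgroup Q).comap π) (hB : B = (⊥ : Subgroup Q).comap π') :
    ∃ Ψ : NatBij A B,
    ∀ (P : Type) [Group P] [Finite P] (ψ : A →* P), Cor Φ A B ψ (Ψ.toFun P ψ) := by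
  subst hA hB
  exact natBij_comap' Φ hπ ⊥

theorem cor_unique (Φ : NatBij Λ Γ) (hπ : Φ.toFun Q π = π') {A : Subgroup Λ} {B : Subgroup Γ}
    (hA : A = (⊥ : Subgroup Q).comap π) (hB : B = (⊥ : Subgroup Q).comap π') {P : Type} [Group P]
    {ψ : A →* P} {ψ₁ ψ₂ : B →* P} (h1 : Cor Φ A B ψ ψ₁) (h2 : Cor Φ A B ψ ψ₂) : ψ₁ = ψ₂ := by
  subst hA hB
  exact Cor.unique hπ h1 h2

theorem cor_conj (Φ : NatBij Λ Γ) (hπ : Φ.toFun Q π = π') {A : Subgroup Λ} {B : Subgroup Γ}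
    [A.Normal] [B.Normal] (hA : A = (⊥ : Subgroup Q).comap π) {P : Type} [CommGroup P]
    {ψ : A →* P} {ψ' : B →* P} (h : Cor Φ A B ψ ψ') (g : Λ) (k : Γ) (hgk : π g = π' k) :
    Cor Φ A B (ψ.comp (MulAut.conjNormal g).toMonoidHom)
      (ψ'.comp (MulAut.conjNormal k).toMonoidHom) := by
  obtain ⟨E, _, _, θ, hθ⟩ := h
  obtain ⟨g₁, h1, h2⟩ := pair_val Φ θ π k
  refine ⟨E, _, ‹_›, θ, fun x y e => ?_⟩
  have ha : g₁ * g⁻¹ ∈ A := by
    rw [hA]
    show π (g₁ * g⁻¹) ∈ (⊥ : Subgroup Q)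
    rw [Subgroup.mem_bot, map_mul, map_inv, hgk, h2, hπ, mul_inv_cancel]
  have e1 : MulAut.conjNormal g₁ x = ⟨_, ha⟩ * MulAut.conjNormal g x * (⟨_, ha⟩ : A)⁻¹ := by
    apply Subtype.ext
    show g₁ * (x : Λ) * g₁⁻¹ = g₁ * g⁻¹ * (g * (x : Λ) * g⁻¹) * (g₁ * g⁻¹)⁻¹
    group
  have e2 : ψ (MulAut.conjNormal g₁ x) = ψ (MulAut.conjNormal g x) := by
    rw [e1, map_mul, map_mul, map_inv, mul_comm, inv_mul_cancel_left]
  show ψ (MulAut.conjNormal g x) = ψ' (MulAut.conjNormal k y)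
  rw [← e2]
  apply hθ
  show θ (g₁ * x * g₁⁻¹) = Φ.toFun E θ (k * y * k⁻¹)
  rw [map_mul, map_mul, map_inv, map_mul, map_mul, map_inv, h1, e]

end Conj

/-! ### The averages -/

/-- the product of powers -/
def pw {k : ℕ} (n : Fin k → ℤ) (P : Type) [CommGroup P] : (Fin k → P) →* P where
  toFun v := ∏ i, v i ^ n i
  map_one' := by simp
  map_mul' u v := by
    simp only [Pi.mul_apply, mul_zpow, Finset.prod_mul_distrib]

/-- the compositions with automorphisms -/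
def fam {A : Type} [Group A] {k : ℕ} (a : Fin k → MulAut A) {P : Type} [Group P] (f : A →* P) :
    A →* (Fin k → P) where
  toFun x i := f (a i x)
  map_one' := by ext i; simp
  map_mul' x y := by ext i; simp

/-- `x ↦ ∏ f (a_i x) ^ n_i` -/
def AV {A : Type} [Group A] {k : ℕ} (a : Fin k → MulAut A) (n : Fin k → ℤ) {P : Type}
    [CommGroup P] (f : A →* P) : A →* P := (pw n P).comp (fam a f)

theorem AV_apply {A : Type} [Group A] {k : ℕ} (a : Fin k → MulAut A) (n : Fin k → ℤ) {P : Type}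
    [CommGroup P] (f : A →* P) (x : A) : AV a n f x = ∏ i, f (a i x) ^ n i := rfl

theorem AV_comp {A : Type} [Group A] {k : ℕ} (a : Fin k → MulAut A) (n : Fin k → ℤ) {P R : Type}
    [CommGroup P] [CommGroup R] (f : A →* P) (r : P →* R) : r.comp (AV a n f) = AV a n (r.comp f) := by
  ext x
  rw [MonoidHom.comp_apply, AV_apply, AV_apply, map_prod]
  simp only [map_zpow, MonoidHom.comp_apply]

/-- compatible automorphisms -/
def CA {A B : Type} [Group A] [Group B] (Ψ : NatBij A B) (a : MulAut A) (b : MulAut B) : Prop :=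
  ∀ (P : Type) [CommGroup P] [Finite P] (ψ : A →* P),
    Ψ.toFun P (ψ.comp a.toMonoidHom) = (Ψ.toFun P ψ).comp b.toMonoidHom

theorem Psi_AV {A B : Type} [Group A] [Group B] (Ψ : NatBij A B) {k : ℕ} {a : Fin k → MulAut A}
    {b : Fin k → MulAut B} (n : Fin k → ℤ) (hE : ∀ i, CA Ψ (a i) (b i)) {P : Type} [CommGroup P]
    [Finite P] (f : A →* P) : Ψ.toFun P (AV a n f) = AV b n (Ψ.toFun P f) := by
  unfold AV
  rw [Ψ.nat]
  congr 1
  ext y i
  have h1 : (Pi.evalMonoidHom (fun _ : Fin k => P) i).comp (Ψ.toFun _ (fam a f)) =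
      (Ψ.toFun P f).comp (b i).toMonoidHom := by
    rw [← Ψ.nat, ← hE i]
    rfl
  exact DFunLike.congr_fun h1 y

/-- values in `ℤ/m` which lift to `ℤ` -/
theorem lift_red {A B : Type} [Group A] [Group B] [Group.FG B] (Ψ : NatBij A B)
    (h : A →* Multiplicative ℤ) (m : ℕ) [hm : NeZero m] : ∃ h' : B →* Multiplicative ℤ,
      Ψ.toFun _ ((red m).comp h) = (red m).comp h' := by
  obtain ⟨n', P', e, hP', he, hPe⟩ := C1_str B
  have hinst : NeZero (m * e) := ⟨Nat.mul_ne_zero hm.out he⟩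
  have h0 : Ψ.toFun _ ((red m).comp h) =
      (C1_cast m e).comp (Ψ.toFun _ ((red (m * e)).comp h)) := by
    rw [← Ψ.nat, ← MonoidHom.comp_assoc, C1_cast_red]
  have h1 : P'.ker ≤ ((C1_cast m e).comp (Ψ.toFun _ ((red (m * e)).comp h))).ker := by
    intro z hz
    exact C1_cast_tor m e he _ (hPe z hz _ (Ψ.toFun _ ((red (m * e)).comp h)))
  let τ : Multiplicative (Fin n' →₀ ℤ) →* Multiplicative (ZMod m) :=
    P'.liftOfSurjective hP' ⟨_, h1⟩
  have hτ : ∀ x, τ (P' x) = (C1_cast m e).comp (Ψ.toFun _ ((red (m * e)).comp h)) x := fun x =>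
    MonoidHom.liftOfRightInverse_comp_apply P' _ (Function.rightInverse_surjInv hP') ⟨_, h1⟩ x
  let τa : (Fin n' →₀ ℤ) →+ ZMod m := AddMonoidHom.toMultiplicative.symm τ
  choose a ha using fun i => ZMod.intCast_surjective (τa (Finsupp.single i 1))
  let La : (Fin n' →₀ ℤ) →+ ℤ := Finsupp.liftAddHom fun i => AddMonoidHom.mulLeft (a i)
  have hL : (Int.castAddHom (ZMod m)).comp La = τa := by
    apply Finsupp.addHom_ext'
    intro i
    ext
    show ((La (Finsupp.single i 1) : ℤ) : ZMod m) = τa (Finsupp.single i 1)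
    rw [← ha]
    congr 1
    simp [La]
  refine ⟨(AddMonoidHom.toMultiplicative La).comp P', ?_⟩
  rw [h0]
  ext x
  rw [← hτ]
  exact (DFunLike.congr_fun hL (Multiplicative.toAdd (P' x))).symm

theorem red_ne_one {v : Multiplicative ℤ} (hv : v ≠ 1) : ∃ m : ℕ, m ≠ 0 ∧ red m v ≠ 1 := by
  refine ⟨(Multiplicative.toAdd v).natAbs + 1, Nat.succ_ne_zero _, fun h => hv ?_⟩
  have h1 : ((Multiplicative.toAdd v : ℤ) : ZMod ((Multiplicative.toAdd v).natAbs + 1)) = 0 := h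
  rw [ZMod.intCast_zmod_eq_zero_iff_dvd] at h1
  have h2 : Multiplicative.toAdd v = 0 := by
    by_contra h3
    have h4 := Int.le_of_dvd (Int.natAbs_pos.2 h3 |> Int.natCast_pos.2) (Int.dvd_natAbs.2 h1)
    push_cast at h4
    linarith
  exact Multiplicative.toAdd.injective h2

/-- the class on the other side -/
theorem iso_class {A B : Type} [Group A] [Group B] [Group.FG A] [Group.FG B] (Ψ : NatBij A B)
    {k : ℕ} (a : Fin k → MulAut A) (b : Fin k → MulAut B) (n : Fin k → ℤ)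
    (hE : ∀ i, CA Ψ (a i) (b i)) (c : B →* Multiplicative ℤ)
    (h1 : ∀ f : B →* Multiplicative ℤ, c.ker ≤ (AV b n f).ker) (h2 : ∃ x, AV b n c x ≠ 1) :
    ∃ χ : A →* Multiplicative ℤ, Function.Surjective χ ∧ Mt Ψ χ c := by
  -- step 1
  have k1 : ∀ (h : A →* Multiplicative ℤ) (m : ℕ) [NeZero m],
      c.ker ≤ (Ψ.toFun _ ((red m).comp (AV a n h))).ker := by
    intro h m _ x hx
    obtain ⟨h', hh'⟩ := lift_red Ψ h m
    rw [MonoidHom.mem_ker, AV_comp, Psi_AV Ψ n hE, hh', ← AV_comp, MonoidHom.comp_apply,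
      MonoidHom.mem_ker.1 (h1 h' hx), map_one]
  -- step 2
  have k2 : ∃ (h : A →* Multiplicative ℤ) (x : A), AV a n h x ≠ 1 := by
    by_contra hcon
    push Not at hcon
    obtain ⟨x, hx⟩ := h2
    obtain ⟨m, hm, hmx⟩ := red_ne_one hx
    have : NeZero m := ⟨hm⟩
    obtain ⟨h, hh⟩ := lift_red Ψ.symm c m
    have h3 : Ψ.toFun _ ((red m).comp h) = (red m).comp c := by
      rw [← hh]
      exact Ψ.right_inv _ _
    have h4 : AV a n h = 1 := by
      ext y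
      exact hcon h y
    apply hmx
    have h5 : (red m).comp (AV b n c) = 1 := by
      rw [AV_comp, ← h3, ← Psi_AV Ψ n hE, ← AV_comp, h4, MonoidHom.comp_one, Ψ.one]
    exact DFunLike.congr_fun h5 x
  obtain ⟨h, x₀, hx₀⟩ := k2
  -- step 3
  let ηa : Additive A →+ ℤ := MonoidHom.toAdditiveLeft (AV a n h)
  obtain ⟨d, hd⟩ := Int.subgroup_cyclic ηa.range
  have hmem : ∀ z : ℤ, z ∈ ηa.range ↔ ∃ q : ℤ, q * d = z := fun z => by
    rw [hd, AddSubgroup.mem_closure_singleton]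
    simp only [smul_eq_mul]
  have hd0 : d ≠ 0 := by
    rintro rfl
    obtain ⟨q, hq⟩ := (hmem (ηa (Additive.ofMul x₀))).1 ⟨_, rfl⟩
    apply hx₀
    rw [mul_zero] at hq
    exact Multiplicative.toAdd.injective hq.symm
  choose q hq using fun x : A => (hmem (ηa (Additive.ofMul x))).1 ⟨_, rfl⟩
  have hqmul : ∀ x y, q (x * y) = q x + q y := fun x y => by
    apply mul_right_cancel₀ hd0
    rw [hq, add_mul, hq, hq, ofMul_mul, map_add]
  let χ : A →* Multiplicative ℤ := MonoidHom.mk' (fun x => Multiplicative.ofAdd (q x))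
    fun x y => congrArg Multiplicative.ofAdd (hqmul x y)
  have hχd : ∀ x, χ x ^ d = AV a n h x := fun x => by
    apply Multiplicative.toAdd.injective
    show d • q x = ηa (Additive.ofMul x)
    rw [← hq, smul_eq_mul, mul_comm]
  obtain ⟨x₁, hx₁⟩ : d ∈ ηa.range := (hmem d).2 ⟨1, one_mul d⟩
  have hq1 : q (Additive.toMul x₁) = 1 := by
    apply mul_right_cancel₀ hd0
    rw [hq, one_mul]
    exact hx₁
  refine ⟨χ, fun z => ⟨Additive.toMul x₁ ^ (Multiplicative.toAdd z), ?_⟩, ?_⟩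
  · rw [map_zpow]
    apply Multiplicative.toAdd.injective
    show (Multiplicative.toAdd z) • q (Additive.toMul x₁) = Multiplicative.toAdd z
    rw [hq1, smul_eq_mul, mul_one]
  · intro m hm z hz
    have he : d.natAbs ≠ 0 := Int.natAbs_ne_zero.2 hd0
    have hinst : NeZero (m * d.natAbs) := ⟨Nat.mul_ne_zero hm.out he⟩
    have h3 : (red (m * d.natAbs)).comp (AV a n h) =
        (zpowGroupHom d).comp ((red (m * d.natAbs)).comp χ) := by
      ext x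
      rw [MonoidHom.comp_apply, MonoidHom.comp_apply, ← hχd, map_zpow]
      rfl
    have h4 := MonoidHom.mem_ker.1 (k1 h (m * d.natAbs) hz)
    rw [h3, Ψ.nat] at h4
    have h5 : (Ψ.toFun _ ((red (m * d.natAbs)).comp χ) z) ^ d = 1 := h4
    have h6 : (Ψ.toFun _ ((red (m * d.natAbs)).comp χ) z) ^ d.natAbs = 1 :=
      pow_natAbs_eq_one.2 h5
    rw [MonoidHom.mem_ker, ← C1_cast_red m d.natAbs, MonoidHom.comp_assoc, Ψ.nat]
    exact C1_cast_tor m _ he _ h6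


/-- automorphisms which preserve the kernel of `c` -/
theorem ker_conj {A B : Type} [Group A] [Group B] (Ψ : NatBij A B) {a : MulAut A} {b : MulAut B}
    (hE : CA Ψ a b) {χ : A →* Multiplicative ℤ} {c : B →* Multiplicative ℤ}
    (hχ : Function.Surjective χ) (hc : Function.Surjective c) (hM : Mt Ψ χ c)
    (hb : ∀ x ∈ c.ker, b x ∈ c.ker) : ∀ x ∈ χ.ker, a x ∈ χ.ker := by
  intro x hx
  by_contra hne
  obtain ⟨m, hm, hmx⟩ := red_ne_one (v := χ (a x)) hne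
  have : NeZero m := ⟨hm⟩
  have h1 := p_C2 A B Ψ χ c hχ hc hM _ (((red m).comp χ).comp a.toMonoidHom)
  have h2 : red m (χ (a x)) ∈ χ.ker.map (((red m).comp χ).comp a.toMonoidHom) := ⟨x, hx, rfl⟩
  rw [h1] at h2
  obtain ⟨y, hy, h3⟩ := h2
  apply hmx
  rw [← h3, hE]
  exact MonoidHom.mem_ker.1 (hM m (hb y hy))

theorem lerf_sub {G : Type} [Group G] (h : LERF G) (H : Subgroup G) : LERF H := by
  intro K hK x hx
  have hK' : (K.map H.subtype).FG := by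
    obtain ⟨S, hS⟩ := hK
    classical
    refine ⟨S.image H.subtype, ?_⟩
    rw [Finset.coe_image, ← MonoidHom.map_closure, hS]
  have hx' : (x : G) ∉ K.map H.subtype := by
    rintro ⟨y, hy, h1⟩
    have : y = x := Subtype.ext h1
    exact hx (this ▸ hy)
  obtain ⟨U, hU, hle, hxU⟩ := h _ hK' _ hx'
  refine ⟨U.subgroupOf H, inferInstance, fun y hy => ?_, fun h1 => hxU h1⟩
  exact hle ⟨y, hy, rfl⟩

theorem fg_of_sub {G : Type} [Group G] (H : Subgroup G) [H.FiniteIndex] (h : Group.FG H) :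
    Group.FG G := by
  obtain ⟨S, hS⟩ := (Group.fg_iff_subgroup_fg H).1 h
  have hfq : Finite (G ⧸ H) := Subgroup.finite_quotient_of_finiteIndex
  rw [Group.fg_iff]
  refine ⟨(S : Set G) ∪ Set.range (Quotient.out : G ⧸ H → G), ?_,
    S.finite_toSet.union (Set.finite_range _)⟩
  rw [eq_top_iff]
  intro g _
  have h1 : (QuotientGroup.mk (QuotientGroup.mk g : G ⧸ H).out : G ⧸ H) = QuotientGroup.mk g :=
    QuotientGroup.out_eq' _
  have h2 : (QuotientGroup.mk g : G ⧸ H).out⁻¹ * g ∈ Subgroup.closure (S : Set G) :=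
    hS.symm.le (QuotientGroup.eq.1 h1)
  have h3 : g = (QuotientGroup.mk g : G ⧸ H).out * ((QuotientGroup.mk g : G ⧸ H).out⁻¹ * g) := by
    group
  rw [h3]
  exact mul_mem (Subgroup.subset_closure (Or.inr ⟨_, rfl⟩))
    (Subgroup.closure_mono Set.subset_union_left h2)

theorem same_natBij {G H : Type} [Group G] [Group H] (Φ : NatBij G H) :
    SameFiniteQuotients G H := by
  intro Q _ _
  constructor
  · rintro ⟨φ, hφ⟩
    refine ⟨Φ.toFun Q φ, ?_⟩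
    rw [← MonoidHom.range_eq_top, Φ.range_eq, MonoidHom.range_eq_top]
    exact hφ
  · rintro ⟨φ, hφ⟩
    refine ⟨Φ.symm.toFun Q φ, ?_⟩
    rw [← MonoidHom.range_eq_top, Φ.symm.range_eq, MonoidHom.range_eq_top]
    exact hφ

/-- The main theorem. -/
theorem main {Γ : Type} [Group Γ] (Γ₀ : Subgroup Γ) [Γ₀.Normal] [Γ₀.FiniteIndex]
    (c : Γ₀ →* Multiplicative ℤ) (hc : Function.Surjective c) (hfg : c.ker.FG)
    (k : ℕ) (g : Fin k → Γ) (n : Fin k → ℤ)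
    (h1 : ∀ (f : Γ₀ →* Multiplicative ℤ) (x : Γ₀), c x = 1 →
      ∏ i, f (MulAut.conjNormal (g i) x) ^ n i = 1)
    (h2 : ∃ x : Γ₀, ∏ i, c (MulAut.conjNormal (g i) x) ^ n i ≠ 1)
    (Λ : Type) [Group Λ] (hfp : Group.IsFinitelyPresented Λ) (hΛ : LERF Λ)
    (h : SameFiniteQuotients Λ Γ) :
    ∃ (Λ₀ : Subgroup Λ) (_ : Λ₀.Normal) (χ : Λ₀ →* Multiplicative ℤ),
      Nonempty (Λ ⧸ Λ₀ ≃* Γ ⧸ Γ₀) ∧ Function.Surjective χ ∧ χ.ker.FG ∧
      SameFiniteQuotients Λ₀ Γ₀ ∧ SameFiniteQuotients χ.ker c.ker ∧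
      (ProfinitelyRigid c.ker → Nonempty (χ.ker ≃* c.ker)) ∧
      ((c.ker.map Γ₀.subtype).Normal → (χ.ker.map Λ₀.subtype).Normal) := by
  have hΛfg : Group.FG Λ := fg_of_fp Λ hfp
  have hB0 : Group.FG Γ₀ := fg_of_ker c hc hfg
  have hΓfg : Group.FG Γ := fg_of_sub Γ₀ hB0
  have hfin : Finite (Γ ⧸ Γ₀) := Subgroup.finite_quotient_of_finiteIndex
  obtain ⟨Φ⟩ := exists_natBij h
  obtain ⟨π, hπd⟩ : ∃ π : Λ →* Γ ⧸ Γ₀, π = Φ.invFun _ (QuotientGroup.mk' Γ₀) := ⟨_, rfl⟩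
  have hπ : Φ.toFun _ π = QuotientGroup.mk' Γ₀ := by
    rw [hπd]
    exact Φ.right_inv _ _
  have hπs : Function.Surjective π := by
    rw [← MonoidHom.range_eq_top, ← Φ.range_eq, hπ, MonoidHom.range_eq_top]
    exact QuotientGroup.mk'_surjective Γ₀
  have hA : π.ker = (⊥ : Subgroup (Γ ⧸ Γ₀)).comap π := (MonoidHom.comap_bot π).symm
  have hB : Γ₀ = (⊥ : Subgroup (Γ ⧸ Γ₀)).comap (QuotientGroup.mk' Γ₀) := by
    rw [MonoidHom.comap_bot, QuotientGroup.ker_mk']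
  obtain ⟨Ψ, hΨ⟩ := exists_Psi Φ hπ hA hB
  have hconj : ∀ (l : Λ) (y : Γ), π l = QuotientGroup.mk' Γ₀ y →
      CA Ψ (MulAut.conjNormal l : MulAut π.ker) (MulAut.conjNormal y : MulAut Γ₀) := by
    intro l y hly P _ _ ψ
    exact cor_unique Φ hπ hA hB (hΨ P _) (cor_conj Φ hπ hA (hΨ P ψ) l y hly)
  choose l hl using fun i => hπs (QuotientGroup.mk' Γ₀ (g i))
  have hfi : π.ker.FiniteIndex := Subgroup.finiteIndex_ker π
  have hA0 : Group.FG π.ker := Subgroup.fg_of_index_ne_zero π.ker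
  obtain ⟨χ, hχ, hM⟩ := iso_class Ψ (fun i => (MulAut.conjNormal (l i) : MulAut π.ker))
    (fun i => (MulAut.conjNormal (g i) : MulAut Γ₀)) n (fun i => hconj _ _ (hl i)) c
    (fun f x hx => h1 f x hx) h2
  have hfp0 : Group.IsFinitelyPresented π.ker := fp_of_finiteIndex hfp π.ker
  have hL0 : LERF π.ker := lerf_sub hΛ π.ker
  have hfg' : χ.ker.FG := p_F p_A (p_B p_B1 p_B2) π.ker Γ₀ Ψ χ c hL0 hχ hc hfg hM
  have hm := p_C2 π.ker Γ₀ Ψ χ c hχ hc hM
  have hm' : ∀ (R : Type) [Group R] [Finite R] (θ : Γ₀ →* R),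
      c.ker.map θ = χ.ker.map (Ψ.symm.toFun R θ) := fun R _ _ θ => by
    have h3 := hm R (Ψ.invFun R θ)
    rw [Ψ.right_inv] at h3
    exact h3.symm
  have hsame : SameFiniteQuotients χ.ker c.ker := fun P _ _ =>
    ⟨fun ⟨p, hp⟩ => p_D π.ker Γ₀ Ψ χ c hχ hfg' (fun R _ _ θ => hm R θ) P p hp,
      fun ⟨p, hp⟩ => p_D Γ₀ π.ker Ψ.symm c χ hc hfg (fun R _ _ θ => hm' R θ) P p hp⟩
  refine ⟨π.ker, inferInstance, χ, ⟨QuotientGroup.quotientKerEquivOfSurjective π hπs⟩, hχ, hfg',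
    same_natBij Ψ, hsame,
    fun hr => hr χ.ker ⟨(Group.fg_iff_subgroup_fg _).2 hfg', rf_of_lerf hL0 _, hsame⟩,
    fun hn => ?_⟩
  refine ⟨?_⟩
  rintro _ ⟨x, hx, rfl⟩ t
  obtain ⟨y, hy⟩ := QuotientGroup.mk'_surjective Γ₀ (π t)
  have h3 := ker_conj Ψ (hconj t y hy.symm) hχ hc hM (fun z hz => by
    obtain ⟨w, hw, h4⟩ := hn.conj_mem _ ⟨z, hz, rfl⟩ y
    have h5 : w = MulAut.conjNormal y z := Subtype.ext h4
    rw [← h5]
    exact hw) x hx
  exact ⟨_, h3, rfl⟩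

/-- corresponding subgroups of finite index -/
theorem sub_corr {Γ : Type} [Group Γ] (Γ₁ : Subgroup Γ) [Γ₁.FiniteIndex] (hΓ₁ : Group.FG Γ₁)
    (Λ : Type) [Group Λ] (hfg : Group.FG Λ) (h : SameFiniteQuotients Λ Γ) :
    ∃ Λ₁ : Subgroup Λ, Λ₁.index = Γ₁.index ∧ SameFiniteQuotients Λ₁ Γ₁ := by
  have hΓfg : Group.FG Γ := fg_of_sub Γ₁ hΓ₁
  have hK : Γ₁.normalCore.FiniteIndex := Subgroup.finiteIndex_normalCore Γ₁
  have hfin : Finite (Γ ⧸ Γ₁.normalCore) := Subgroup.finite_quotient_of_finiteIndex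
  obtain ⟨Φ⟩ := exists_natBij h
  obtain ⟨π, hπd⟩ : ∃ π : Λ →* Γ ⧸ Γ₁.normalCore,
    π = Φ.invFun _ (QuotientGroup.mk' Γ₁.normalCore) := ⟨_, rfl⟩
  have hπ : Φ.toFun _ π = QuotientGroup.mk' Γ₁.normalCore := by
    rw [hπd]
    exact Φ.right_inv _ _
  have hπs : Function.Surjective π := by
    rw [← MonoidHom.range_eq_top, ← Φ.range_eq, hπ, MonoidHom.range_eq_top]
    exact QuotientGroup.mk'_surjective _
  have hB : Γ₁ = (Γ₁.map (QuotientGroup.mk' Γ₁.normalCore)).comap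
      (QuotientGroup.mk' Γ₁.normalCore) := by
    rw [Subgroup.comap_map_eq, QuotientGroup.ker_mk', sup_eq_left.2 (Subgroup.normalCore_le Γ₁)]
  obtain ⟨Ψ, -⟩ := natBij_sub Φ hπ (Γ₁.map (QuotientGroup.mk' Γ₁.normalCore)) _ Γ₁ rfl hB
  refine ⟨_, ?_, same_natBij Ψ⟩
  rw [Subgroup.index_comap_of_surjective _ hπs]
  conv_rhs => rw [hB]
  rw [Subgroup.index_comap_of_surjective _ (QuotientGroup.mk'_surjective _)]

end Pool.Agent.VFib
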