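import Pool.Agent.Lib.MP_305fdd_al.VFib.Semi2

/-!
# MP_305fdd_al, VFib: groups with a normal free subgroup of rank two
-/

set_option autoImplicit false

namespace Pool.Agent.VFib

open Pool.Agent.MP_305fdd_al Pool.Agent.Lib.MP_305fdd_al Pool.Agent.F2X Pool.Agent.F8
  Pool.Agent.F8.HN
open Pool.Agent.F8.OV (liftA liftA_iA liftA_tA homA_ext cj_equiv)

/-- inner automorphisms -/
theorem conj_inj {w : F} (h : (MulAut.conj w : MulAut F) = 1) : w = 1 := by
  apply p_cen w
  intro v
  have h5 := DFunLike.congr_fun h v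
  rw [MulAut.conj_apply, MulAut.one_apply] at h5
  calc w * v = w * v * w⁻¹ * w := by group
    _ = v * w := by rw [h5]

theorem mul_conj (g : MulAut F) (w : F) : g * MulAut.conj w * g⁻¹ = MulAut.conj (g w) := by
  ext v
  rw [MulAut.mul_apply, MulAut.mul_apply, MulAut.conj_apply, MulAut.conj_apply, map_mul,
    map_mul, map_inv, MulAut.apply_inv_self]

/-- a group with a normal free subgroup of rank two on which it acts with outer kernel one is the
preimage of its matrices -/
theorem ext_iso {Λ : Type} [Group Λ] {N : Subgroup Λ} [N.Normal] (e : N ≃* F)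
    (hk : ∀ l, Th e l = 1 → l ∈ N) : Nonempty (Λ ≃* Pre (Th e).range) := by
  obtain ⟨D, hD⟩ : ∃ D : Subgroup (GL (Fin 2) ℤ), D = (Th e).range := ⟨_, rfl⟩
  rw [← hD]
  have hTD : ∀ l, Th e l ∈ D := by
    intro l
    rw [hD]
    exact ⟨l, rfl⟩
  let π₁ : Λ →* D := (Th e).codRestrict D hTD
  have hπ₁ : Function.Surjective π₁ := by
    rintro ⟨X, hX⟩
    rw [hD] at hX
    obtain ⟨l, hl⟩ := hX
    exact ⟨l, Subtype.ext hl⟩
  have hk₁ : π₁.ker = N := by
    ext l
    constructor
    · intro hl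
      exact hk l (congrArg Subtype.val (MonoidHom.mem_ker.1 hl))
    · intro hl
      rw [MonoidHom.mem_ker]
      exact Subtype.ext (Th_mem' e l hl)
  let e₁ : π₁.ker ≃* F := (MulEquiv.subgroupCongr hk₁).trans e
  have hTh₁ : ∀ l, Th e₁ l = Th e l := by
    intro l
    rw [Th_apply, Th_apply]
    congr 1
  let π₂ : Pre D →* D := AM.subgroupComap D
  have hπ₂ : Function.Surjective π₂ := by
    rintro ⟨X, hX⟩
    obtain ⟨x, rfl⟩ := p_sur X
    exact ⟨⟨x, hX⟩, rfl⟩
  have hconjD : ∀ w : F, (MulAut.conj w : MulAut F) ∈ Pre D := fun w => by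
    rw [Subgroup.mem_comap, AM_conj]
    exact one_mem D
  let c₂ : F →* π₂.ker :=
    { toFun := fun w => ⟨⟨MulAut.conj w, hconjD w⟩, Subtype.ext (AM_conj w)⟩
      map_one' := by
        apply Subtype.ext
        apply Subtype.ext
        exact map_one _
      map_mul' := fun a b => by
        apply Subtype.ext
        apply Subtype.ext
        exact map_mul _ a b }
  have hc₂ : Function.Bijective c₂ := by
    constructor
    · rw [injective_iff_map_eq_one]
      intro w hw
      exact conj_inj (congrArg (fun z : π₂.ker => ((z : Pre D) : MulAut F)) hw)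
    · rintro ⟨⟨α, hα⟩, hα1⟩
      have h1 : AM α = 1 := congrArg Subtype.val (MonoidHom.mem_ker.1 hα1)
      obtain ⟨g, hg⟩ := all_out α h1
      refine ⟨g, ?_⟩
      apply Subtype.ext
      apply Subtype.ext
      exact hg.symm
  let e₂ : π₂.ker ≃* F := (MulEquiv.ofBijective c₂ hc₂).symm
  have hTh₂ : ∀ g : Pre D, Th e₂ g = AM (g : MulAut F) := by
    intro g
    rw [Th_apply]
    congr 1
    ext w
    rw [F2X.cj_apply]
    have h1 : MulAut.conjNormal g (e₂.symm w) = e₂.symm ((g : MulAut F) w) := by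
      apply Subtype.ext
      apply Subtype.ext
      exact mul_conj g w
    rw [h1, MulEquiv.apply_symm_apply]
  exact p_ext all_out p_cen (Pre D) Λ D π₂ π₁ hπ₂ hπ₁ e₂ e₁ fun g l hgl => by
    rw [hTh₂, hTh₁]
    exact congrArg Subtype.val hgl

/-- the bundle group as a group of automorphisms -/
theorem bundle_aut' (β : MulAut F) (hd : (AM β).val.det = 1) (ht : 3 ≤ |(AM β).val.trace|) :
    ∃ f : GA β →* MulAut F, Function.Injective f ∧ (∀ w, f (iA β w) = MulAut.conj w) ∧
      (∀ x, AM (f x) = AM β ^ (Multiplicative.toAdd (nA β x))) ∧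
      ∀ α, α ∈ f.range ↔ AM α ∈ Subgroup.zpowers (AM β) := by
  have h : ∀ w, (MulAut.conj : F →* MulAut F) (β w) = β * MulAut.conj w * β⁻¹ :=
    fun w => (mul_conj β w).symm
  let f : GA β →* MulAut F := liftA MulAut.conj β h
  have fi : ∀ w, f (iA β w) = MulAut.conj w := fun w => liftA_iA _ _ _ w
  have ft : f (tA β) = β := liftA_tA _ _ _
  have hA : ∀ x, AM (f x) = AM β ^ (Multiplicative.toAdd (nA β x)) := by
    intro x
    obtain ⟨w, n, rfl⟩ := GA_cases β x
    rw [map_mul, map_mul, map_zpow, map_zpow, fi, ft, AM_conj, one_mul, map_mul, nA_iA, one_mul,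
      map_zpow, nA_tA, ← ofAdd_zsmul]
    simp
  have hf : Function.Injective f := by
    rw [injective_iff_map_eq_one]
    intro x hx
    have h1 := hA x
    rw [hx, map_one] at h1
    have h2 := hyp_inj hd ht h1.symm
    have h3 : nA β x = 1 := Multiplicative.toAdd.injective h2
    obtain ⟨w, rfl⟩ := GA_ker β x h3
    rw [fi] at hx
    rw [conj_inj hx, map_one]
  refine ⟨f, hf, fi, hA, fun α => ⟨?_, ?_⟩⟩
  · rintro ⟨x, rfl⟩
    rw [hA]
    exact Subgroup.zpow_mem_zpowers _ _
  · intro hα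
    obtain ⟨k, hk⟩ := Subgroup.mem_zpowers_iff.1 hα
    have h1 : AM (α * (β ^ k)⁻¹) = 1 := by
      rw [map_mul, map_inv, map_zpow, hk, mul_inv_cancel]
    obtain ⟨g, hg⟩ := all_out _ h1
    refine ⟨iA β g * tA β ^ k, ?_⟩
    rw [map_mul, map_zpow, fi, ft, ← hg, inv_mul_cancel_right]

end Pool.Agent.VFib
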