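import Mathlib

/-!
`orient`: local conjugacy preserves the orientation character. If the elements of `D` normalise a
hyperbolic `B` (fix or invert it under conjugation), the same for `D'` and `B'`, the images of `D` and
`D'` modulo all `m` are conjugate, and determinant `1` means commuting with `B` on `D`, then
determinant `1` means commuting with `B'` on `D'`.
-/

set_option autoImplicit false

namespace Pool.Agent.VFib

private theorem or_b_ne (B : GL (Fin 2) ℤ) (hd : B.val.det = 1) (ht : 3 ≤ |B.val.trace|) :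
    B.val 0 1 ≠ 0 := by
  rw [Matrix.det_fin_two] at hd
  rw [Matrix.trace_fin_two] at ht
  intro h0
  rw [h0, zero_mul, sub_zero] at hd
  rcases Int.mul_eq_one_iff_eq_one_or_neg_one.1 hd with ⟨h1, h2⟩ | ⟨h1, h2⟩
  · rw [h1, h2] at ht
    norm_num at ht
  · rw [h1, h2] at ht
    norm_num at ht

private theorem or_inv (B : GL (Fin 2) ℤ) (hd : B.val.det = 1) :
    (B⁻¹).val = !![B.val 1 1, -B.val 0 1; -B.val 1 0, B.val 0 0] := by
  rw [Matrix.det_fin_two] at hd
  have h : B.val * !![B.val 1 1, -B.val 0 1; -B.val 1 0, B.val 0 0] = 1 := by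
    ext i j
    fin_cases i <;> fin_cases j
    · simp [Matrix.mul_apply, Fin.sum_univ_two]
      linarith
    · simp [Matrix.mul_apply, Fin.sum_univ_two]
      ring
    · simp [Matrix.mul_apply, Fin.sum_univ_two]
      ring
    · simp [Matrix.mul_apply, Fin.sum_univ_two]
      linarith
  calc (B⁻¹).val = (B⁻¹).val * (B.val * !![B.val 1 1, -B.val 0 1; -B.val 1 0, B.val 0 0]) := by
        rw [h, mul_one]
    _ = !![B.val 1 1, -B.val 0 1; -B.val 1 0, B.val 0 0] := by
        rw [← mul_assoc, Units.inv_mul, one_mul]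

private theorem or_comm (X B : GL (Fin 2) ℤ) (h : X * B * X⁻¹ = B) :
    X.val 0 1 * B.val 1 0 = B.val 0 1 * X.val 1 0 ∧
    (X.val 0 0 - X.val 1 1) * B.val 0 1 = X.val 0 1 * (B.val 0 0 - B.val 1 1) := by
  have h1 : X * B = B * X := mul_inv_eq_iff_eq_mul.1 h
  have h2 : X.val * B.val = B.val * X.val := by
    have := congrArg Units.val h1
    simpa using this
  have h00 := congrFun (congrFun h2 0) 0
  have h01 := congrFun (congrFun h2 0) 1
  rw [Matrix.mul_apply, Matrix.mul_apply, Fin.sum_univ_two, Fin.sum_univ_two] at h00 h01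
  constructor
  · linarith
  · linarith

/-- the centraliser of a hyperbolic matrix is commutative -/
private theorem or_cent (X C B : GL (Fin 2) ℤ) (hb : B.val 0 1 ≠ 0) (hX : X * B * X⁻¹ = B)
    (hC : C * B * C⁻¹ = B) : X * C * X⁻¹ = C := by
  obtain ⟨x1, x2⟩ := or_comm X B hX
  obtain ⟨c1, c2⟩ := or_comm C B hC
  have hq : X.val 1 0 * C.val 0 1 = C.val 1 0 * X.val 0 1 := by
    apply mul_left_cancel₀ hb
    linear_combination X.val 0 1 * c1 - C.val 0 1 * x1
  rw [mul_inv_eq_iff_eq_mul]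
  apply Units.ext
  rw [Units.val_mul, Units.val_mul]
  ext i j
  rw [Matrix.mul_apply, Matrix.mul_apply, Fin.sum_univ_two, Fin.sum_univ_two]
  apply mul_left_cancel₀ hb
  fin_cases i <;> fin_cases j
  · simp only [Fin.zero_eta]
    linear_combination (-X.val 0 1) * c1 + C.val 0 1 * x1
  · simp only [Fin.zero_eta, Fin.mk_one]
    linear_combination (-X.val 0 1) * c2 + C.val 0 1 * x2
  · simp only [Fin.zero_eta, Fin.mk_one]
    linear_combination (X.val 1 0) * c2 - C.val 1 0 * x2 + (B.val 0 0 - B.val 1 1) * hq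
  · simp only [Fin.zero_eta, Fin.mk_one]
    linear_combination (X.val 0 1) * c1 - C.val 0 1 * x1

private theorem or_invert (X C B : GL (Fin 2) ℤ) (hb : B.val 0 1 ≠ 0) (hd : B.val.det = 1)
    (hdC : C.val.det = 1) (hX : X * B * X⁻¹ = B⁻¹) (hC : C * B * C⁻¹ = B) :
    X * C * X⁻¹ = C⁻¹ := by
  obtain ⟨c1, c2⟩ := or_comm C B hC
  have h1 : X * B = B⁻¹ * X := mul_inv_eq_iff_eq_mul.1 hX
  have h2 : X.val * B.val = !![B.val 1 1, -B.val 0 1; -B.val 1 0, B.val 0 0] * X.val := by
    have := congrArg Units.val h1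
    rw [Units.val_mul, Units.val_mul, or_inv B hd] at this
    exact this
  have h00 := congrFun (congrFun h2 0) 0
  have h01 := congrFun (congrFun h2 0) 1
  have h10 := congrFun (congrFun h2 1) 0
  have h11 := congrFun (congrFun h2 1) 1
  rw [Matrix.mul_apply, Matrix.mul_apply, Fin.sum_univ_two, Fin.sum_univ_two] at h00 h01 h10 h11
  simp only [Matrix.of_apply, Matrix.cons_val', Matrix.cons_val_zero, Matrix.cons_val_one,
    Matrix.cons_val_fin_one] at h00 h01 h10 h11
  rw [mul_inv_eq_iff_eq_mul]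
  apply Units.ext
  rw [Units.val_mul, Units.val_mul, or_inv C hdC]
  ext i j
  rw [Matrix.mul_apply, Matrix.mul_apply, Fin.sum_univ_two, Fin.sum_univ_two]
  apply mul_left_cancel₀ hb
  fin_cases i <;> fin_cases j
  · simp only [Fin.zero_eta, Fin.mk_one, Matrix.of_apply, Matrix.cons_val', Matrix.cons_val_zero,
      Matrix.cons_val_one, Matrix.cons_val_fin_one]
    linear_combination C.val 0 1 * h00 + X.val 0 0 * c2 - X.val 0 1 * c1
  · simp only [Fin.zero_eta, Fin.mk_one, Matrix.of_apply, Matrix.cons_val', Matrix.cons_val_zero,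
      Matrix.cons_val_one, Matrix.cons_val_fin_one]
    linear_combination C.val 0 1 * h01
  · simp only [Fin.zero_eta, Fin.mk_one, Matrix.of_apply, Matrix.cons_val', Matrix.cons_val_zero,
      Matrix.cons_val_one, Matrix.cons_val_fin_one]
    linear_combination C.val 0 1 * h10 - (X.val 1 1 + X.val 0 0) * c1
  · simp only [Fin.zero_eta, Fin.mk_one, Matrix.of_apply, Matrix.cons_val', Matrix.cons_val_zero,
      Matrix.cons_val_one, Matrix.cons_val_fin_one]
    linear_combination C.val 0 1 * h11 - X.val 1 1 * c2 - X.val 0 1 * c1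

private theorem or_sq (B : GL (Fin 2) ℤ) : (B * B).val 0 1 = B.val.trace * B.val 0 1 := by
  rw [Units.val_mul, Matrix.mul_apply, Fin.sum_univ_two, Matrix.trace_fin_two]
  ring

private theorem or_det_cast {m : ℕ} (X Y : GL (Fin 2) ℤ) (M : GL (Fin 2) (ZMod m))
    (h : Matrix.GeneralLinearGroup.map (Int.castRingHom (ZMod m)) X =
      M * Matrix.GeneralLinearGroup.map (Int.castRingHom (ZMod m)) Y * M⁻¹) :
    ((X.val.det : ℤ) : ZMod m) = ((Y.val.det : ℤ) : ZMod m) := by
  have e : ∀ Z : GL (Fin 2) ℤ,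
      (Matrix.GeneralLinearGroup.map (Int.castRingHom (ZMod m)) Z).val.det =
        ((Z.val.det : ℤ) : ZMod m) := fun Z =>
    (RingHom.map_det (Int.castRingHom (ZMod m)) Z.val).symm
  rw [← e, ← e, h, Units.val_mul, Units.val_mul, Matrix.det_mul, Matrix.det_mul]
  have h1 : M.val.det * (M⁻¹).val.det = 1 := by
    rw [← Matrix.det_mul, Units.mul_inv, Matrix.det_one]
  linear_combination
    (Matrix.GeneralLinearGroup.map (Int.castRingHom (ZMod m)) Y).val.det * h1

private theorem or_det_pm (X : GL (Fin 2) ℤ) : X.val.det = 1 ∨ X.val.det = -1 := by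
  have h1 : X.val.det * (X⁻¹).val.det = 1 := by
    rw [← Matrix.det_mul, Units.mul_inv, Matrix.det_one]
  rcases Int.mul_eq_one_iff_eq_one_or_neg_one.1 h1 with h | h
  · exact Or.inl h.1
  · exact Or.inr h.1

private theorem or_det_eq {m : ℕ} (hm : 3 ≤ m) (X Y : GL (Fin 2) ℤ)
    (h : ((X.val.det : ℤ) : ZMod m) = ((Y.val.det : ℤ) : ZMod m)) : X.val.det = Y.val.det := by
  rw [ZMod.intCast_eq_intCast_iff_dvd_sub] at h
  have key : ∀ z : ℤ, z ≠ 0 → (m : ℤ) ∣ z → |z| ≤ 2 → False := by
    intro z hz hd hz2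
    have := Int.le_of_dvd (abs_pos.2 hz) ((dvd_abs _ _).2 hd)
    omega
  rcases or_det_pm X with hX | hX <;> rcases or_det_pm Y with hY | hY
  · rw [hX, hY]
  · rw [hX, hY] at h
    exact (key _ (by norm_num) h (by norm_num)).elim
  · rw [hX, hY] at h
    exact (key _ (by norm_num) h (by norm_num)).elim
  · rw [hX, hY]

/-- orientation -/
theorem orient {D D' : Subgroup (GL (Fin 2) ℤ)} {B B' : GL (Fin 2) ℤ}
    (hB : B ∈ D) (hB' : B' ∈ D') (hd : B.val.det = 1) (ht : 3 ≤ |B.val.trace|)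
    (hd' : B'.val.det = 1) (ht' : 3 ≤ |B'.val.trace|)
    (hN : ∀ X ∈ D, X * B * X⁻¹ = B ∨ X * B * X⁻¹ = B⁻¹)
    (hN' : ∀ X ∈ D', X * B' * X⁻¹ = B' ∨ X * B' * X⁻¹ = B'⁻¹)
    (hLC : ∀ m : ℕ, 0 < m → ∃ M : GL (Fin 2) (ZMod m),
      (D'.map (Matrix.GeneralLinearGroup.map (Int.castRingHom (ZMod m)))).map
        (MulAut.conj M).toMonoidHom =
      D.map (Matrix.GeneralLinearGroup.map (Int.castRingHom (ZMod m))))
    (hO : ∀ X ∈ D, X.val.det = 1 ↔ X * B * X⁻¹ = B) :
    ∀ X ∈ D', X.val.det = 1 ↔ X * B' * X⁻¹ = B' := by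
  intro X' hX'
  have hb := or_b_ne B hd ht
  have hb' := or_b_ne B' hd' ht'
  have hz : B'.val.trace * B'.val 0 1 ≠ 0 := by
    refine mul_ne_zero ?_ hb'
    intro h0
    rw [h0] at ht'
    norm_num at ht'
  obtain ⟨m, hm⟩ : ∃ m : ℕ, m = 3 + (B'.val.trace * B'.val 0 1).natAbs := ⟨_, rfl⟩
  obtain ⟨M, hM⟩ := hLC m (by omega)
  set red := Matrix.GeneralLinearGroup.map (n := Fin 2) (Int.castRingHom (ZMod m)) with hred
  have key : ∀ Y ∈ D', ∃ X ∈ D, red X = M * red Y * M⁻¹ := by
    intro Y hY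
    have h1 : M * red Y * M⁻¹ ∈ (D'.map red).map (MulAut.conj M).toMonoidHom :=
      ⟨red Y, ⟨Y, hY, rfl⟩, rfl⟩
    rw [hM] at h1
    obtain ⟨X, hX, hX2⟩ := h1
    exact ⟨X, hX, hX2⟩
  obtain ⟨X, hXD, hX⟩ := key X' hX'
  obtain ⟨C, hCD, hC⟩ := key B' hB'
  have hm3 : 3 ≤ m := by omega
  have hdX : X.val.det = X'.val.det := or_det_eq hm3 X X' (or_det_cast X X' M hX)
  have hdC : C.val.det = 1 := by
    rw [← hd']
    exact or_det_eq hm3 C B' (or_det_cast C B' M hC)
  have hCB : C * B * C⁻¹ = B := (hO C hCD).1 hdC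
  -- the square of `B'` is not trivial modulo `m`
  have hne : red B' ≠ (red B')⁻¹ := by
    intro h
    have h1 : red (B' * B') = 1 := by
      rw [map_mul]
      nth_rewrite 2 [h]
      exact mul_inv_cancel _
    have h2 : (red (B' * B')).val 0 1 = (1 : Matrix (Fin 2) (Fin 2) (ZMod m)) 0 1 := by
      rw [h1]
      rfl
    have h3 : (red (B' * B')).val 0 1 = (((B' * B').val 0 1 : ℤ) : ZMod m) := rfl
    rw [h3, or_sq] at h2
    have h4 : (1 : Matrix (Fin 2) (Fin 2) (ZMod m)) 0 1 = 0 := by simp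
    rw [h4, ZMod.intCast_zmod_eq_zero_iff_dvd] at h2
    have := Int.le_of_dvd (abs_pos.2 hz) ((dvd_abs _ _).2 h2)
    rw [Int.abs_eq_natAbs] at this
    omega
  have hconj : ∀ Y : GL (Fin 2) ℤ, X' * B' * X'⁻¹ = Y →
      red (X * C * X⁻¹) = M * red Y * M⁻¹ := by
    intro Y hY
    rw [map_mul, map_mul, map_inv, hX, hC, ← hY, map_mul, map_mul, map_inv]
    group
  constructor
  · intro h1
    rcases hN' X' hX' with h2 | h2
    · exact h2
    · exfalso
      have hXB : X * B * X⁻¹ = B := (hO X hXD).1 (by rw [hdX, h1])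
      have hXC := or_cent X C B hb hXB hCB
      have h3 := hconj _ h2
      rw [hXC, hC, map_inv] at h3
      apply hne
      have h4 := mul_right_cancel h3
      exact mul_left_cancel h4
  · intro h1
    rcases or_det_pm X' with h2 | h2
    · exact h2
    · exfalso
      have hXB : X * B * X⁻¹ = B⁻¹ := by
        rcases hN X hXD with h | h
        · exfalso
          have := (hO X hXD).2 h
          rw [hdX, h2] at this
          norm_num at this
        · exact h
      have hXC := or_invert X C B hb hd hdC hXB hCB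
      have h3 := hconj _ h1
      rw [hXC, map_inv, hC] at h3
      apply hne
      have h5 : M * (red B')⁻¹ * M⁻¹ = M * red B' * M⁻¹ := by
        rw [← h3]
        group
      have h4 := mul_right_cancel h5
      exact (mul_left_cancel h4).symm

end Pool.Agent.VFib
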