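import Pool.Agent.Lib.MP_305fdd_al.VFib.Semi3
import Pool.Agent.Lib.MP_305fdd_al.F2X.P.refl

/-!
# MP_305fdd_al, VFib: pairs of involutions in `GL(2, ℤ)`
-/

set_option autoImplicit false

namespace Pool.Agent.VFib

open Pool.Agent.MP_305fdd_al Pool.Agent.Lib.MP_305fdd_al Pool.Agent.F2X Pool.Agent.F8
  Pool.Agent.F8.HN

/-- The groups in the genus. -/
theorem semi_main {J K : GL (Fin 2) ℤ} (hJ : J * J = 1) (hK : K * K = 1)
    (ht : 3 ≤ |(J * K).val.trace|) (Λ : Type) [Group Λ] (hfp : Group.IsFinitelyPresented Λ)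
    (hΛ : LF.LERF Λ) (h : SameFiniteQuotients Λ (Pre (Subgroup.closure {J, K}))) :
    ∃ K₁ K₂ : GL (Fin 2) ℤ, K₁ * K₁ = 1 ∧ K₂ * K₂ = 1 ∧
      (K₁ * K₂).val.trace = (J * K).val.trace ∧ LF.cont (K₁ * K₂).val = LF.cont (J * K).val ∧
      Nonempty (Λ ≃* Pre (Subgroup.closure {K₁, K₂})) := by
  have hd : (J * K).val.det = 1 := inv_det hJ hK fun h0 => by
    rw [h0, abs_zero] at ht
    norm_num at ht
  obtain ⟨Γ₀, hn, β, e, hi, hβ, hinv⟩ := gam_side hJ hK ht
  have hdet : ((AM β).val - 1).det ≠ 0 := by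
    have h3 : ∀ M : Matrix (Fin 2) (Fin 2) ℤ, (M - 1).det = M.det - M.trace + 1 := fun M => by
      rw [Matrix.det_fin_two, Matrix.det_fin_two, Matrix.trace_fin_two]
      simp
      ring
    rw [h3, hβ, hd]
    intro h4
    have h5 : (J * K).val.trace = 2 := by linarith
    rw [h5] at ht
    norm_num at ht
  obtain ⟨Λ₀, hn', γ, e', hi', k1, k2, k3, hinv'⟩ := lam_side Γ₀ hi β e hdet hinv Λ hfp hΛ h
  obtain ⟨K₁, K₂, l1, l2, l3, l4⟩ := semi_iso Λ₀ hi' γ e' (by rw [k1, hβ, hd])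
    (by rw [k2, hβ]; exact ht) hinv'
  exact ⟨K₁, K₂, l1, l2, by rw [l3, k2, hβ], by rw [l3, k3, hβ], l4⟩

/-- involutions -/
theorem inv_entries {K : GL (Fin 2) ℤ} (hK : K * K = 1) (h : K.val 0 1 ≠ -K.val 1 0 ∨
    K.val 0 0 ≠ K.val 1 1) :
    K.val 1 1 = -K.val 0 0 ∧ K.val 0 0 * K.val 0 0 + K.val 0 1 * K.val 1 0 = 1 := by
  have h1 : K.val * K.val = 1 := by rw [← Units.val_mul, hK, Units.val_one]
  have e00 := congrFun (congrFun h1 0) 0
  have e01 := congrFun (congrFun h1 0) 1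
  have e10 := congrFun (congrFun h1 1) 0
  have e11 := congrFun (congrFun h1 1) 1
  rw [Matrix.mul_apply, Fin.sum_univ_two] at e00 e01 e10 e11
  rw [Matrix.one_apply_eq] at e00 e11
  rw [Matrix.one_apply_ne (by decide)] at e01 e10
  refine ⟨?_, e00⟩
  by_contra hne
  have hs : K.val 0 0 + K.val 1 1 ≠ 0 := fun h => hne (by linarith)
  have hb : K.val 0 1 = 0 := by
    have : K.val 0 1 * (K.val 0 0 + K.val 1 1) = 0 := by linarith
    rcases mul_eq_zero.1 this with h | h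
    · exact h
    · exact absurd h hs
  have hc : K.val 1 0 = 0 := by
    have : K.val 1 0 * (K.val 0 0 + K.val 1 1) = 0 := by linarith
    rcases mul_eq_zero.1 this with h | h
    · exact h
    · exact absurd h hs
  have had : K.val 0 0 = K.val 1 1 := by
    have : (K.val 0 0 - K.val 1 1) * (K.val 0 0 + K.val 1 1) = 0 := by
      rw [hb, hc] at e00 e11
      linarith
    rcases mul_eq_zero.1 this with h | h
    · linarith
    · exact absurd h hs
  rcases h with h | h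
  · exact h (by rw [hb, hc]; rfl)
  · exact h had

/-- the two normal forms -/
def U (i : Bool) : Matrix (Fin 2) (Fin 2) ℤ := if i then !![1, 0; 0, -1] else !![0, 1; 1, 0]

theorem U_trace (i : Bool) (M : Matrix (Fin 2) (Fin 2) ℤ) :
    (U i * M).trace = if i then M 0 0 - M 1 1 else M 1 0 + M 0 1 := by
  cases i
  · rw [Matrix.trace_fin_two, Matrix.mul_apply, Matrix.mul_apply, Fin.sum_univ_two,
      Fin.sum_univ_two]
    simp [U]
  · rw [Matrix.trace_fin_two, Matrix.mul_apply, Matrix.mul_apply, Fin.sum_univ_two,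
      Fin.sum_univ_two]
    simp [U]
    ring

theorem bound {τ : ℤ} (hτ : 3 ≤ |τ|) (i : Bool) {K : GL (Fin 2) ℤ} (hK : K * K = 1)
    (h : (U i * K.val).trace = τ) : ∀ r s, K.val r s ∈ Set.Icc (-(τ ^ 2)) (τ ^ 2) := by
  rw [U_trace] at h
  have hτ9 : 9 ≤ τ ^ 2 := by
    have : |τ| ^ 2 = τ ^ 2 := sq_abs τ
    nlinarith
  have hτ' : |τ| ≤ τ ^ 2 := by
    have : |τ| ^ 2 = τ ^ 2 := sq_abs τ
    nlinarith
  have hτ0 : τ ≠ 0 := by
    rintro rfl
    norm_num at hτ
  have hne : K.val 0 1 ≠ -K.val 1 0 ∨ K.val 0 0 ≠ K.val 1 1 := by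
    cases i
    · left
      intro h1
      apply hτ0
      rw [← h, h1]
      simp
    · right
      intro h1
      apply hτ0
      rw [← h, h1]
      simp
  obtain ⟨h1, h2⟩ := inv_entries hK hne
  have habs := abs_le.1 hτ'
  have hdiv : ∀ x y z : ℤ, x * y = z → z ≠ 0 → |z| ≤ τ ^ 2 - 4 ∨ |z| ≤ τ ^ 2 →
      -(τ ^ 2) ≤ x ∧ x ≤ τ ^ 2 := by
    intro x y z hxy hz hb
    have h3 : |x| ≤ |z| := by
      rw [← hxy, abs_mul]
      have hy : y ≠ 0 := by
        rintro rfl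
        apply hz
        rw [← hxy, mul_zero]
      have : 1 ≤ |y| := Int.one_le_abs hy
      nlinarith [abs_nonneg x]
    have h4 : |x| ≤ τ ^ 2 := by
      rcases hb with hb | hb <;> linarith
    exact abs_le.1 h4
  have hmain : (-(τ ^ 2) ≤ K.val 0 0 ∧ K.val 0 0 ≤ τ ^ 2) ∧
      (-(τ ^ 2) ≤ K.val 0 1 ∧ K.val 0 1 ≤ τ ^ 2) ∧ (-(τ ^ 2) ≤ K.val 1 0 ∧ K.val 1 0 ≤ τ ^ 2) := by
    cases i
    · simp only [Bool.false_eq_true, if_false] at h
      -- `(b - c - 2 a) (b - c + 2 a) = τ² - 4`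
      have h3 : (K.val 0 1 - K.val 1 0 - 2 * K.val 0 0) * (K.val 0 1 - K.val 1 0 + 2 * K.val 0 0) =
          τ ^ 2 - 4 := by
        rw [← h]
        linear_combination (-4) * h2
      have h4 : (τ ^ 2 - 4 : ℤ) ≠ 0 := by linarith
      have h5 : |τ ^ 2 - 4| ≤ τ ^ 2 - 4 := by rw [abs_of_nonneg (by linarith)]
      have a1 : ∀ x y : ℤ, x * y = τ ^ 2 - 4 → |x| ≤ τ ^ 2 - 4 := by
        intro x y hxy
        have hy : y ≠ 0 := by
          rintro rfl
          apply h4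
          rw [← hxy, mul_zero]
        have : 1 ≤ |y| := Int.one_le_abs hy
        have h6 : |x| * |y| = τ ^ 2 - 4 := by rw [← abs_mul, hxy, abs_of_nonneg (by linarith)]
        nlinarith [abs_nonneg x]
      have b1 := abs_le.1 (a1 _ _ h3)
      have b2 := abs_le.1 (a1 _ _ (by rw [mul_comm]; exact h3))
      refine ⟨⟨?_, ?_⟩, ⟨?_, ?_⟩, ⟨?_, ?_⟩⟩ <;> linarith [b1.1, b1.2, b2.1, b2.2, habs.1, habs.2]
    · simp only [if_true] at h
      have h3 : 2 * K.val 0 0 = τ := by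
        rw [h1] at h
        linarith
      have h4 : K.val 0 1 * K.val 1 0 = 1 - K.val 0 0 ^ 2 := by linarith [h2]
      have h5 : 4 * K.val 0 0 ^ 2 = τ ^ 2 := by
        rw [← h3]
        ring
      have h6 : (1 - K.val 0 0 ^ 2 : ℤ) ≠ 0 := by
        intro h7
        linarith
      have h7 : |1 - K.val 0 0 ^ 2| ≤ τ ^ 2 := by
        rw [abs_le]
        constructor <;> linarith
      refine ⟨⟨by linarith, by linarith⟩, hdiv _ _ _ h4 h6 (Or.inr h7),
        hdiv _ _ _ (by rw [mul_comm]; exact h4) h6 (Or.inr h7)⟩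
  intro r s
  rw [Set.mem_Icc]
  fin_cases r <;> fin_cases s
  · exact hmain.1
  · exact hmain.2.1
  · exact hmain.2.2
  · show -(τ ^ 2) ≤ K.val 1 1 ∧ K.val 1 1 ≤ τ ^ 2
    rw [h1]
    constructor <;> linarith [hmain.1.1, hmain.1.2]

theorem fin_inv {τ : ℤ} (hτ : 3 ≤ |τ|) (i : Bool) :
    {K : GL (Fin 2) ℤ | K * K = 1 ∧ (U i * K.val).trace = τ}.Finite := by
  have h1 : {M : Matrix (Fin 2) (Fin 2) ℤ | ∀ r s, M r s ∈ Set.Icc (-(τ ^ 2)) (τ ^ 2)}.Finite := by
    have h2 := Set.Finite.pi' (ι := Fin 2) (κ := fun _ => Fin 2 → ℤ)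
      (t := fun _ => {v : Fin 2 → ℤ | ∀ s, v s ∈ Set.Icc (-(τ ^ 2)) (τ ^ 2)})
      fun _ => Set.Finite.pi' fun _ => Set.finite_Icc _ _
    exact h2
  refine (h1.preimage (f := fun K : GL (Fin 2) ℤ => K.val) (Units.val_injective.injOn)).subset ?_
  rintro K ⟨hK, hK2⟩
  exact bound hτ i hK hK2

theorem nf_pair {J K : GL (Fin 2) ℤ} (hJ : J * J = 1) (ht : 3 ≤ |(J * K).val.trace|)
    (hK : K * K = 1) : ∃ (i : Bool) (X J' : GL (Fin 2) ℤ), J'.val = U i ∧ X * J * X⁻¹ = J' ∧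
      (X * K * X⁻¹) * (X * K * X⁻¹) = 1 ∧ (U i * (X * K * X⁻¹).val).trace = (J * K).val.trace := by
  have hd : (J * K).val.det = 1 := inv_det hJ hK fun h0 => by
    rw [h0, abs_zero] at ht
    norm_num at ht
  have hJ1 : J ≠ 1 := by
    rintro rfl
    rw [one_mul] at ht hd
    have := hyp_inj hd ht (k := 2) (by rw [zpow_two, hK])
    norm_num at this
  have hJ2 : J.val ≠ -1 := by
    intro h
    have h1 : (J * K).val = -K.val := by rw [Units.val_mul, h, neg_mul, one_mul]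
    have h2 : (J * K) * (J * K) = 1 := by
      apply Units.ext
      rw [Units.val_mul, h1, neg_mul_neg, ← Units.val_mul, hK]
    have := hyp_inj hd ht (k := 2) (by rw [zpow_two, h2])
    norm_num at this
  have key : ∀ (i : Bool) (X : GL (Fin 2) ℤ), X.val * J.val = U i * X.val →
      ∃ (i : Bool) (X J' : GL (Fin 2) ℤ), J'.val = U i ∧ X * J * X⁻¹ = J' ∧
      (X * K * X⁻¹) * (X * K * X⁻¹) = 1 ∧ (U i * (X * K * X⁻¹).val).trace = (J * K).val.trace := by
    intro i X h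
    have h1 : (X * J * X⁻¹).val = U i := by
      rw [Units.val_mul, Units.val_mul, h, mul_assoc, ← Units.val_mul, mul_inv_cancel,
        Units.val_one, mul_one]
    refine ⟨i, X, _, h1, rfl, ?_, ?_⟩
    · have : X * K * X⁻¹ * (X * K * X⁻¹) = X * (K * K) * X⁻¹ := by group
      rw [this, hK, mul_one, mul_inv_cancel]
    · have : (X * J * X⁻¹) * (X * K * X⁻¹) = X * (J * K) * X⁻¹ := by group
      rw [← h1, ← Units.val_mul, this, Units.val_mul, Matrix.trace_mul_comm, ← Units.val_mul,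
        ← mul_assoc, inv_mul_cancel, one_mul]
  obtain ⟨X, ⟨-, h⟩ | ⟨-, h⟩⟩ := p_refl J hJ hJ1 hJ2
  · exact key true X h
  · exact key false X h

theorem closure_conj {M : Type} [Group M] (X J K : M) :
    (Subgroup.closure ({J, K} : Set M)).map (MulAut.conj X).toMonoidHom =
      Subgroup.closure {X * J * X⁻¹, X * K * X⁻¹} := by
  rw [MonoidHom.map_closure, Set.image_pair]
  rfl

/-- finitely many groups -/
theorem fin_list {τ : ℤ} (hτ : 3 ≤ |τ|) :
    ∃ (n : ℕ) (P : Fin n → GL (Fin 2) ℤ × GL (Fin 2) ℤ), ∀ J K : GL (Fin 2) ℤ, J * J = 1 →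
      K * K = 1 → (J * K).val.trace = τ →
      ∃ i, Nonempty (Pre (Subgroup.closure {J, K}) ≃* Pre (Subgroup.closure {(P i).1, (P i).2})) := by
  have hU : ∀ i : Bool, {J : GL (Fin 2) ℤ | J.val = U i}.Finite := by
    intro i
    apply Set.Subsingleton.finite
    intro x hx y hy
    apply Units.ext
    rw [hx, hy]
  let S : Set (GL (Fin 2) ℤ × GL (Fin 2) ℤ) := ⋃ i : Bool,
    {J : GL (Fin 2) ℤ | J.val = U i} ×ˢ {K : GL (Fin 2) ℤ | K * K = 1 ∧ (U i * K.val).trace = τ}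
  have hS : S.Finite := Set.finite_iUnion fun i => (hU i).prod (fin_inv hτ i)
  have hSf : Finite S := hS
  obtain ⟨n, ⟨eS⟩⟩ := Finite.exists_equiv_fin S
  refine ⟨n, fun i => (eS.symm i : GL (Fin 2) ℤ × GL (Fin 2) ℤ), ?_⟩
  intro J K hJ hK ht
  obtain ⟨i, X, J', h1, h2, h3, h4⟩ := nf_pair hJ (by rw [ht]; exact hτ) hK
  have hmem : (J', X * K * X⁻¹) ∈ S := by
    refine Set.mem_iUnion.2 ⟨i, h1, h3, ?_⟩
    rw [h4, ht]
  refine ⟨eS ⟨_, hmem⟩, ?_⟩
  have h5 : ((eS.symm (eS ⟨(J', X * K * X⁻¹), hmem⟩) : S) : GL (Fin 2) ℤ × GL (Fin 2) ℤ) =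
      (J', X * K * X⁻¹) := by
    rw [Equiv.symm_apply_apply]
  have h6 : ∀ p : GL (Fin 2) ℤ × GL (Fin 2) ℤ, p = (J', X * K * X⁻¹) →
      Nonempty (Pre (Subgroup.closure {J, K}) ≃* Pre (Subgroup.closure {p.1, p.2})) := by
    rintro _ rfl
    apply pre_conj X
    rw [closure_conj, h2]
  exact h6 _ h5

/-! ### An example -/

/-- the matrix `[[0, 1], [1, 0]]` -/
def exJ : GL (Fin 2) ℤ := ⟨!![0, 1; 1, 0], !![0, 1; 1, 0], by decide, by decide⟩

/-- the matrix `[[-9, -5], [16, 9]]` -/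
def exK : GL (Fin 2) ℤ := ⟨!![-9, -5; 16, 9], !![-9, -5; 16, 9], by decide, by decide⟩

/-- the matrix `[[3, -2], [-5, 3]]` -/
def exX : GL (Fin 2) ℤ := ⟨!![3, -2; -5, 3], !![-3, -2; -5, -3], by decide, by decide⟩

theorem ex_sol {a b c : ℤ} (h1 : b + c = 11) (h2 : a * a + b * c = 1) (h3 : (3 : ℤ) ∣ a) :
    (a = 9 ∨ a = -9) ∧ ((b = 16 ∧ c = -5) ∨ (b = -5 ∧ c = 16)) := by
  obtain ⟨d, rfl⟩ := h3
  have hc : c = 11 - b := by linarith
  subst hc
  -- `(2 b - 11 - 6 d) (2 b - 11 + 6 d) = 117`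
  have h4 : (2 * b - 11 - 6 * d) * (2 * b - 11 + 6 * d) = 117 := by linear_combination (-4) * h2
  have a1 : ∀ x y : ℤ, x * y = 117 → |x| ≤ 117 := by
    intro x y hxy
    have hy : y ≠ 0 := by
      rintro rfl
      rw [mul_zero] at hxy
      norm_num at hxy
    have : 1 ≤ |y| := Int.one_le_abs hy
    have h6 : |x| * |y| = 117 := by rw [← abs_mul, hxy]; rfl
    nlinarith [abs_nonneg x]
  have b1 := abs_le.1 (a1 _ _ h4)
  have b2 := abs_le.1 (a1 _ _ (by rw [mul_comm]; exact h4))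
  have hd1 : -19 ≤ d := by linarith [b1.2, b2.1]
  have hd2 : d ≤ 19 := by linarith [b1.1, b2.2]
  have hb1 : -53 ≤ b := by linarith [b1.1, b2.1]
  have hb2 : b ≤ 64 := by linarith [b1.2, b2.2]
  have hb : (2 * b - 11) ^ 2 = 117 + 36 * d ^ 2 := by linear_combination h4
  have key : ∀ d ∈ Finset.Icc (-19 : ℤ) 19, ∀ b ∈ Finset.Icc (-53 : ℤ) 64,
      (2 * b - 11) ^ 2 = 117 + 36 * d ^ 2 →
      (3 * d = 9 ∨ 3 * d = -9) ∧ ((b = 16 ∧ 11 - b = -5) ∨ (b = -5 ∧ 11 - b = 16)) := by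
    decide +kernel
  exact key d (Finset.mem_Icc.2 ⟨hd1, hd2⟩) b (Finset.mem_Icc.2 ⟨hb1, hb2⟩) hb

theorem closure_swap {M : Type} [Group M] (J K : M) :
    Subgroup.closure ({J, K} : Set M) = Subgroup.closure {K, J} := by
  rw [Set.pair_comm]

/-- the group generated by the two reflections is determined by the trace and the content -/
theorem ex_unique {J K : GL (Fin 2) ℤ} (hJ : J * J = 1) (hK : K * K = 1)
    (ht : (J * K).val.trace = (exJ * exK).val.trace) (hc : LF.cont (J * K).val = LF.cont (exJ * exK).val) :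
    ∃ X : GL (Fin 2) ℤ, (Subgroup.closure ({J, K} : Set (GL (Fin 2) ℤ))).map
      (MulAut.conj X).toMonoidHom = Subgroup.closure {exJ, exK} := by
  have ht11 : (exJ * exK).val.trace = 11 := by decide
  have hc3 : LF.cont (exJ * exK).val = 3 := by decide
  rw [ht11] at ht
  rw [hc3] at hc
  obtain ⟨i, X, J', h1, h2, h3, h4⟩ := nf_pair hJ (by rw [ht]; norm_num) hK
  rw [ht] at h4
  -- the content of the conjugate
  have hdvd : ∀ M : Matrix (Fin 2) (Fin 2) ℤ, LF.cont M = 3 →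
      ∀ Y : GL (Fin 2) ℤ, (3 : ℤ) ∣ (Y.val * M * (Y⁻¹).val) 0 1 := by
    intro M hM Y
    have d1 : (3 : ℤ) ∣ M 0 1 := by
      have : LF.cont M ∣ Int.gcd (M 0 1) (M 1 0) := Nat.gcd_dvd_left _ _
      rw [hM] at this
      exact (Int.natCast_dvd_natCast.2 this).trans (Int.gcd_dvd_left _ _)
    have d2 : (3 : ℤ) ∣ M 1 0 := by
      have : LF.cont M ∣ Int.gcd (M 0 1) (M 1 0) := Nat.gcd_dvd_left _ _
      rw [hM] at this
      exact (Int.natCast_dvd_natCast.2 this).trans (Int.gcd_dvd_right _ _)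
    have d3 : (3 : ℤ) ∣ M 0 0 - M 1 1 := by
      have : LF.cont M ∣ Int.natAbs (M 0 0 - M 1 1) := Nat.gcd_dvd_right _ _
      rw [hM] at this
      exact Int.natCast_dvd.2 this
    obtain ⟨x, hx⟩ := d1
    obtain ⟨y, hy⟩ := d2
    obtain ⟨z, hz⟩ := d3
    have h00 : M 0 0 = M 1 1 + 3 * z := by linarith
    rw [LF.inv_eq_adj, Matrix.adjugate_fin_two, Matrix.mul_smul, Matrix.smul_apply,
      Matrix.mul_apply, Fin.sum_univ_two, Matrix.mul_apply, Matrix.mul_apply, Fin.sum_univ_two,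
      Fin.sum_univ_two]
    simp only [Matrix.of_apply, Matrix.cons_val', Matrix.cons_val_zero, Matrix.cons_val_one,
      smul_eq_mul]
    rw [hx, hy, h00]
    refine Dvd.dvd.mul_left ?_ _
    refine ⟨-(Y.val 0 0 * z * Y.val 0 1) - Y.val 0 1 * y * Y.val 0 1 + Y.val 0 0 * x * Y.val 0 0,
      ?_⟩
    ring
  have h5 : X * (J * K) * X⁻¹ = J' * (X * K * X⁻¹) := by
    rw [← h2]
    group
  have h6 := hdvd _ hc X
  rw [← Units.val_mul, ← Units.val_mul, h5, Units.val_mul, h1] at h6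
  cases i
  · -- the case of the swap
    have hJ' : J' = exJ := Units.ext (by rw [h1]; rfl)
    rw [U_trace] at h4
    simp only [Bool.false_eq_true, if_false] at h4
    obtain ⟨e1, e2⟩ := inv_entries h3 (Or.inl fun h => by
      rw [h] at h4
      norm_num at h4)
    have h7 : (3 : ℤ) ∣ (X * K * X⁻¹).val 0 0 := by
      have h8 : (U false * (X * K * X⁻¹).val) 0 1 = (X * K * X⁻¹).val 1 1 := by
        rw [Matrix.mul_apply, Fin.sum_univ_two]
        simp [U]
      rw [h8, e1] at h6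
      exact (dvd_neg).1 h6
    obtain ⟨s1, s2⟩ := ex_sol (b := (X * K * X⁻¹).val 0 1) (c := (X * K * X⁻¹).val 1 0)
      (by linarith) e2 h7
    have hval : ∀ a b c : ℤ, (X * K * X⁻¹).val 0 0 = a → (X * K * X⁻¹).val 0 1 = b →
        (X * K * X⁻¹).val 1 0 = c → (X * K * X⁻¹).val = !![a, b; c, -a] := by
      intro a b c ha hb hc'
      ext r s
      fin_cases r <;> fin_cases s
      · exact ha
      · exact hb
      · exact hc'
      · show (X * K * X⁻¹).val 1 1 = -a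
        rw [e1, ha]
    -- the other two groups
    have hfin : ∀ Y : GL (Fin 2) ℤ, (Subgroup.closure ({exJ, X * K * X⁻¹} :
        Set (GL (Fin 2) ℤ))).map (MulAut.conj Y).toMonoidHom = Subgroup.closure {exJ, exK} →
        ∃ X : GL (Fin 2) ℤ, (Subgroup.closure ({J, K} : Set (GL (Fin 2) ℤ))).map
      (MulAut.conj X).toMonoidHom = Subgroup.closure {exJ, exK} := by
      intro Y hY
      refine ⟨Y * X, ?_⟩
      rw [closure_conj] at hY ⊢
      rw [← hY, ← hJ', ← h2]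
      congr 2
      · group
      · congr 1
        group
    rcases s1 with s1 | s1 <;> rcases s2 with ⟨s2, s3⟩ | ⟨s2, s3⟩
    · apply hfin exJ
      rw [closure_conj]
      have v : (X * K * X⁻¹) = exJ⁻¹ * exK * exJ := by
        apply Units.ext
        rw [hval _ _ _ s1 s2 s3]
        decide
      rw [v]
      congr 2
      · group
      · congr 1
        group
    · apply hfin exX
      rw [closure_conj]
      have v1 : exX * exJ * exX⁻¹ = exK := by decide
      have v2 : exX * (X * K * X⁻¹) * exX⁻¹ = exJ := by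
        have : (X * K * X⁻¹) = exX⁻¹ * exJ * exX := by
          apply Units.ext
          rw [hval _ _ _ s1 s2 s3]
          decide
        rw [this]
        group
      rw [v1, v2, Set.pair_comm]
    · apply hfin (exX * exJ)
      rw [closure_conj]
      have v1 : exX * exJ * exJ * (exX * exJ)⁻¹ = exK := by decide
      have v2 : exX * exJ * (X * K * X⁻¹) * (exX * exJ)⁻¹ = exJ := by
        have : (X * K * X⁻¹) = (exX * exJ)⁻¹ * exJ * (exX * exJ) := by
          apply Units.ext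
          rw [hval _ _ _ s1 s2 s3]
          decide
        rw [this]
        group
      rw [v1, v2, Set.pair_comm]
    · apply hfin 1
      rw [closure_conj]
      have v : (X * K * X⁻¹) = exK := by
        apply Units.ext
        rw [hval _ _ _ s1 s2 s3]
        decide
      rw [v, one_mul, one_mul, inv_one, mul_one, mul_one]
  · exfalso
    rw [U_trace] at h4
    simp only [if_true] at h4
    obtain ⟨e1, -⟩ := inv_entries h3 (Or.inr fun h => by
      rw [h] at h4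
      norm_num at h4)
    rw [e1] at h4
    omega

end Pool.Agent.VFib
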