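import Mathlib

/-! Infinite dihedral subgroups of `GL(2, ℤ)` which contain a hyperbolic matrix with index two. -/

set_option autoImplicit false

namespace Pool.Agent.VFib

private lemma v_inv_val (B : GL (Fin 2) ℤ) (h : B.val.det = 1) :
    (B⁻¹).val = B.val.adjugate := by
  rw [Matrix.coe_units_inv, Matrix.inv_def, h, Ring.inverse_one, one_smul]

private lemma v_b_ne {B : Matrix (Fin 2) (Fin 2) ℤ} (hd : B.det = 1) (ht : 3 ≤ |B.trace|) :
    B 0 1 ≠ 0 := by
  intro h
  rw [Matrix.det_fin_two, h, zero_mul, sub_zero] at hd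
  rw [Matrix.trace_fin_two] at ht
  rcases Int.mul_eq_one_iff_eq_one_or_neg_one.mp hd with ⟨h1, h2⟩ | ⟨h1, h2⟩ <;>
    rw [h1, h2] at ht <;> norm_num at ht

private lemma v_tr {B X : Matrix (Fin 2) (Fin 2) ℤ} (hb : B 0 1 ≠ 0)
    (hX : X * B = B.adjugate * X) : X 0 0 + X 1 1 = 0 := by
  have x2 := congrFun (congrFun hX 0) 1
  simp only [Matrix.adjugate_fin_two, Matrix.mul_apply, Fin.sum_univ_two, Matrix.of_apply,
    Matrix.cons_val', Matrix.cons_val_zero, Matrix.cons_val_one, Matrix.cons_val_fin_one] at x2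
  apply mul_left_cancel₀ hb
  linear_combination x2

private lemma v_sq {X : Matrix (Fin 2) (Fin 2) ℤ} (h : X 0 0 + X 1 1 = 0) (hd : X.det = -1) :
    X * X = 1 := by
  rw [Matrix.det_fin_two] at hd
  have h1 : X 1 1 = - X 0 0 := by linarith
  rw [h1] at hd
  ext i j
  fin_cases i <;> fin_cases j <;>
    simp only [Matrix.mul_apply, Fin.sum_univ_two, Fin.zero_eta, Fin.mk_one, Fin.isValue,
      Matrix.one_apply_eq, h1]
  · linear_combination -hd
  · rw [Matrix.one_apply_ne (by decide)]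
    ring
  · rw [Matrix.one_apply_ne (by decide)]
    ring
  · linear_combination -hd

private lemma v_det_zpow {B : GL (Fin 2) ℤ} (hd : B.val.det = 1) (k : ℤ) : (B ^ k).val.det = 1 := by
  have h1 : Matrix.GeneralLinearGroup.det B = 1 := Units.ext hd
  have h2 : Matrix.GeneralLinearGroup.det (B ^ k) = 1 := by rw [map_zpow, h1, one_zpow]
  exact congrArg Units.val h2

theorem dih_of {D : Subgroup (GL (Fin 2) ℤ)} {B X : GL (Fin 2) ℤ} (hB : B ∈ D)
    (hd : B.val.det = 1) (ht : 3 ≤ |B.val.trace|) (hi : (Subgroup.zpowers B).relIndex D = 2)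
    (hX : X ∈ D) (hXd : X.val.det = -1) (hXB : X * B * X⁻¹ = B⁻¹) :
    ∃ J K : GL (Fin 2) ℤ, J * J = 1 ∧ K * K = 1 ∧ J * K = B ∧ D = Subgroup.closure {J, K} := by
  have hb : B.val 0 1 ≠ 0 := v_b_ne hd ht
  have h1 : X * B = B⁻¹ * X := mul_inv_eq_iff_eq_mul.mp hXB
  have h2 : X.val * B.val = B.val.adjugate * X.val := by
    rw [← v_inv_val B hd, ← Units.val_mul, ← Units.val_mul, h1]
  have hXX : X * X = 1 := Units.ext (v_sq (v_tr hb h2) hXd)
  have hJK : X * (X * B) = B := by rw [← mul_assoc, hXX, one_mul]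
  have hKK : X * B * (X * B) = 1 := by
    rw [h1, mul_assoc, ← h1, hJK, inv_mul_cancel]
  refine ⟨X, X * B, hXX, hKK, hJK, ?_⟩
  have hBc : B ∈ Subgroup.closure {X, X * B} := by
    have e : X * (X * B) ∈ Subgroup.closure {X, X * B} :=
      mul_mem (Subgroup.subset_closure (Set.mem_insert _ _))
        (Subgroup.subset_closure (Set.mem_insert_of_mem _ (Set.mem_singleton _)))
    rwa [hJK] at e
  have hXc : X ∈ Subgroup.closure {X, X * B} := Subgroup.subset_closure (Set.mem_insert _ _)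
  have hle : Subgroup.zpowers B ≤ Subgroup.closure {X, X * B} := by
    rwa [Subgroup.zpowers_le]
  have hXn : X ∉ Subgroup.zpowers B := by
    intro h
    obtain ⟨k, hk⟩ := Subgroup.mem_zpowers_iff.mp h
    have := v_det_zpow hd k
    rw [hk, hXd] at this
    norm_num at this
  apply le_antisymm
  · intro Y hY
    by_cases hYz : Y ∈ Subgroup.zpowers B
    · exact hle hYz
    · have h3 : (⟨X, hX⟩ : D) * ⟨Y, hY⟩ ∈ (Subgroup.zpowers B).subgroupOf D := by
        rw [Subgroup.mul_mem_iff_of_index_two hi, Subgroup.mem_subgroupOf, Subgroup.mem_subgroupOf]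
        exact ⟨fun h => absurd h hXn, fun h => absurd h hYz⟩
      have h4 : X * Y ∈ Subgroup.zpowers B := Subgroup.mem_subgroupOf.mp h3
      have h5 : Y = X⁻¹ * (X * Y) := by group
      rw [h5]
      exact mul_mem (inv_mem hXc) (hle h4)
  · rw [Subgroup.closure_le]
    rintro Z (rfl | hZ)
    · exact hX
    · rw [Set.mem_singleton_iff] at hZ
      rw [hZ]
      exact mul_mem hX hB

end Pool.Agent.VFib
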