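import Mathlib

set_option autoImplicit false

namespace Pool.Agent.VFib

theorem w_fact (p : ℕ) (hp : p.Prime) (a m b c : ℤ) (h : a ^ 2 - p * m ^ 2 = 1) (hm : m ≠ 0)
    (h1 : a ^ 2 + b * c = 1) (h2 : Int.gcd b c = m.natAbs) :
    (b = m ∧ c = -(p * m)) ∨ (b = -m ∧ c = p * m) ∨ (b = p * m ∧ c = -m) ∨
      (b = -(p * m) ∧ c = m) := by
  have hb : m ∣ b := by
    have e : ((Int.gcd b c : ℕ) : ℤ) ∣ b := Int.gcd_dvd_left b c
    rw [h2] at e
    exact Int.natAbs_dvd.mp e
  have hc : m ∣ c := by
    have e : ((Int.gcd b c : ℕ) : ℤ) ∣ c := Int.gcd_dvd_right b c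
    rw [h2] at e
    exact Int.natAbs_dvd.mp e
  obtain ⟨b', rfl⟩ := hb
  obtain ⟨c', rfl⟩ := hc
  have h3 : b' * c' = -p := by
    have hm2 : m ^ 2 ≠ 0 := pow_ne_zero 2 hm
    apply mul_left_cancel₀ hm2
    linear_combination h1 - h
  have hp0 : (p : ℤ) ≠ 0 := by exact_mod_cast hp.ne_zero
  have h4 : b'.natAbs ∣ p := by
    have e : b' ∣ (p : ℤ) := ⟨-c', by linear_combination h3⟩
    have := Int.natAbs_dvd_natAbs.mpr e
    simpa using this
  rcases (Nat.dvd_prime hp).mp h4 with h5 | h5
  · rcases Int.natAbs_eq b' with h6 | h6 <;> rw [h5] at h6 <;> push_cast at h6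
    · left
      rw [h6, one_mul] at h3
      rw [h6, h3]
      exact ⟨by ring, by ring⟩
    · right; left
      have h7 : c' = p := by rw [h6] at h3; linarith
      rw [h6, h7]
      exact ⟨by ring, by ring⟩
  · rcases Int.natAbs_eq b' with h6 | h6 <;> rw [h5] at h6
    · right; right; left
      have h7 : c' = -1 := by
        rw [h6] at h3
        apply mul_left_cancel₀ hp0
        linear_combination h3
      rw [h6, h7]
      exact ⟨by ring, by ring⟩
    · right; right; right
      have h7 : c' = 1 := by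
        rw [h6] at h3
        apply mul_left_cancel₀ hp0
        linear_combination -h3
      rw [h6, h7]
      exact ⟨by ring, by ring⟩

end Pool.Agent.VFib
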