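import Mathlib

set_option autoImplicit false

namespace Pool.Agent.VFib

open Matrix in
private theorem w2_fix {q : ℕ} (a m p : ℤ) (J K : GL (Fin 2) ℤ) (hJ : J.val = !![1, 0; 0, -1])
    (hK : K.val = !![a, m; -(p * m), -a]) (ha : ((a : ℤ) : ZMod q) = 1)
    (hpm : ((p * m : ℤ) : ZMod q) = 0) (g : GL (Fin 2) ℤ) (hg : g ∈ Subgroup.closure {J, K}) :
    (Matrix.GeneralLinearGroup.map (Int.castRingHom (ZMod q)) g).val *ᵥ ![1, 0] = ![1, 0] := by
  induction hg using Subgroup.closure_induction with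
  | mem x hx =>
    rcases hx with rfl | hx
    · ext i
      fin_cases i <;> simp [hJ, Matrix.GeneralLinearGroup.map, Matrix.mulVec, Matrix.vecHead, Matrix.vecTail]
    · rw [Set.mem_singleton_iff] at hx
      subst hx
      ext i
      have h2 : ((p : ℤ) : ZMod q) * ((m : ℤ) : ZMod q) = 0 := by
        rw [← Int.cast_mul]; exact hpm
      fin_cases i
      · simp [hK, Matrix.GeneralLinearGroup.map, Matrix.mulVec, Matrix.vecHead, Matrix.vecTail, ha]
      · simp [hK, Matrix.GeneralLinearGroup.map, Matrix.mulVec, Matrix.vecHead, Matrix.vecTail, h2]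
  | one => simp
  | mul x y _ _ hx hy =>
    rw [map_mul, Units.val_mul, ← Matrix.mulVec_mulVec, hy, hx]
  | inv x _ hx =>
    rw [map_inv]
    conv_lhs => rw [← hx]
    rw [Matrix.mulVec_mulVec, ← Units.val_mul, inv_mul_cancel, Units.val_one, Matrix.one_mulVec]

open Matrix in
theorem w_excl (p : ℕ) (hp : p.Prime) (hp2 : p ≠ 2) (a m : ℤ) (h : a ^ 2 - p * m ^ 2 = 1)
    (hm : m ≠ 0) (ha : (p : ℤ) ∣ a - 1) (J K K₂ : GL (Fin 2) ℤ) (hJ : J.val = !![1, 0; 0, -1])
    (hK : K.val = !![a, m; -(p * m), -a]) (hK₂ : K₂.val = !![a, p * m; -m, -a])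
    (hLC : ∀ m : ℕ, 0 < m → ∃ M : GL (Fin 2) (ZMod m),
      ((Subgroup.closure {J, K₂}).map
        (Matrix.GeneralLinearGroup.map (Int.castRingHom (ZMod m)))).map
          (MulAut.conj M).toMonoidHom =
      (Subgroup.closure {J, K}).map (Matrix.GeneralLinearGroup.map (Int.castRingHom (ZMod m)))) :
    False := by
  have hpI : Prime (p : ℤ) := Nat.prime_iff_prime_int.mp hp
  have hfin : FiniteMultiplicity (p : ℤ) m :=
    Int.finiteMultiplicity_iff.mpr ⟨by simpa using hp.ne_one, hm⟩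
  obtain ⟨m₁, hm₁, hnd⟩ := hfin.exists_eq_pow_mul_and_not_dvd
  set k := multiplicity (p : ℤ) m with hk
  have hp2' : ¬ (p : ℤ) ∣ 2 := by
    intro h2
    have : p ∣ 2 := by exact_mod_cast h2
    exact hp2 ((Nat.prime_dvd_prime_iff_eq hp Nat.prime_two).mp this)
  have hap : ¬ (p : ℤ) ∣ a + 1 := by
    intro h3
    apply hp2'
    have := dvd_sub h3 ha
    rwa [show a + 1 - (a - 1) = 2 by ring] at this
  have hcop : IsCoprime ((p : ℤ) ^ (2 * k + 1)) (a + 1) :=
    IsCoprime.pow_left ((Prime.coprime_iff_not_dvd hpI).mpr hap)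
  have hdv : (p : ℤ) ^ (2 * k + 1) ∣ a - 1 := by
    apply hcop.dvd_of_dvd_mul_right
    refine ⟨m₁ ^ 2, ?_⟩
    have : (a - 1) * (a + 1) = p * m ^ 2 := by linarith
    rw [this, hm₁]
    ring
  have hq : ((p ^ (k + 1) : ℕ) : ℤ) ∣ a - 1 := by
    push_cast
    exact (pow_dvd_pow (p : ℤ) (by omega)).trans hdv
  have hqpm : ((p ^ (k + 1) : ℕ) : ℤ) ∣ p * m := by
    push_cast
    refine ⟨m₁, ?_⟩
    rw [hm₁]
    ring
  have haZ : ((a : ℤ) : ZMod (p ^ (k + 1))) = 1 := by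
    have := (ZMod.intCast_zmod_eq_zero_iff_dvd (a - 1) (p ^ (k + 1))).mpr hq
    push_cast at this
    exact sub_eq_zero.mp this
  have hpmZ : ((p * m : ℤ) : ZMod (p ^ (k + 1))) = 0 :=
    (ZMod.intCast_zmod_eq_zero_iff_dvd (p * m) (p ^ (k + 1))).mpr hqpm
  obtain ⟨M, hM⟩ := hLC (p ^ (k + 1)) (pow_pos hp.pos _)
  -- every image of `closure {J, K₂}` fixes `v = M⁻¹ e₁`
  have hfix : ∀ g ∈ Subgroup.closure {J, K₂},
      (Matrix.GeneralLinearGroup.map (Int.castRingHom (ZMod (p ^ (k + 1)))) g).val *ᵥ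
        ((M⁻¹).val *ᵥ ![1, 0]) = (M⁻¹).val *ᵥ ![1, 0] := by
    intro g hg
    have h1 : (MulAut.conj M).toMonoidHom
        (Matrix.GeneralLinearGroup.map (Int.castRingHom (ZMod (p ^ (k + 1)))) g) ∈
        (Subgroup.closure {J, K}).map
          (Matrix.GeneralLinearGroup.map (Int.castRingHom (ZMod (p ^ (k + 1))))) := by
      rw [← hM]
      exact Subgroup.mem_map_of_mem _ (Subgroup.mem_map_of_mem _ hg)
    obtain ⟨g', hg', he⟩ := h1
    have h2 := w2_fix (q := p ^ (k + 1)) a m p J K hJ hK haZ hpmZ g' hg'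
    rw [he] at h2
    have h3 : (M * Matrix.GeneralLinearGroup.map (Int.castRingHom (ZMod (p ^ (k + 1)))) g *
        M⁻¹).val *ᵥ ![1, 0] = ![1, 0] := h2
    have h4 := congrArg (fun w => (M⁻¹).val *ᵥ w) h3
    simp only [Matrix.mulVec_mulVec, ← Units.val_mul] at h4
    rw [show M⁻¹ * (M * Matrix.GeneralLinearGroup.map (Int.castRingHom (ZMod (p ^ (k + 1)))) g *
        M⁻¹) = Matrix.GeneralLinearGroup.map (Int.castRingHom (ZMod (p ^ (k + 1)))) g * M⁻¹ by
      group] at h4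
    rw [Matrix.mulVec_mulVec, ← Units.val_mul]
    exact h4
  set v : Fin 2 → ZMod (p ^ (k + 1)) := (M⁻¹).val *ᵥ ![1, 0] with hv
  have hMv : M.val *ᵥ v = ![1, 0] := by
    rw [hv, Matrix.mulVec_mulVec, ← Units.val_mul, mul_inv_cancel, Units.val_one,
      Matrix.one_mulVec]
  have hJv := hfix J (Subgroup.subset_closure (by simp))
  have hKv := hfix K₂ (Subgroup.subset_closure (by simp))
  have e1 : (2 : ZMod (p ^ (k + 1))) * v 1 = 0 := by
    have := congrFun hJv 1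
    simp [hJ, Matrix.GeneralLinearGroup.map, Matrix.mulVec, dotProduct] at this
    linear_combination -this
  have hu2 : IsUnit (2 : ZMod (p ^ (k + 1))) := by
    have : IsUnit ((2 : ℕ) : ZMod (p ^ (k + 1))) := by
      rw [ZMod.isUnit_iff_coprime]
      exact Nat.Coprime.pow_right _ ((Nat.coprime_primes Nat.prime_two hp).mpr (Ne.symm hp2))
    simpa using this
  have hv1 : v 1 = 0 := by
    rcases hu2 with ⟨u, hu⟩
    have : (u⁻¹ : (ZMod (p ^ (k + 1)))ˣ).val * (u.val * v 1) = 0 := by rw [hu, e1, mul_zero]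
    simpa using this
  have e2 : ((m : ℤ) : ZMod (p ^ (k + 1))) * v 0 = 0 := by
    have := congrFun hKv 1
    simp [hK₂, Matrix.GeneralLinearGroup.map, Matrix.mulVec, dotProduct, hv1] at this
    exact this
  obtain ⟨z, hz⟩ := ZMod.intCast_surjective (v 0)
  have hpz : (p : ℤ) ∣ z := by
    have h5 : ((m * z : ℤ) : ZMod (p ^ (k + 1))) = 0 := by
      push_cast
      rw [hz, e2]
    rw [ZMod.intCast_zmod_eq_zero_iff_dvd, hm₁] at h5
    push_cast at h5
    rw [pow_succ, mul_assoc] at h5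
    have h6 : (p : ℤ) ∣ m₁ * z :=
      Int.dvd_of_mul_dvd_mul_left (pow_ne_zero _ hpI.ne_zero) h5
    exact (hpI.dvd_or_dvd h6).resolve_left hnd
  obtain ⟨w, hw⟩ := hpz
  have hpk : ((p : ZMod (p ^ (k + 1))) ^ k) • v = 0 := by
    ext i
    fin_cases i
    · change (p : ZMod (p ^ (k + 1))) ^ k * v 0 = 0
      rw [← hz, hw]
      push_cast
      rw [← mul_assoc, ← pow_succ]
      have : ((p ^ (k + 1) : ℕ) : ZMod (p ^ (k + 1))) = 0 := ZMod.natCast_self _
      push_cast at this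
      rw [this, zero_mul]
    · change (p : ZMod (p ^ (k + 1))) ^ k * v 1 = 0
      rw [hv1, mul_zero]
  have h7 : ((p : ZMod (p ^ (k + 1))) ^ k) • (![1, 0] : Fin 2 → ZMod (p ^ (k + 1))) = 0 := by
    rw [← hMv, ← Matrix.mulVec_smul, hpk, Matrix.mulVec_zero]
  have h8 := congrFun h7 0
  simp at h8
  have h9 : ((p ^ k : ℕ) : ZMod (p ^ (k + 1))) = 0 := by
    push_cast
    exact h8
  rw [ZMod.natCast_eq_zero_iff] at h9
  exact absurd (Nat.pow_dvd_pow_iff_le_right hp.one_lt |>.mp h9) (by omega)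

end Pool.Agent.VFib
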