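import Pool.Agent.Lib.MP_305fdd_al.VFib.List
import Pool.Agent.Lib.MP_305fdd_al.VFib.Or
import Pool.Agent.Lib.MP_305fdd_al.VFib.Semi4
import Pool.Agent.Lib.MP_305fdd_al.VFib.W1
import Pool.Agent.Lib.MP_305fdd_al.VFib.W2
import Pool.Agent.Lib.MP_305fdd_al.VFib.V

/-!
# MP_305fdd_al, VFib: a family of rigid groups
-/

set_option autoImplicit false

namespace Pool.Agent.VFib

open Pool.Agent.MP_305fdd_al Pool.Agent.Lib.MP_305fdd_al Pool.Agent.F2X Pool.Agent.F8
  Pool.Agent.F8.HN

theorem det_mul' (X Y : GL (Fin 2) ℤ) : (X * Y).val.det = X.val.det * Y.val.det := by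
  rw [Units.val_mul, Matrix.det_mul]

theorem det_zpow {B : GL (Fin 2) ℤ} (hd : B.val.det = 1) (i : ℤ) : (B ^ i).val.det = 1 := by
  have h1 : Matrix.GeneralLinearGroup.det B = 1 := Units.ext hd
  have h2 : Matrix.GeneralLinearGroup.det (B ^ i) = 1 := by rw [map_zpow, h1, one_zpow]
  exact congrArg Units.val h2

/-- the index of the powers of the product of two involutions -/
theorem dih_index {J K : GL (Fin 2) ℤ} (hJ : J * J = 1) (hK : K * K = 1)
    (ht : 3 ≤ |(J * K).val.trace|) :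
    (Subgroup.zpowers (J * K)).relIndex (Subgroup.closure {J, K}) = 2 := by
  show ((Subgroup.zpowers (J * K)).subgroupOf (Subgroup.closure {J, K})).index = 2
  rw [Subgroup.index_eq_two_iff]
  have hJD : J ∈ Subgroup.closure ({J, K} : Set (GL (Fin 2) ℤ)) :=
    Subgroup.subset_closure (by simp)
  have hc : ∀ i : ℤ, (J * K) ^ i * J = J * (J * K) ^ (-i) := by
    intro i
    have h1 := inv_conj hJ hK (-i)
    rw [neg_neg] at h1
    rw [← h1, inv_mul_cancel_right]
  refine ⟨⟨J, hJD⟩, fun b => ?_⟩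
  obtain ⟨i, hi | hi⟩ := mem_dih hJ hK b.2
  · refine Or.inr ⟨?_, ?_⟩
    · rw [Subgroup.mem_subgroupOf]
      exact Subgroup.mem_zpowers_iff.2 ⟨i, hi.symm⟩
    · rw [Subgroup.mem_subgroupOf]
      intro h
      obtain ⟨k, hk⟩ := Subgroup.mem_zpowers_iff.1 h
      have h2 : (J * K) ^ k = (b : GL (Fin 2) ℤ) * J := hk
      rw [hi, hc] at h2
      exact inv_notMem hJ hK ht _ _ h2.symm
  · refine Or.inl ⟨?_, ?_⟩
    · rw [Subgroup.mem_subgroupOf]
      refine Subgroup.mem_zpowers_iff.2 ⟨-i, ?_⟩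
      show (J * K) ^ (-i) = (b : GL (Fin 2) ℤ) * J
      rw [hi, mul_assoc, hc, ← mul_assoc, hJ, one_mul]
    · rw [Subgroup.mem_subgroupOf]
      intro h
      obtain ⟨k, hk⟩ := Subgroup.mem_zpowers_iff.1 h
      rw [hi] at hk
      exact inv_notMem hJ hK ht _ _ hk.symm

theorem dih_conj {J K : GL (Fin 2) ℤ} (hJ : J * J = 1) (hK : K * K = 1) (hJd : J.val.det = -1)
    (hd : (J * K).val.det = 1) {X : GL (Fin 2) ℤ} (hX : X ∈ Subgroup.closure {J, K}) :
    (X.val.det = 1 ∧ X * (J * K) * X⁻¹ = J * K) ∨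
      (X.val.det = -1 ∧ X * (J * K) * X⁻¹ = (J * K)⁻¹) := by
  have key : ∀ (C : GL (Fin 2) ℤ) (i : ℤ), C ^ i * C * (C ^ i)⁻¹ = C := fun C i => by group
  obtain ⟨i, rfl | rfl⟩ := mem_dih hJ hK hX
  · left
    exact ⟨det_zpow hd i, key _ i⟩
  · right
    refine ⟨by rw [det_mul', hJd, det_zpow hd, mul_one], ?_⟩
    have h1 : J * (J * K) ^ i * (J * K) * (J * (J * K) ^ i)⁻¹ = J * (J * K) ^ (1 : ℤ) * J⁻¹ := by
      rw [zpow_one, mul_inv_rev]
      have h2 : (J * K) ^ i * (J * K) * ((J * K) ^ i)⁻¹ = J * K := key _ i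
      calc J * (J * K) ^ i * (J * K) * (((J * K) ^ i)⁻¹ * J⁻¹)
          = J * ((J * K) ^ i * (J * K) * ((J * K) ^ i)⁻¹) * J⁻¹ := by simp only [mul_assoc]
        _ = _ := by rw [h2]
    rw [h1, inv_conj hJ hK, zpow_neg, zpow_one]

theorem fam_basic (p : ℕ) (hp : p.Prime) (a m : ℤ) (h : a ^ 2 - p * m ^ 2 = 1)
    (hm : m ≠ 0) (J K : GL (Fin 2) ℤ)
    (hJ : J.val = !![1, 0; 0, -1]) (hK : K.val = !![a, m; -(p * m), -a]) :
    J * J = 1 ∧ K * K = 1 ∧ (J * K).val = !![a, m; p * m, a] ∧ J.val.det = -1 ∧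
      (J * K).val.det = 1 ∧ (J * K).val.trace = 2 * a ∧ 3 ≤ |(J * K).val.trace| := by
  have hJJ : J * J = 1 := by
    apply Units.ext
    rw [Units.val_mul, hJ, Units.val_one, Matrix.mul_fin_two, Matrix.one_fin_two]
    simp
  have hKK : K * K = 1 := by
    apply Units.ext
    rw [Units.val_mul, hK, Units.val_one, Matrix.mul_fin_two, Matrix.one_fin_two]
    have e1 : a * a + m * -(p * m) = 1 := by linarith
    have e2 : a * m + m * -a = 0 := by ring
    have e3 : -(p * m) * a + -a * -(p * m) = 0 := by ring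
    have e4 : -(p * m) * m + -a * -a = 1 := by linarith
    rw [e1, e2, e3, e4]
  have hJK : (J * K).val = !![a, m; p * m, a] := by
    rw [Units.val_mul, hJ, hK, Matrix.mul_fin_two]
    simp
  have hJd : J.val.det = -1 := by
    rw [hJ, Matrix.det_fin_two_of]
    norm_num
  have hd : (J * K).val.det = 1 := by
    rw [hJK, Matrix.det_fin_two_of]
    linarith
  have ht : (J * K).val.trace = 2 * a := by
    rw [hJK, Matrix.trace_fin_two_of]
    ring
  have habs : 3 ≤ |2 * a| := by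
    have hp3 : (2 : ℤ) ≤ p := by exact_mod_cast hp.two_le
    have hm2 : 1 ≤ m ^ 2 := by
      have : 0 < m ^ 2 := by positivity
      linarith
    have h4 : 3 ≤ a ^ 2 := by nlinarith
    by_contra hlt
    rw [not_le] at hlt
    have h5 : |a| < 2 := by
      rw [abs_mul] at hlt
      norm_num at hlt
      linarith [abs_nonneg a]
    have h6 : |a| ≤ 1 := by linarith [h5]
    have h7 : a ^ 2 ≤ 1 := by
      rw [← sq_abs]
      nlinarith [abs_nonneg a]
    linarith
  have habs' : 3 ≤ |(J * K).val.trace| := by rw [ht]; exact habs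
  exact ⟨hJJ, hKK, hJK, hJd, hd, ht, habs'⟩

/-- the groups which are locally conjugate to the group of the family are conjugate to it -/
theorem fam_unique (p : ℕ) (hp : p.Prime) (hp2 : p ≠ 2) (a m : ℤ) (h : a ^ 2 - p * m ^ 2 = 1)
    (hm : m ≠ 0) (h2m : (2 : ℤ) ∣ m) (ha : (p : ℤ) ∣ a - 1) (J K : GL (Fin 2) ℤ)
    (hJ : J.val = !![1, 0; 0, -1]) (hK : K.val = !![a, m; -(p * m), -a])
    {D' : Subgroup (GL (Fin 2) ℤ)} {B' : GL (Fin 2) ℤ} (hB' : B' ∈ D') (hd' : B'.val.det = 1)
    (ht' : B'.val.trace = 2 * a) (hc' : LF.cont B'.val = m.natAbs)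
    (hi' : (Subgroup.zpowers B').relIndex D' = 2)
    (hLC : LC D' (Subgroup.closure {J, K})) :
    ∃ X : GL (Fin 2) ℤ, D'.map (MulAut.conj X).toMonoidHom = Subgroup.closure {J, K} := by
  obtain ⟨hJJ, hKK, hJK, hJd, hd, ht, habs'⟩ := fam_basic p hp a m h hm J K hJ hK
  have habs : 3 ≤ |2 * a| := by rw [← ht]; exact habs'
  have hJD : J ∈ Subgroup.closure ({J, K} : Set (GL (Fin 2) ℤ)) :=
    Subgroup.subset_closure (by simp)
  have hKD : K ∈ Subgroup.closure ({J, K} : Set (GL (Fin 2) ℤ)) :=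
    Subgroup.subset_closure (by simp)
  have hBD : J * K ∈ Subgroup.closure ({J, K} : Set (GL (Fin 2) ℤ)) := mul_mem hJD hKD
  have ht'' : 3 ≤ |B'.val.trace| := by rw [ht']; exact habs
  have hiN' : (Subgroup.zpowers B').relIndex D' ≠ 0 := by rw [hi']; norm_num
  have hB2 : (J * K)⁻¹ ≠ J * K := by
    intro h1
    have h2 := hyp_zinj hd habs' (k := -1) (l := 1) (by rw [zpow_neg, zpow_one, h1])
    norm_num at h2
  have hB2' : B'⁻¹ ≠ B' := by
    intro h1
    have h2 := hyp_zinj hd' ht'' (k := -1) (l := 1) (by rw [zpow_neg, zpow_one, h1])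
    norm_num at h2
  have hO' := orient hBD hB' hd habs' hd' ht''
    (fun X hX => by
      rcases dih_conj hJJ hKK hJd hd hX with ⟨-, h1⟩ | ⟨-, h1⟩
      · exact Or.inl h1
      · exact Or.inr h1)
    (fun X hX => conj_hyp hd' ht'' hB' hiN' hX) hLC
    (fun X hX => by
      rcases dih_conj hJJ hKK hJd hd hX with ⟨h1, h2⟩ | ⟨h1, h2⟩
      · exact ⟨fun _ => h2, fun _ => h1⟩
      · constructor
        · intro h3
          rw [h1] at h3
          norm_num at h3
        · intro h3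
          rw [h2] at h3
          exact absurd h3 hB2)
  -- an element of `D'` with determinant `-1`
  obtain ⟨X, hX, hXd⟩ : ∃ X ∈ D', X.val.det = -1 := by
    obtain ⟨M, hM⟩ := hLC 3 (by norm_num)
    have h1 : F2X.red 3 J ∈ (D'.map (F2X.red 3)).map (MulAut.conj M).toMonoidHom := by
      rw [hM]
      exact ⟨J, hJD, rfl⟩
    obtain ⟨_, ⟨X, hX, rfl⟩, h2⟩ := h1
    refine ⟨X, hX, ?_⟩
    have h3 : M * F2X.red 3 X * M⁻¹ = F2X.red 3 J := h2
    have h4 : Matrix.GeneralLinearGroup.det (F2X.red 3 X) =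
        Matrix.GeneralLinearGroup.det (F2X.red 3 J) := by
      rw [← h3, map_mul, map_mul, map_inv]
      rw [mul_comm, inv_mul_cancel_left]
    have h5 : ∀ Y : GL (Fin 2) ℤ, (Matrix.GeneralLinearGroup.det (F2X.red 3 Y)).val =
        ((Y.val.det : ℤ) : ZMod 3) := by
      intro Y
      show ((Int.castRingHom (ZMod 3)).mapMatrix Y.val).det = _
      rw [← RingHom.map_det]
      rfl
    have h6 := congrArg Units.val h4
    rw [h5, h5, hJd] at h6
    rcases LF.det_cases X with ⟨h7, -⟩ | ⟨h7, -⟩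
    · rw [h7] at h6
      exact absurd h6 (by decide)
    · exact h7
  have hXB : X * B' * X⁻¹ = B'⁻¹ := by
    rcases conj_hyp hd' ht'' hB' hiN' hX with h1 | h1
    · have h2 := (hO' X hX).2 h1
      rw [hXd] at h2
      norm_num at h2
    · exact h1
  obtain ⟨J', K', hJ', hK', hJK', hD'⟩ := dih_of hB' hd' ht'' hi' hX hXd hXB
  obtain ⟨i, Y, J'', hU, hYJ, hK'', htr⟩ := nf_pair hJ' (by rw [hJK']; exact ht'') hK'
  obtain ⟨L, hL⟩ : ∃ L, L = Y * K' * Y⁻¹ := ⟨_, rfl⟩
  rw [← hL] at hK'' htr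
  have hDY : D'.map (MulAut.conj Y).toMonoidHom = Subgroup.closure {J'', L} := by
    rw [hD', closure_conj, hYJ, hL]
  have hLC2 : LC (Subgroup.closure {J'', L}) (Subgroup.closure {J, K}) := by
    rw [← hDY]
    exact hLC.conj Y
  -- modulo two
  have hi2 : i = true := by
    cases i with
    | true => rfl
    | false =>
      exfalso
      obtain ⟨M, hM⟩ := hLC2 2 (by norm_num)
      have hone : ∀ Z ∈ Subgroup.closure ({J, K} : Set (GL (Fin 2) ℤ)), F2X.red 2 Z = 1 := by
        have hle : Subgroup.closure ({J, K} : Set (GL (Fin 2) ℤ)) ≤ (F2X.red 2).ker := by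
          rw [Subgroup.closure_le]
          rintro Z (rfl | rfl)
          · show F2X.red 2 Z = 1
            apply Units.ext
            show (Int.castRingHom (ZMod 2)).mapMatrix Z.val = 1
            rw [hJ]
            decide
          · show F2X.red 2 Z = 1
            apply Units.ext
            show (Int.castRingHom (ZMod 2)).mapMatrix Z.val = 1
            obtain ⟨n, hn⟩ := h2m
            have hm0 : ((m : ℤ) : ZMod 2) = 0 := (ZMod.intCast_zmod_eq_zero_iff_dvd m 2).2 ⟨n, hn⟩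
            have ha1 : ((a : ℤ) : ZMod 2) = 1 := by
              have h1 : (((a ^ 2 - p * m ^ 2 : ℤ)) : ZMod 2) = 1 := by rw [h]; rfl
              push_cast at h1
              rw [hm0] at h1
              have h2 : ∀ z : ZMod 2, z ^ 2 - (p : ZMod 2) * 0 ^ 2 = 1 → z = 1 := by
                intro z hz
                rw [zero_pow (by norm_num), mul_zero, sub_zero] at hz
                revert hz
                revert z
                decide
              exact h2 _ h1
            rw [hK]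
            ext r s
            fin_cases r <;> fin_cases s
            · show ((a : ℤ) : ZMod 2) = 1
              exact ha1
            · show ((m : ℤ) : ZMod 2) = 0
              exact hm0
            · show ((-(p * m) : ℤ) : ZMod 2) = 0
              push_cast
              rw [hm0]
              simp
            · show ((-a : ℤ) : ZMod 2) = 1
              push_cast
              rw [ha1]
              decide
        exact fun Z hZ => hle hZ
      have h1 : M * F2X.red 2 J'' * M⁻¹ ∈ (Subgroup.closure ({J, K} : Set (GL (Fin 2) ℤ))).map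
          (F2X.red 2) := by
        rw [← hM]
        exact ⟨F2X.red 2 J'', ⟨J'', Subgroup.subset_closure (by simp), rfl⟩, rfl⟩
      obtain ⟨Z, hZ, hZ2⟩ := h1
      rw [hone Z hZ] at hZ2
      have h2 : F2X.red 2 J'' = 1 := by
        have h3 : F2X.red 2 J'' = M⁻¹ * (M * F2X.red 2 J'' * M⁻¹) * M := by group
        rw [h3, ← hZ2]
        group
      have h3 := congrArg Units.val h2
      have h4 : (Int.castRingHom (ZMod 2)).mapMatrix J''.val = 1 := h3
      rw [hU] at h4
      revert h4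
      decide
  subst hi2
  have hJ2 : J'' = J := by
    apply Units.ext
    rw [hU, hJ]
    rfl
  rw [hJ2] at hDY hLC2
  have hLne : L.val 0 1 ≠ -L.val 1 0 ∨ L.val 0 0 ≠ L.val 1 1 := by
    right
    intro h1
    rw [U_trace] at htr
    rw [if_pos rfl, h1, sub_self, hJK', ht'] at htr
    rw [← htr] at habs
    norm_num at habs
  obtain ⟨hL1, hL2⟩ := inv_entries hK'' hLne
  have hLa : L.val 0 0 = a := by
    rw [U_trace, if_pos rfl, hL1, hJK', ht'] at htr
    linarith
  have hLb : a ^ 2 + L.val 0 1 * L.val 1 0 = 1 := by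
    rw [hLa] at hL2
    linarith
  have hJL : (J * L).val = !![a, L.val 0 1; -L.val 1 0, a] := by
    have h1 : L.val = !![a, L.val 0 1; L.val 1 0, -a] := by
      rw [← hLa, ← hL1]
      exact Matrix.eta_fin_two _
    rw [Units.val_mul, hJ]
    conv_lhs => rw [h1]
    rw [Matrix.mul_fin_two]
    simp
  have hcont : Int.gcd (L.val 0 1) (L.val 1 0) = m.natAbs := by
    have h1 : J * L = Y * B' * Y⁻¹ := by
      rw [← hJK', ← hJ2, ← hYJ, hL]
      group
    rw [← hc', ← cont_conj Y B', ← h1, hJL]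
    show _ = Nat.gcd (Int.gcd (L.val 0 1) (-L.val 1 0)) (Int.natAbs (a - a))
    rw [sub_self, Int.natAbs_zero, Nat.gcd_zero_right, Int.gcd_neg]
  have hLval : L.val = !![a, L.val 0 1; L.val 1 0, -a] := by
    rw [← hLa, ← hL1]
    exact Matrix.eta_fin_two _
  -- conjugation with `J`
  have hconjJ : ∀ b c : ℤ, L.val 0 1 = b → L.val 1 0 = c →
      (J * L * J⁻¹).val = !![a, -b; -c, -a] := by
    intro b c hb hc
    have hJi : J⁻¹ = J := inv_eq_of_mul_eq_one_left hJJ
    rw [hJi, Units.val_mul, hJL, hJ, Matrix.mul_fin_two, hb, hc]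
    simp
  have hmapJ : (Subgroup.closure ({J, L} : Set (GL (Fin 2) ℤ))).map
      (MulAut.conj J).toMonoidHom = Subgroup.closure {J, J * L * J⁻¹} := by
    rw [closure_conj, mul_inv_cancel_right]
  have hDJY : D'.map (MulAut.conj (J * Y)).toMonoidHom = Subgroup.closure {J, J * L * J⁻¹} := by
    rw [← hmapJ, ← hDY, Subgroup.map_map]
    congr 1
    ext Z : 1
    show J * Y * Z * (J * Y)⁻¹ = J * (Y * Z * Y⁻¹) * J⁻¹
    group
  rcases w_fact p hp a m _ _ h hm hLb hcont with ⟨h1, h2⟩ | ⟨h1, h2⟩ | ⟨h1, h2⟩ | ⟨h1, h2⟩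
  · refine ⟨Y, ?_⟩
    rw [hDY]
    have h3 : L = K := by
      apply Units.ext
      rw [hLval, h1, h2, hK]
    rw [h3]
  · refine ⟨J * Y, ?_⟩
    rw [hDJY]
    have h3 : J * L * J⁻¹ = K := by
      apply Units.ext
      rw [hconjJ _ _ h1 h2, hK, neg_neg]
    rw [h3]
  · exfalso
    exact w_excl p hp hp2 a m h hm ha J K L hJ hK (by rw [hLval, h1, h2]) hLC2
  · exfalso
    have hLC3 : LC (Subgroup.closure {J, J * L * J⁻¹}) (Subgroup.closure {J, K}) := by
      rw [← hmapJ]
      exact hLC2.conj J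
    exact w_excl p hp hp2 a m h hm ha J K (J * L * J⁻¹) hJ hK
      (by rw [hconjJ _ _ h1 h2, neg_neg]) hLC3

/-- the groups of the family are rigid -/
theorem fam_rigid (p : ℕ) (hp : p.Prime) (hp2 : p ≠ 2) (a m : ℤ) (h : a ^ 2 - p * m ^ 2 = 1)
    (hm : m ≠ 0) (h2m : (2 : ℤ) ∣ m) (ha : (p : ℤ) ∣ a - 1) (J K : GL (Fin 2) ℤ)
    (hJ : J.val = !![1, 0; 0, -1]) (hK : K.val = !![a, m; -(p * m), -a])
    (Λ : Type) [Group Λ] (hfp : Group.IsFinitelyPresented Λ) (hΛ : LF.LERF Λ)
    (hs : SameFiniteQuotients Λ (Pre (Subgroup.closure {J, K}))) :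
    Nonempty (Λ ≃* Pre (Subgroup.closure {J, K})) := by
  obtain ⟨hJJ, hKK, hJK, -, hd, ht, habs⟩ := fam_basic p hp a m h hm J K hJ hK
  have hBD : J * K ∈ Subgroup.closure ({J, K} : Set (GL (Fin 2) ℤ)) :=
    mul_mem (Subgroup.subset_closure (by simp)) (Subgroup.subset_closure (by simp))
  have hi := dih_index hJJ hKK habs
  obtain ⟨D', B', k1, k2, k3, k4, k5, k6, ⟨e⟩⟩ := lamD hBD hd habs (by rw [hi]; norm_num) Λ hfp hΛ hs
  have hc : LF.cont (J * K).val = m.natAbs := by
    rw [hJK]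
    show Nat.gcd (Int.gcd m (p * m)) (Int.natAbs (a - a)) = _
    rw [sub_self, Int.natAbs_zero, Nat.gcd_zero_right,
      Int.gcd_eq_natAbs_left (Dvd.intro_left (p : ℤ) rfl)]
  obtain ⟨X, hX⟩ := fam_unique p hp hp2 a m h hm h2m ha J K hJ hK k1 k2 (by rw [k3, ht])
    (by rw [k4, hc]) (by rw [k5, hi]) k6
  obtain ⟨e'⟩ := pre_conj X hX
  exact ⟨e.trans e'⟩

end Pool.Agent.VFib
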