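import Mathlib

set_option autoImplicit false

namespace Pool.Agent.VFib

/-- A vector fixed by the generators is fixed by the subgroup they generate. -/
private theorem g1_fix {Q : ℕ} (S : Set (GL (Fin 2) ℤ)) (w : Fin 2 → ZMod Q)
    (h : ∀ X ∈ S, ((X.val).map (Int.castRingHom (ZMod Q))).mulVec w = w) :
    ∀ X ∈ Subgroup.closure S, ((X.val).map (Int.castRingHom (ZMod Q))).mulVec w = w := by
  intro X hX
  induction hX using Subgroup.closure_induction with
  | mem x hx => exact h x hx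
  | one => simp
  | mul x y _ _ hx hy =>
    rw [Units.val_mul, Matrix.map_mul, ← Matrix.mulVec_mulVec, hy, hx]
  | inv x _ hx =>
    have h1 : ((x⁻¹ : GL (Fin 2) ℤ).val.map (Int.castRingHom (ZMod Q))) *
        (x.val.map (Int.castRingHom (ZMod Q))) = 1 := by
      rw [← Matrix.map_mul, ← Units.val_mul, inv_mul_cancel, Units.val_one]
      simp
    calc _ = ((x⁻¹ : GL (Fin 2) ℤ).val.map (Int.castRingHom (ZMod Q))).mulVec
          ((x.val.map (Int.castRingHom (ZMod Q))).mulVec w) := by rw [hx]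
      _ = w := by rw [Matrix.mulVec_mulVec, h1, Matrix.one_mulVec]

/-- The arithmetic: `a = 1` modulo `q ^ (k + 1)`. -/
private theorem g1_arith {q : ℕ} (hq : q.Prime) (hq2 : q ≠ 2) {a m u v : ℤ}
    (h : a ^ 2 - u * v * m ^ 2 = 1) (hm : m ≠ 0) (ha : (q : ℤ) ∣ a - 1) (hv : (q : ℤ) ∣ v) :
    ∃ (k : ℕ) (m₁ : ℤ), m = (q : ℤ) ^ k * m₁ ∧ ¬ (q : ℤ) ∣ m₁ ∧ (q : ℤ) ^ (k + 1) ∣ a - 1 := by
  have hfin : FiniteMultiplicity (q : ℤ) m := by
    rw [Int.finiteMultiplicity_iff]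
    refine ⟨?_, hm⟩
    rw [Int.natAbs_natCast]
    exact hq.one_lt.ne'
  obtain ⟨m₁, h1, h2⟩ := hfin.exists_eq_pow_mul_and_not_dvd
  refine ⟨multiplicity (q : ℤ) m, m₁, h1, h2, ?_⟩
  set k := multiplicity (q : ℤ) m with hk
  have hqi : Prime (q : ℤ) := Nat.prime_iff_prime_int.mp hq
  have h3 : ¬ (q : ℤ) ∣ a + 1 := by
    intro h3
    have h4 : (q : ℤ) ∣ 2 := by
      have := dvd_sub h3 ha
      have e : a + 1 - (a - 1) = 2 := by ring
      rwa [e] at this
    have h5 : q ∣ 2 := by exact_mod_cast h4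
    exact hq2 ((Nat.prime_dvd_prime_iff_eq hq Nat.prime_two).mp h5)
  have h4 : (q : ℤ) ^ (2 * k + 1) ∣ (a - 1) * (a + 1) := by
    obtain ⟨y, hy⟩ := hv
    refine ⟨u * y * m₁ ^ 2, ?_⟩
    have e : (a - 1) * (a + 1) = u * v * m ^ 2 := by linear_combination h
    rw [e, h1, hy]
    ring
  have hcop : IsCoprime ((q : ℤ) ^ (2 * k + 1)) (a + 1) :=
    ((Prime.coprime_iff_not_dvd hqi).mpr h3).pow_left
  have h5 := hcop.dvd_of_dvd_mul_right h4
  exact (pow_dvd_pow (q : ℤ) (by omega)).trans h5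

theorem g_excl (q : ℕ) (hq : q.Prime) (hq2 : q ≠ 2) (a m u v u' v' : ℤ)
    (h : a ^ 2 - u * v * m ^ 2 = 1) (hm : m ≠ 0) (ha : (q : ℤ) ∣ a - 1) (hv : (q : ℤ) ∣ v)
    (hu' : (q : ℤ) ∣ u') (hv' : ¬ (q : ℤ) ∣ v') (J K K₂ : GL (Fin 2) ℤ)
    (hJ : J.val = !![1, 0; 0, -1]) (hK : K.val = !![a, m * u; -(m * v), -a])
    (hK₂ : K₂.val = !![a, m * u'; -(m * v'), -a])
    (hLC : ∀ m : ℕ, 0 < m → ∃ M : GL (Fin 2) (ZMod m),
      ((Subgroup.closure {J, K₂}).map
        (Matrix.GeneralLinearGroup.map (Int.castRingHom (ZMod m)))).map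
          (MulAut.conj M).toMonoidHom =
      (Subgroup.closure {J, K}).map (Matrix.GeneralLinearGroup.map (Int.castRingHom (ZMod m)))) :
    False := by
  obtain ⟨k, m₁, hm1, hnd, hq1⟩ := g1_arith hq hq2 h hm ha hv
  have hqi : Prime (q : ℤ) := Nat.prime_iff_prime_int.mp hq
  obtain ⟨Q, hQ⟩ : ∃ Q : ℕ, Q = q ^ (k + 1) := ⟨_, rfl⟩
  have hQz : (Q : ℤ) = (q : ℤ) ^ (k + 1) := by rw [hQ]; push_cast; rfl
  have hQ0 : 0 < Q := by rw [hQ]; exact Nat.pow_pos hq.pos
  have ha1 : ((a : ℤ) : ZMod Q) = 1 := by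
    have h1 : ((a - 1 : ℤ) : ZMod Q) = 0 := by
      rw [ZMod.intCast_zmod_eq_zero_iff_dvd, hQz]
      exact hq1
    push_cast at h1
    linear_combination h1
  have hmv0 : ((m : ZMod Q) * (v : ZMod Q)) = 0 := by
    have h1 : ((m * v : ℤ) : ZMod Q) = 0 := by
      rw [ZMod.intCast_zmod_eq_zero_iff_dvd, hQz, hm1]
      obtain ⟨y, hy⟩ := hv
      exact ⟨m₁ * y, by rw [hy]; ring⟩
    push_cast at h1
    exact h1
  obtain ⟨M, hM⟩ := hLC Q hQ0
  -- the first coordinate vector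
  have hfix := g1_fix (Q := Q) {J, K} ![1, 0] (by
    intro X hX
    rcases hX with rfl | hX
    · rw [hJ]
      ext i
      fin_cases i <;> simp [Matrix.mulVec, dotProduct, Fin.sum_univ_two]
    · rw [Set.mem_singleton_iff] at hX
      rw [hX, hK]
      ext i
      fin_cases i
      · simp [Matrix.mulVec, dotProduct, Fin.sum_univ_two, ha1]
      · simp [Matrix.mulVec, dotProduct, Fin.sum_univ_two, hmv0])
  obtain ⟨w, hw⟩ : ∃ w : Fin 2 → ZMod Q, w = (M⁻¹ : GL (Fin 2) (ZMod Q)).val.mulVec ![1, 0] :=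
    ⟨_, rfl⟩
  have hMw : M.val.mulVec w = ![1, 0] := by
    rw [hw, Matrix.mulVec_mulVec, ← Units.val_mul, mul_inv_cancel, Units.val_one, Matrix.one_mulVec]
  have tr : ∀ Y ∈ Subgroup.closure {J, K₂},
      ((Y.val).map (Int.castRingHom (ZMod Q))).mulVec w = w := by
    intro Y hY
    have h1 : M * Matrix.GeneralLinearGroup.map (Int.castRingHom (ZMod Q)) Y * M⁻¹ ∈
        ((Subgroup.closure {J, K₂}).map
          (Matrix.GeneralLinearGroup.map (Int.castRingHom (ZMod Q)))).map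
          (MulAut.conj M).toMonoidHom := ⟨_, ⟨Y, hY, rfl⟩, rfl⟩
    rw [hM] at h1
    obtain ⟨X, hX, hX1⟩ := h1
    have h2 : Matrix.GeneralLinearGroup.map (Int.castRingHom (ZMod Q)) Y * M⁻¹ =
        M⁻¹ * Matrix.GeneralLinearGroup.map (Int.castRingHom (ZMod Q)) X := by
      rw [hX1]
      group
    have h3 := congrArg (fun z : GL (Fin 2) (ZMod Q) => z.val.mulVec ![1, 0]) h2
    simp only [Units.val_mul, ← Matrix.mulVec_mulVec] at h3
    rw [← hw] at h3
    have h4 : (Matrix.GeneralLinearGroup.map (Int.castRingHom (ZMod Q)) X).val.mulVec ![1, 0] =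
        ![1, 0] := hfix X hX
    rw [h4, ← hw] at h3
    exact h3
  have hJw := tr J (Subgroup.subset_closure (Set.mem_insert _ _))
  have hKw := tr K₂ (Subgroup.subset_closure (Set.mem_insert_of_mem _ rfl))
  rw [hJ] at hJw
  rw [hK₂] at hKw
  have h1 := congrFun hJw 1
  have h2 := congrFun hKw 1
  simp [Matrix.mulVec, dotProduct, Fin.sum_univ_two] at h1 h2
  have hunit : IsUnit (2 : ZMod Q) := by
    have h3 : Nat.Coprime 2 Q := by
      rw [hQ]
      exact Nat.Coprime.pow_right _ ((Nat.coprime_primes Nat.prime_two hq).mpr (Ne.symm hq2))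
    have := (ZMod.isUnit_iff_coprime 2 Q).mpr h3
    simpa using this
  have hw1 : w 1 = 0 := by
    have h3 : (2 : ZMod Q) * w 1 = 0 := by linear_combination -h1
    exact (hunit.mul_right_eq_zero).mp h3
  rw [hw1] at h2
  have hmw : (m : ZMod Q) * (v' : ZMod Q) * w 0 = 0 := by linear_combination -h2
  -- divisibility of the first coordinate
  have hpw : ((q : ZMod Q)) ^ k * w 0 = 0 := by
    obtain ⟨x, hx⟩ : ∃ x : ℤ, ((x : ℤ) : ZMod Q) = w 0 := ZMod.intCast_surjective (w 0)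
    rw [← hx] at hmw ⊢
    have h3 : ((m * v' * x : ℤ) : ZMod Q) = 0 := by push_cast; exact hmw
    rw [ZMod.intCast_zmod_eq_zero_iff_dvd, hQz, hm1, pow_succ, mul_assoc, mul_assoc] at h3
    have h4 : (q : ℤ) ∣ m₁ * (v' * x) :=
      (mul_dvd_mul_iff_left (pow_ne_zero k hqi.ne_zero)).mp h3
    have h5 : (q : ℤ) ∣ x :=
      (hqi.dvd_or_dvd ((hqi.dvd_or_dvd h4).resolve_left hnd)).resolve_left hv'
    have h6 : (((q : ℤ) ^ k * x : ℤ) : ZMod Q) = 0 := by
      rw [ZMod.intCast_zmod_eq_zero_iff_dvd, hQz, pow_succ]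
      exact mul_dvd_mul_left _ h5
    push_cast at h6
    exact h6
  have hz : ((q : ZMod Q)) ^ k • w = 0 := by
    ext i
    fin_cases i
    · simpa using hpw
    · simp [hw1]
  have h7 : ((q : ZMod Q)) ^ k • (![1, 0] : Fin 2 → ZMod Q) = 0 := by
    rw [← hMw, ← Matrix.mulVec_smul, hz, Matrix.mulVec_zero]
  have h8 : ((q : ZMod Q)) ^ k = 0 := by
    have := congrFun h7 0
    simpa using this
  have h9 : ((q ^ k : ℕ) : ZMod Q) = 0 := by push_cast; exact h8
  rw [ZMod.natCast_eq_zero_iff, hQ] at h9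
  have h10 := Nat.le_of_dvd (Nat.pow_pos hq.pos) h9
  have h11 : q ^ k < q ^ (k + 1) := Nat.pow_lt_pow_right hq.one_lt (by omega)
  omega

end Pool.Agent.VFib
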