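import Mathlib

set_option autoImplicit false

namespace Pool.Agent.VFib

private lemma cop_of (b v : ℤ) (h0 : v ≠ 0)
    (h1 : ∀ q : ℕ, q.Prime → (q : ℤ) ∣ v → ¬ (q : ℤ) ∣ b) : IsCoprime b v := by
  rw [Int.isCoprime_iff_gcd_eq_one]
  by_contra hne
  obtain ⟨q, hq, hqd⟩ := Nat.exists_prime_and_dvd hne
  have hq' : (q : ℤ) ∣ (Int.gcd b v : ℤ) := by exact_mod_cast hqd
  exact h1 q hq (hq'.trans (Int.gcd_dvd_right _ _)) (hq'.trans (Int.gcd_dvd_left _ _))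

theorem g_fact (u v a m b c : ℤ) (h : a ^ 2 - u * v * m ^ 2 = 1) (hm : m ≠ 0)
    (h1 : a ^ 2 + b * c = 1) (h2 : Int.gcd b c = m.natAbs) :
    ∃ b₁ c₁ : ℤ, b = m * b₁ ∧ c = -(m * c₁) ∧ b₁ * c₁ = u * v ∧ IsCoprime b₁ c₁ := by
  have hmb : m ∣ b := by
    have : (Int.gcd b c : ℤ) ∣ b := Int.gcd_dvd_left _ _
    rw [h2] at this
    exact Int.natAbs_dvd.1 this
  have hmc : m ∣ c := by
    have : (Int.gcd b c : ℤ) ∣ c := Int.gcd_dvd_right _ _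
    rw [h2] at this
    exact Int.natAbs_dvd.1 this
  obtain ⟨b₁, rfl⟩ := hmb
  obtain ⟨c₁, rfl⟩ := hmc
  refine ⟨b₁, -c₁, rfl, by ring, ?_, ?_⟩
  · have h3 : m ^ 2 * (b₁ * -c₁) = m ^ 2 * (u * v) := by linarith [h, h1]
    exact mul_left_cancel₀ (pow_ne_zero 2 hm) h3
  · rw [Int.gcd_mul_left] at h2
    have hm' : 0 < m.natAbs := Int.natAbs_pos.2 hm
    have h3 : Int.gcd b₁ c₁ = 1 := by
      have : m.natAbs * Int.gcd b₁ c₁ = m.natAbs * 1 := by rw [mul_one]; exact h2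
      exact Nat.eq_of_mul_eq_mul_left hm' this
    exact (Int.isCoprime_iff_gcd_eq_one.2 h3).neg_right

theorem g_fin (u v b₁ c₁ : ℤ) (huv : IsCoprime u v) (hbc : IsCoprime b₁ c₁)
    (h : b₁ * c₁ = u * v) (h0 : u * v ≠ 0)
    (h1 : ∀ q : ℕ, q.Prime → (q : ℤ) ∣ v → ¬ (q : ℤ) ∣ b₁)
    (h2 : ∀ q : ℕ, q.Prime → (q : ℤ) ∣ u → ¬ (q : ℤ) ∣ c₁) :
    (b₁ = u ∧ c₁ = v) ∨ (b₁ = -u ∧ c₁ = -v) := by
  have hu : u ≠ 0 := left_ne_zero_of_mul h0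
  have hv : v ≠ 0 := right_ne_zero_of_mul h0
  have k1 : IsCoprime b₁ v := cop_of b₁ v hv h1
  have k2 : IsCoprime u c₁ := (cop_of c₁ u hu h2).symm
  have d1 : b₁ ∣ u := k1.dvd_of_dvd_mul_right (h ▸ dvd_mul_right b₁ c₁)
  have d2 : u ∣ b₁ := k2.dvd_of_dvd_mul_right (h.symm ▸ dvd_mul_right u v)
  have d3 : Associated b₁ u := associated_of_dvd_dvd d1 d2
  rcases Int.associated_iff.1 d3 with h3 | h3
  · left
    refine ⟨h3, ?_⟩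
    rw [h3] at h
    exact mul_left_cancel₀ hu h
  · right
    refine ⟨h3, ?_⟩
    rw [h3] at h
    have : u * c₁ = u * (-v) := by linarith
    exact mul_left_cancel₀ hu this

end Pool.Agent.VFib
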