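import Pool.Agent.Lib.MP_305fdd_al.VFib.Fam
import Pool.Agent.Lib.MP_305fdd_al.VFib.G1
import Pool.Agent.Lib.MP_305fdd_al.VFib.G2

/-!
# MP_305fdd_al, VFib: a larger family of rigid groups
-/

set_option autoImplicit false

namespace Pool.Agent.VFib

open Pool.Agent.MP_305fdd_al Pool.Agent.Lib.MP_305fdd_al Pool.Agent.F2X Pool.Agent.F8
  Pool.Agent.F8.HN

theorem LC.symm {D' D : Subgroup (GL (Fin 2) ℤ)} (h : LC D' D) : LC D D' := by
  intro m hm
  obtain ⟨M, hM⟩ := h m hm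
  refine ⟨M⁻¹, ?_⟩
  rw [← hM, Subgroup.map_map]
  have h1 : (MulAut.conj M⁻¹).toMonoidHom.comp (MulAut.conj M).toMonoidHom =
      MonoidHom.id (GL (Fin 2) (ZMod m)) := by
    refine MonoidHom.ext fun Z => ?_
    show M⁻¹ * (M * Z * M⁻¹) * M⁻¹⁻¹ = Z
    group
  rw [h1, Subgroup.map_id]

theorem gf_basic (a m u v : ℤ) (h : a ^ 2 - u * v * m ^ 2 = 1)
    (J K : GL (Fin 2) ℤ) (hJ : J.val = !![1, 0; 0, -1])
    (hK : K.val = !![a, m * u; -(m * v), -a]) :
    J * J = 1 ∧ K * K = 1 ∧ (J * K).val = !![a, m * u; m * v, a] ∧ J.val.det = -1 ∧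
      (J * K).val.det = 1 ∧ (J * K).val.trace = 2 * a := by
  have hJJ : J * J = 1 := by
    apply Units.ext
    rw [Units.val_mul, hJ, Units.val_one, Matrix.mul_fin_two, Matrix.one_fin_two]
    simp
  have hKK : K * K = 1 := by
    apply Units.ext
    rw [Units.val_mul, hK, Units.val_one, Matrix.mul_fin_two, Matrix.one_fin_two]
    have e1 : a * a + m * u * -(m * v) = 1 := by linarith
    have e2 : a * (m * u) + m * u * -a = 0 := by ring
    have e3 : -(m * v) * a + -a * -(m * v) = 0 := by ring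
    have e4 : -(m * v) * (m * u) + -a * -a = 1 := by linarith
    rw [e1, e2, e3, e4]
  have hJK : (J * K).val = !![a, m * u; m * v, a] := by
    rw [Units.val_mul, hJ, hK, Matrix.mul_fin_two]
    simp
  refine ⟨hJJ, hKK, hJK, ?_, ?_, ?_⟩
  · rw [hJ, Matrix.det_fin_two_of]
    norm_num
  · rw [hJK, Matrix.det_fin_two_of]
    linarith
  · rw [hJK, Matrix.trace_fin_two_of]
    ring

/-- reduction modulo two -/
theorem red_two {a m u v : ℤ} (h : a ^ 2 - u * v * m ^ 2 = 1) (h2m : (2 : ℤ) ∣ m)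
    {K : GL (Fin 2) ℤ} (hK : K.val = !![a, m * u; -(m * v), -a]) : F2X.red 2 K = 1 := by
  apply Units.ext
  show (Int.castRingHom (ZMod 2)).mapMatrix K.val = 1
  have hm0 : ((m : ℤ) : ZMod 2) = 0 := (ZMod.intCast_zmod_eq_zero_iff_dvd m 2).2 h2m
  have ha1 : ((a : ℤ) : ZMod 2) = 1 := by
    have h1 : (((a ^ 2 - u * v * m ^ 2 : ℤ)) : ZMod 2) = 1 := by rw [h]; rfl
    push_cast at h1
    rw [hm0, zero_pow (by norm_num), mul_zero, sub_zero] at h1
    revert h1
    generalize ((a : ℤ) : ZMod 2) = z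
    revert z
    decide
  rw [hK]
  ext r s
  fin_cases r <;> fin_cases s
  · show ((a : ℤ) : ZMod 2) = 1
    exact ha1
  · show ((m * u : ℤ) : ZMod 2) = 0
    push_cast
    rw [hm0, zero_mul]
  · show ((-(m * v) : ℤ) : ZMod 2) = 0
    push_cast
    rw [hm0, zero_mul, neg_zero]
  · show ((-a : ℤ) : ZMod 2) = 1
    push_cast
    rw [ha1]
    decide

theorem red_diag {J : GL (Fin 2) ℤ} (hJ : J.val = !![1, 0; 0, -1]) : F2X.red 2 J = 1 := by
  apply Units.ext
  show (Int.castRingHom (ZMod 2)).mapMatrix J.val = 1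
  rw [hJ]
  decide

/-- one of the two involutions is trivial modulo two -/
theorem gf_par {m : ℤ} {J K J' K' : GL (Fin 2) ℤ} (hJJ : J * J = 1) (hKK : K * K = 1)
    (hJ1 : F2X.red 2 J = 1) (hK1 : (2 : ℤ) ∣ m → F2X.red 2 K = 1)
    (hB' : F2X.red 2 (J' * K') = 1 → (2 : ℤ) ∣ m)
    (hLC : LC (Subgroup.closure {J', K'}) (Subgroup.closure {J, K})) :
    F2X.red 2 J' = 1 ∨ F2X.red 2 K' = 1 := by
  by_contra hne
  rw [not_or] at hne
  obtain ⟨M, hM⟩ := hLC 2 (by norm_num)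
  have hkk : F2X.red 2 K * F2X.red 2 K = 1 := by rw [← map_mul, hKK, map_one]
  have hall : ∀ Z ∈ Subgroup.closure ({J, K} : Set (GL (Fin 2) ℤ)),
      F2X.red 2 Z = 1 ∨ F2X.red 2 Z = F2X.red 2 K := by
    intro Z hZ
    have hpow : ∀ i : ℤ, F2X.red 2 K ^ i = 1 ∨ F2X.red 2 K ^ i = F2X.red 2 K := by
      intro i
      rcases Int.even_or_odd' i with ⟨n, rfl | rfl⟩
      · left
        rw [zpow_mul, zpow_two, hkk, one_zpow]
      · right
        rw [zpow_add_one, zpow_mul, zpow_two, hkk, one_zpow, one_mul]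
    obtain ⟨i, rfl | rfl⟩ := mem_dih hJJ hKK hZ
    · rw [map_zpow, map_mul, hJ1, one_mul]
      exact hpow i
    · rw [map_mul, map_zpow, map_mul, hJ1, one_mul, one_mul]
      exact hpow i
  have himg : ∀ Z ∈ Subgroup.closure ({J', K'} : Set (GL (Fin 2) ℤ)),
      F2X.red 2 Z ≠ 1 → M * F2X.red 2 Z * M⁻¹ = F2X.red 2 K := by
    intro Z hZ hZ1
    have h1 : M * F2X.red 2 Z * M⁻¹ ∈ (Subgroup.closure ({J, K} : Set (GL (Fin 2) ℤ))).map
        (F2X.red 2) := by
      rw [← hM]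
      exact ⟨F2X.red 2 Z, ⟨Z, hZ, rfl⟩, rfl⟩
    obtain ⟨W, hW, hW2⟩ := h1
    rcases hall W hW with h3 | h3
    · exfalso
      apply hZ1
      rw [h3] at hW2
      have h4 : F2X.red 2 Z = M⁻¹ * (M * F2X.red 2 Z * M⁻¹) * M := by group
      rw [h4, ← hW2]
      group
    · rw [← hW2, h3]
  have hJ'm : J' ∈ Subgroup.closure ({J', K'} : Set (GL (Fin 2) ℤ)) :=
    Subgroup.subset_closure (by simp)
  have hK'm : K' ∈ Subgroup.closure ({J', K'} : Set (GL (Fin 2) ℤ)) :=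
    Subgroup.subset_closure (by simp)
  have e1 := himg J' hJ'm hne.1
  have e2 := himg K' hK'm hne.2
  have e3 : F2X.red 2 (J' * K') = 1 := by
    have h1 : M * F2X.red 2 (J' * K') * M⁻¹ = 1 := by
      rw [map_mul]
      calc M * (F2X.red 2 J' * F2X.red 2 K') * M⁻¹
          = (M * F2X.red 2 J' * M⁻¹) * (M * F2X.red 2 K' * M⁻¹) := by group
        _ = 1 := by rw [e1, e2, hkk]
    have h4 : F2X.red 2 (J' * K') = M⁻¹ * (M * F2X.red 2 (J' * K') * M⁻¹) * M := by group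
    rw [h4, h1]
    group
  rw [hK1 (hB' e3)] at e1
  apply hne.1
  have h4 : F2X.red 2 J' = M⁻¹ * (M * F2X.red 2 J' * M⁻¹) * M := by group
  rw [h4, e1]
  group

/-- the groups which are locally conjugate to the group of the family are conjugate to it -/
theorem gf_unique (a m u v : ℤ) (h : a ^ 2 - u * v * m ^ 2 = 1) (hm : m ≠ 0)
    (habs : 3 ≤ |2 * a|) (huv : IsCoprime u v) (h2 : ¬ (2 : ℤ) ∣ u * v) (ha : u * v ∣ a - 1)
    (J K : GL (Fin 2) ℤ) (hJ : J.val = !![1, 0; 0, -1])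
    (hK : K.val = !![a, m * u; -(m * v), -a])
    {D' : Subgroup (GL (Fin 2) ℤ)} {B' : GL (Fin 2) ℤ} (hB' : B' ∈ D') (hd' : B'.val.det = 1)
    (ht' : B'.val.trace = 2 * a) (hc' : LF.cont B'.val = m.natAbs)
    (hi' : (Subgroup.zpowers B').relIndex D' = 2)
    (hLC : LC D' (Subgroup.closure {J, K})) :
    ∃ X : GL (Fin 2) ℤ, D'.map (MulAut.conj X).toMonoidHom = Subgroup.closure {J, K} := by
  obtain ⟨hJJ, hKK, hJK, hJd, hd, ht⟩ := gf_basic a m u v h J K hJ hK
  have habs' : 3 ≤ |(J * K).val.trace| := by rw [ht]; exact habs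
  have huv0 : u * v ≠ 0 := fun h0 => h2 (by rw [h0]; exact dvd_zero 2)
  have hJD : J ∈ Subgroup.closure ({J, K} : Set (GL (Fin 2) ℤ)) :=
    Subgroup.subset_closure (by simp)
  have hKD : K ∈ Subgroup.closure ({J, K} : Set (GL (Fin 2) ℤ)) :=
    Subgroup.subset_closure (by simp)
  have hBD : J * K ∈ Subgroup.closure ({J, K} : Set (GL (Fin 2) ℤ)) := mul_mem hJD hKD
  have ht'' : 3 ≤ |B'.val.trace| := by rw [ht']; exact habs
  have hiN' : (Subgroup.zpowers B').relIndex D' ≠ 0 := by rw [hi']; norm_num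
  have hB2 : (J * K)⁻¹ ≠ J * K := by
    intro h1
    have h2 := hyp_zinj hd habs' (k := -1) (l := 1) (by rw [zpow_neg, zpow_one, h1])
    norm_num at h2
  have hO' := orient hBD hB' hd habs' hd' ht''
    (fun X hX => by
      rcases dih_conj hJJ hKK hJd hd hX with ⟨-, h1⟩ | ⟨-, h1⟩
      · exact Or.inl h1
      · exact Or.inr h1)
    (fun X hX => conj_hyp hd' ht'' hB' hiN' hX) hLC
    (fun X hX => by
      rcases dih_conj hJJ hKK hJd hd hX with ⟨h1, h2⟩ | ⟨h1, h2⟩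
      · exact ⟨fun _ => h2, fun _ => h1⟩
      · constructor
        · intro h3
          rw [h1] at h3
          norm_num at h3
        · intro h3
          rw [h2] at h3
          exact absurd h3 hB2)
  -- an element of `D'` with determinant `-1`
  obtain ⟨X, hX, hXd⟩ : ∃ X ∈ D', X.val.det = -1 := by
    obtain ⟨M, hM⟩ := hLC 3 (by norm_num)
    have h1 : F2X.red 3 J ∈ (D'.map (F2X.red 3)).map (MulAut.conj M).toMonoidHom := by
      rw [hM]
      exact ⟨J, hJD, rfl⟩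
    obtain ⟨_, ⟨X, hX, rfl⟩, h2⟩ := h1
    refine ⟨X, hX, ?_⟩
    have h3 : M * F2X.red 3 X * M⁻¹ = F2X.red 3 J := h2
    have h4 : Matrix.GeneralLinearGroup.det (F2X.red 3 X) =
        Matrix.GeneralLinearGroup.det (F2X.red 3 J) := by
      rw [← h3, map_mul, map_mul, map_inv]
      rw [mul_comm, inv_mul_cancel_left]
    have h5 : ∀ Y : GL (Fin 2) ℤ, (Matrix.GeneralLinearGroup.det (F2X.red 3 Y)).val =
        ((Y.val.det : ℤ) : ZMod 3) := by
      intro Y
      show ((Int.castRingHom (ZMod 3)).mapMatrix Y.val).det = _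
      rw [← RingHom.map_det]
      rfl
    have h6 := congrArg Units.val h4
    rw [h5, h5, hJd] at h6
    rcases LF.det_cases X with ⟨h7, -⟩ | ⟨h7, -⟩
    · rw [h7] at h6
      exact absurd h6 (by decide)
    · exact h7
  have hXB : X * B' * X⁻¹ = B'⁻¹ := by
    rcases conj_hyp hd' ht'' hB' hiN' hX with h1 | h1
    · have h2 := (hO' X hX).2 h1
      rw [hXd] at h2
      norm_num at h2
    · exact h1
  obtain ⟨J', K', hJ', hK', hJK', hD'⟩ := dih_of hB' hd' ht'' hi' hX hXd hXB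
  -- modulo two
  have hpar := gf_par (m := m) (J' := J') (K' := K') hJJ hKK (red_diag hJ)
    (fun h2m => red_two h h2m hK) (fun h1 => by
      rw [hJK'] at h1
      have h3 : 2 ∣ LF.cont B'.val := by
        rw [LF.E2.dvd_cont_iff]
        exact ⟨1, by rw [one_smul]; exact congrArg Units.val h1⟩
      rw [hc'] at h3
      exact Int.natCast_dvd.2 h3) (by rw [← hD']; exact hLC)
  obtain ⟨J₁, K₁, Z, hJ₁, hK₁, hD₁, hr₁, hB₁⟩ : ∃ J₁ K₁ Z : GL (Fin 2) ℤ, J₁ * J₁ = 1 ∧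
      K₁ * K₁ = 1 ∧ D' = Subgroup.closure {J₁, K₁} ∧ F2X.red 2 J₁ = 1 ∧
      J₁ * K₁ = Z * B' * Z⁻¹ := by
    rcases hpar with h1 | h1
    · exact ⟨J', K', 1, hJ', hK', hD', h1, by rw [hJK', one_mul, inv_one, mul_one]⟩
    · refine ⟨K', J', J'⁻¹, hK', hJ', by rw [hD', Set.pair_comm], h1, ?_⟩
      rw [← hJK']
      have h3 : J'⁻¹ = J' := inv_eq_of_mul_eq_one_left hJ'
      rw [inv_inv, inv_mul_cancel_left]
  have hdet₁ : (J₁ * K₁).val.trace = 2 * a := by
    rw [hB₁, Units.val_mul, Units.val_mul, Matrix.trace_mul_comm, ← Matrix.mul_assoc,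
      ← Units.val_mul, inv_mul_cancel, Units.val_one, Matrix.one_mul, ht']
  obtain ⟨i, Y, J'', hU, hYJ, hK'', htr⟩ := nf_pair hJ₁ (by rw [hdet₁]; exact habs) hK₁
  obtain ⟨L, hL⟩ : ∃ L, L = Y * K₁ * Y⁻¹ := ⟨_, rfl⟩
  rw [← hL] at hK'' htr
  have hDY : D'.map (MulAut.conj Y).toMonoidHom = Subgroup.closure {J'', L} := by
    rw [hD₁, closure_conj, hYJ, hL]
  have hLC2 : LC (Subgroup.closure {J'', L}) (Subgroup.closure {J, K}) := by
    rw [← hDY]
    exact hLC.conj Y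
  have hi2 : i = true := by
    cases i with
    | true => rfl
    | false =>
      exfalso
      have h2 : F2X.red 2 J'' = 1 := by
        rw [← hYJ, map_mul, map_mul, map_inv, hr₁]
        group
      have h4 : (Int.castRingHom (ZMod 2)).mapMatrix J''.val = 1 := congrArg Units.val h2
      rw [hU] at h4
      revert h4
      decide
  subst hi2
  have hJ2 : J'' = J := by
    apply Units.ext
    rw [hU, hJ]
    rfl
  rw [hJ2] at hDY hLC2
  have hLne : L.val 0 1 ≠ -L.val 1 0 ∨ L.val 0 0 ≠ L.val 1 1 := by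
    right
    intro h1
    rw [U_trace] at htr
    rw [if_pos rfl, h1, sub_self, hdet₁] at htr
    rw [← htr] at habs
    norm_num at habs
  obtain ⟨hL1, hL2⟩ := inv_entries hK'' hLne
  have hLa : L.val 0 0 = a := by
    rw [U_trace, if_pos rfl, hL1, hdet₁] at htr
    linarith
  have hLb : a ^ 2 + L.val 0 1 * L.val 1 0 = 1 := by
    rw [hLa] at hL2
    linarith
  have hLval : L.val = !![a, L.val 0 1; L.val 1 0, -a] := by
    rw [← hLa, ← hL1]
    exact Matrix.eta_fin_two _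
  have hJL : (J * L).val = !![a, L.val 0 1; -L.val 1 0, a] := by
    rw [Units.val_mul, hJ]
    conv_lhs => rw [hLval]
    rw [Matrix.mul_fin_two]
    simp
  have hcont : Int.gcd (L.val 0 1) (L.val 1 0) = m.natAbs := by
    have h1 : J * L = (Y * Z) * B' * (Y * Z)⁻¹ := by
      have h3 : J * L = Y * (J₁ * K₁) * Y⁻¹ := by
        rw [← hJ2, ← hYJ, hL]
        group
      rw [h3, hB₁]
      group
    rw [← hc', ← cont_conj (Y * Z) B', ← h1, hJL]
    show _ = Nat.gcd (Int.gcd (L.val 0 1) (-L.val 1 0)) (Int.natAbs (a - a))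
    rw [sub_self, Int.natAbs_zero, Nat.gcd_zero_right, Int.gcd_neg]
  obtain ⟨b₁, c₁, hb₁, hc₁, hbc, hcop⟩ := g_fact u v a m _ _ h hm hLb hcont
  have hLval2 : L.val = !![a, m * b₁; -(m * c₁), -a] := by
    rw [hLval, hb₁, hc₁]
  have hq2 : ∀ q : ℕ, (q : ℤ) ∣ u * v → q ≠ 2 := by
    rintro q hq rfl
    exact h2 (by exact_mod_cast hq)
  have hfin := g_fin u v b₁ c₁ huv hcop hbc huv0
    (fun q hq hqv hqb => by
      have hqc : ¬ (q : ℤ) ∣ c₁ := fun hqc => by
        have h3 := hcop.isUnit_of_dvd' hqb hqc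
        exact (Nat.prime_iff_prime_int.1 hq).not_unit h3
      have hquv : (q : ℤ) ∣ u * v := Dvd.dvd.mul_left hqv u
      exact g_excl q hq (hq2 q hquv) a m u v b₁ c₁ h hm (dvd_trans hquv ha) hqv hqb hqc J K L
        hJ hK hLval2 hLC2)
    (fun q hq hqu hqc => by
      have hqv : ¬ (q : ℤ) ∣ v := fun hqv => by
        have h3 := huv.isUnit_of_dvd' hqu hqv
        exact (Nat.prime_iff_prime_int.1 hq).not_unit h3
      have hquv : (q : ℤ) ∣ u * v := Dvd.dvd.mul_right hqu v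
      exact g_excl q hq (hq2 q hquv) a m b₁ c₁ u v (by rw [hbc]; exact h) hm
        (dvd_trans hquv ha) hqc hqu hqv J L K hJ hLval2 hK hLC2.symm)
  -- conjugation with `J`
  have hmapJ : (Subgroup.closure ({J, L} : Set (GL (Fin 2) ℤ))).map
      (MulAut.conj J).toMonoidHom = Subgroup.closure {J, J * L * J⁻¹} := by
    rw [closure_conj, mul_inv_cancel_right]
  have hDJY : D'.map (MulAut.conj (J * Y)).toMonoidHom = Subgroup.closure {J, J * L * J⁻¹} := by
    rw [← hmapJ, ← hDY, Subgroup.map_map]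
    congr 1
    ext W : 1
    show J * Y * W * (J * Y)⁻¹ = J * (Y * W * Y⁻¹) * J⁻¹
    group
  rcases hfin with ⟨h3, h4⟩ | ⟨h3, h4⟩
  · refine ⟨Y, ?_⟩
    rw [hDY]
    have h5 : L = K := by
      apply Units.ext
      rw [hLval2, h3, h4, hK]
    rw [h5]
  · refine ⟨J * Y, ?_⟩
    rw [hDJY]
    have h5 : J * L * J⁻¹ = K := by
      apply Units.ext
      have hJi : J⁻¹ = J := inv_eq_of_mul_eq_one_left hJJ
      rw [hJi, Units.val_mul, hJL, hJ, Matrix.mul_fin_two, hb₁, hc₁, h3, h4, hK]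
      simp
    rw [h5]

/-- the groups of the family are rigid -/
theorem gf_rigid (a m u v : ℤ) (h : a ^ 2 - u * v * m ^ 2 = 1) (hm : m ≠ 0)
    (habs : 3 ≤ |2 * a|) (huv : IsCoprime u v) (h2 : ¬ (2 : ℤ) ∣ u * v) (ha : u * v ∣ a - 1)
    (J K : GL (Fin 2) ℤ) (hJ : J.val = !![1, 0; 0, -1])
    (hK : K.val = !![a, m * u; -(m * v), -a])
    (Λ : Type) [Group Λ] (hfp : Group.IsFinitelyPresented Λ) (hΛ : LF.LERF Λ)
    (hs : SameFiniteQuotients Λ (Pre (Subgroup.closure {J, K}))) :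
    Nonempty (Λ ≃* Pre (Subgroup.closure {J, K})) := by
  obtain ⟨hJJ, hKK, hJK, -, hd, ht⟩ := gf_basic a m u v h J K hJ hK
  have habs' : 3 ≤ |(J * K).val.trace| := by rw [ht]; exact habs
  have hBD : J * K ∈ Subgroup.closure ({J, K} : Set (GL (Fin 2) ℤ)) :=
    mul_mem (Subgroup.subset_closure (by simp)) (Subgroup.subset_closure (by simp))
  have hi := dih_index hJJ hKK habs'
  obtain ⟨D', B', k1, k2, k3, k4, k5, k6, ⟨e⟩⟩ :=
    lamD hBD hd habs' (by rw [hi]; norm_num) Λ hfp hΛ hs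
  have hc : LF.cont (J * K).val = m.natAbs := by
    rw [hJK]
    show Nat.gcd (Int.gcd (m * u) (m * v)) (Int.natAbs (a - a)) = _
    rw [sub_self, Int.natAbs_zero, Nat.gcd_zero_right, Int.gcd_mul_left,
      Int.isCoprime_iff_gcd_eq_one.1 huv, mul_one]
  obtain ⟨X, hX⟩ := gf_unique a m u v h hm habs huv h2 ha J K hJ hK k1 k2 (by rw [k3, ht])
    (by rw [k4, hc]) (by rw [k5, hi]) k6
  obtain ⟨e'⟩ := pre_conj X hX
  exact ⟨e.trans e'⟩

end Pool.Agent.VFib
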