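import Pool.Agent.Lib.MP_305fdd_al.VFib.Semi2

/-!
# MP_305fdd_al, VFib: semi-bundles, the two sides
-/

set_option autoImplicit false

namespace Pool.Agent.VFib

open Pool.Agent.MP_305fdd_al Pool.Agent.Lib.MP_305fdd_al Pool.Agent.F2X Pool.Agent.F8
  Pool.Agent.F8.HN
open Pool.Agent.F8.OV (liftA liftA_iA liftA_tA homA_ext cj_equiv)

theorem same_equiv {A B C : Type} [Group A] [Group B] [Group C] (e : B ≃* C)
    (h : SameFiniteQuotients A B) : SameFiniteQuotients A C := by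
  intro Q _ _
  rw [h Q]
  constructor
  · rintro ⟨f, hf⟩
    exact ⟨f.comp e.symm.toMonoidHom, hf.comp e.symm.surjective⟩
  · rintro ⟨f, hf⟩
    exact ⟨f.comp e.toMonoidHom, hf.comp e.surjective⟩

theorem index_ker_eq {G H : Type} [Group G] [Group H] (f : G →* H) (hf : Function.Surjective f) :
    f.ker.index = Nat.card H := by
  rw [Subgroup.index_ker, MonoidHom.range_eq_top.2 hf, Subgroup.card_top]

/-- from `Γ` to `Λ` -/
theorem lam_side {Γ : Type} [Group Γ] (Γ₀ : Subgroup Γ) [Γ₀.Normal] (hi : Γ₀.index = 2)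
    (β : MulAut F) (e : Γ₀ ≃* GA β) (hβ : ((AM β).val - 1).det ≠ 0)
    (hinv : ∀ y ∉ Γ₀, ∀ x : Γ₀, nA β (e (MulAut.conjNormal y x)) = (nA β (e x))⁻¹)
    (Λ : Type) [Group Λ] (hfp : Group.IsFinitelyPresented Λ) (hΛ : LF.LERF Λ)
    (h : SameFiniteQuotients Λ Γ) :
    ∃ (Λ₀ : Subgroup Λ) (_ : Λ₀.Normal) (γ : MulAut F) (e' : Λ₀ ≃* GA γ), Λ₀.index = 2 ∧
      (AM γ).val.det = (AM β).val.det ∧ (AM γ).val.trace = (AM β).val.trace ∧
      LF.cont (AM γ).val = LF.cont (AM β).val ∧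
      ∀ y ∉ Λ₀, ∀ x : Λ₀, nA γ (e' (MulAut.conjNormal y x)) = (nA γ (e' x))⁻¹ := by
  have hΓfi : Γ₀.FiniteIndex := ⟨by rw [hi]; norm_num⟩
  have hΛfg : Group.FG Λ := LF.fg_of_fp Λ hfp
  have hfgF : Group.FG F := inferInstance
  have hkF : (nA β).ker.FG := by
    have hk : (nA β).ker = (iA β).range := by
      ext x
      constructor
      · intro hx
        obtain ⟨w, rfl⟩ := GA_ker β x hx
        exact ⟨w, rfl⟩
      · rintro ⟨w, rfl⟩
        exact nA_iA β w
    rw [hk]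
    exact (Group.fg_iff_subgroup_fg _).1 (Group.fg_of_surjective (f := (iA β).rangeRestrict)
      (MonoidHom.rangeRestrict_surjective _))
  have hGA : Group.FG (GA β) := LF.fg_of_ker (nA β) (nA_surjective β) hkF
  have hΓ₀ : Group.FG Γ₀ := Group.fg_of_surjective (f := e.symm.toMonoidHom) e.symm.surjective
  have hΓfg : Group.FG Γ := fg_of_sub Γ₀ hΓ₀
  have hfin : Finite (Γ ⧸ Γ₀) := Subgroup.finite_quotient_of_finiteIndex
  obtain ⟨Φ⟩ := exists_natBij h
  obtain ⟨π, hπd⟩ : ∃ π : Λ →* Γ ⧸ Γ₀, π = Φ.invFun _ (QuotientGroup.mk' Γ₀) := ⟨_, rfl⟩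
  have hπ : Φ.toFun _ π = QuotientGroup.mk' Γ₀ := by
    rw [hπd]
    exact Φ.right_inv _ _
  have hπs : Function.Surjective π := by
    rw [← MonoidHom.range_eq_top, ← Φ.range_eq, hπ, MonoidHom.range_eq_top]
    exact QuotientGroup.mk'_surjective Γ₀
  have hA : π.ker = (⊥ : Subgroup (Γ ⧸ Γ₀)).comap π := (MonoidHom.comap_bot π).symm
  have hB : Γ₀ = (⊥ : Subgroup (Γ ⧸ Γ₀)).comap (QuotientGroup.mk' Γ₀) := by
    rw [MonoidHom.comap_bot, QuotientGroup.ker_mk']
  obtain ⟨Ψ, hΨ⟩ := exists_Psi Φ hπ hA hB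
  have hconj : ∀ (l : Λ) (y : Γ), π l = QuotientGroup.mk' Γ₀ y →
      CA Ψ (MulAut.conjNormal l : MulAut π.ker) (MulAut.conjNormal y : MulAut Γ₀) := by
    intro l y hly P _ _ ψ
    exact cor_unique Φ hπ hA hB (hΨ P _) (cor_conj Φ hπ hA (hΨ P ψ) l y hly)
  have hfi : π.ker.FiniteIndex := Subgroup.finiteIndex_ker π
  have hfp0 : Group.IsFinitelyPresented π.ker := fp_of_finiteIndex hfp π.ker
  have hL0 : LF.LERF π.ker := lerf_sub hΛ π.ker
  obtain ⟨γ, ⟨e'⟩, k1, k2, k3⟩ := LF.bundles β hβ π.ker hfp0 hL0 (same_equiv e (same_natBij Ψ))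
  have hidx : π.ker.index = 2 := by
    rw [index_ker_eq π hπs, ← hi]
    rfl
  refine ⟨π.ker, inferInstance, γ, e', hidx, k1, k2, k3, fun l hl x => ?_⟩
  obtain ⟨y, hy⟩ := QuotientGroup.mk'_surjective Γ₀ (π l)
  have hyΓ : y ∉ Γ₀ := fun h1 => hl (by
    rw [MonoidHom.mem_ker, ← hy]
    exact (QuotientGroup.eq_one_iff y).2 h1)
  by_contra hne
  have hne' : nA γ (e' (MulAut.conjNormal l x)) * nA γ (e' x) ≠ 1 := fun h1 =>
    hne (eq_inv_of_mul_eq_one_left h1)
  obtain ⟨m, hm, hmx⟩ := red_ne_one hne'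
  have : NeZero m := ⟨hm⟩
  let χ : π.ker →* Multiplicative ℤ := (nA γ).comp e'.toMonoidHom
  obtain ⟨h', hh'⟩ := lift_red Ψ χ m
  -- `h'` is trivial on the kernel of the class
  have h1 : ∀ z : Γ₀, nA β (e z) = 1 → h' z = 1 := by
    intro z hz
    have h2 := LF.p_E6 β hβ (h'.comp e.symm.toMonoidHom) (show e z ∈ (nA β).ker from hz)
    have h3 : h' (e.symm (e z)) = 1 := h2
    rwa [MulEquiv.symm_apply_apply] at h3
  have h2 : ∀ z : Γ₀, h' (MulAut.conjNormal y z) * h' z = 1 := by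
    intro z
    rw [← map_mul]
    apply h1
    rw [map_mul, map_mul, hinv y hyΓ, inv_mul_cancel]
  have h3 : Ψ.toFun _ ((((LF.red m).comp χ).comp (MulAut.conjNormal l).toMonoidHom) *
      ((LF.red m).comp χ)) = 1 := by
    rw [natBij_mul, hconj l y hy.symm, hh']
    ext z
    show LF.red m (h' (MulAut.conjNormal y z)) * LF.red m (h' z) = 1
    rw [← map_mul, h2, map_one]
  have h4 : (((LF.red m).comp χ).comp (MulAut.conjNormal l).toMonoidHom) *
      ((LF.red m).comp χ) = 1 := by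
    apply Ψ.injective
    rw [h3, Ψ.one]
  apply hmx
  have h5 := DFunLike.congr_fun h4 x
  rw [map_mul]
  exact h5

/-- groups with the structure of `Γ` -/
theorem semi_iso {Λ : Type} [Group Λ] (Λ₀ : Subgroup Λ) [Λ₀.Normal] (hi : Λ₀.index = 2)
    (γ : MulAut F) (e : Λ₀ ≃* GA γ) (hd : (AM γ).val.det = 1) (ht : 3 ≤ |(AM γ).val.trace|)
    (hinv : ∀ y ∉ Λ₀, ∀ x : Λ₀, nA γ (e (MulAut.conjNormal y x)) = (nA γ (e x))⁻¹) :
    ∃ K₁ K₂ : GL (Fin 2) ℤ, K₁ * K₁ = 1 ∧ K₂ * K₂ = 1 ∧ K₁ * K₂ = AM γ ∧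
      Nonempty (Λ ≃* Pre (Subgroup.closure {K₁, K₂})) := by
  let j : F →* Λ := Λ₀.subtype.comp (e.symm.toMonoidHom.comp (iA γ))
  have hj : ∀ w, j w = ((e.symm (iA γ w) : Λ₀) : Λ) := fun w => rfl
  have hji : Function.Injective j := by
    intro a b hab
    exact iA_injective γ (e.symm.injective (Subtype.ext hab))
  -- elements of degree zero
  have hdeg0 : ∀ x : Λ₀, nA γ (e x) = 1 → ∃ w, (x : Λ) = j w := by
    intro x hx
    obtain ⟨w, hw⟩ := GA_ker γ _ hx
    exact ⟨w, by rw [hj, ← hw, MulEquiv.symm_apply_apply]⟩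
  have hconj1 : ∀ (l : Λ) (x : Λ₀), nA γ (e x) = 1 → nA γ (e (MulAut.conjNormal l x)) = 1 := by
    intro l x hx
    by_cases hl : l ∈ Λ₀
    · have h1 : MulAut.conjNormal l x = (⟨l, hl⟩ : Λ₀) * x * (⟨l, hl⟩ : Λ₀)⁻¹ := Subtype.ext rfl
      rw [h1, map_mul, map_mul, map_mul, map_mul, hx, mul_one, ← map_mul, ← map_mul, mul_inv_cancel,
        map_one, map_one]
    · rw [hinv l hl, hx, inv_one]
  have hN : j.range.Normal := by
    refine ⟨?_⟩
    rintro _ ⟨w, rfl⟩ l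
    have h1 : nA γ (e (MulAut.conjNormal l (e.symm (iA γ w)))) = 1 := hconj1 l _ (by
      rw [MulEquiv.apply_symm_apply, nA_iA])
    obtain ⟨v, hv⟩ := hdeg0 _ h1
    exact ⟨v, hv.symm⟩
  let e' : j.range ≃* F := (MonoidHom.ofInjective hji).symm
  have he' : ∀ w, ((e'.symm w : j.range) : Λ) = j w := fun w => rfl
  have he'2 : ∀ (w : F) (h : j w ∈ j.range), e' ⟨j w, h⟩ = w := by
    intro w h
    have : (⟨j w, h⟩ : j.range) = e'.symm w := Subtype.ext (he' w).symm
    rw [this, MulEquiv.apply_symm_apply]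
  let t : Λ := ((e.symm (tA γ) : Λ₀) : Λ)
  have htj : ∀ w, t * j w * t⁻¹ = j (γ w) := by
    intro w
    rw [hj, hj, ← tA_conj, map_mul, map_mul, map_inv]
    rfl
  have hcjt : cj e' t = γ := by
    ext w
    rw [F2X.cj_apply]
    have h1 : MulAut.conjNormal t (e'.symm w) = e'.symm (γ w) := by
      apply Subtype.ext
      rw [MulAut.conjNormal_apply, he', he']
      exact htj w
    rw [h1, MulEquiv.apply_symm_apply]
  have hTt : Th e' t = AM γ := by rw [Th_apply, hcjt]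
  -- the matrices of the elements of `Λ₀`
  have hT0 : ∀ x : Λ₀, Th e' (x : Λ) = AM γ ^ (Multiplicative.toAdd (nA γ (e x))) := by
    intro x
    obtain ⟨w, n, hx⟩ := GA_cases γ (e x)
    have h1 : (x : Λ) = j w * t ^ n := by
      have h2 : x = e.symm (iA γ w) * (e.symm (tA γ)) ^ n := by
        rw [← map_zpow, ← map_mul, ← hx, MulEquiv.symm_apply_apply]
      rw [h2]
      rfl
    rw [h1, map_mul, map_zpow, hTt, Th_mem' e' (j w) ⟨w, rfl⟩, one_mul, hx, map_mul, map_zpow,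
      nA_iA, nA_tA, one_mul, ← ofAdd_zsmul]
    simp
  -- an element outside of `Λ₀`
  obtain ⟨s, hs⟩ : ∃ s, s ∉ Λ₀ := by
    by_contra hcon
    push Not at hcon
    have : Λ₀ = ⊤ := by
      rw [eq_top_iff]
      intro x _
      exact hcon x
    rw [this, Subgroup.index_top] at hi
    norm_num at hi
  have hss : s * s ∈ Λ₀ := Subgroup.mul_self_mem_of_index_two hi s
  have hss1 : nA γ (e ⟨s * s, hss⟩) = 1 := by
    have h1 := hinv s hs ⟨s * s, hss⟩
    have h2 : MulAut.conjNormal s (⟨s * s, hss⟩ : Λ₀) = ⟨s * s, hss⟩ := by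
      apply Subtype.ext
      rw [MulAut.conjNormal_apply]
      group
    rw [h2] at h1
    have h3 : Multiplicative.toAdd (nA γ (e ⟨s * s, hss⟩)) =
        -Multiplicative.toAdd (nA γ (e ⟨s * s, hss⟩)) := congrArg Multiplicative.toAdd h1
    apply Multiplicative.toAdd.injective
    rw [toAdd_one]
    omega
  have hK1 : Th e' s * Th e' s = 1 := by
    rw [← map_mul, hT0 ⟨s * s, hss⟩, hss1]
    simp
  have hKB : Th e' s * AM γ * Th e' s = (AM γ)⁻¹ := by
    have h1 : Th e' s * AM γ * (Th e' s)⁻¹ = (AM γ)⁻¹ := by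
      rw [← hTt, ← map_mul, ← map_inv, ← map_mul, ← map_inv]
      have h2 := hT0 (MulAut.conjNormal s (e.symm (tA γ)))
      rw [hinv s hs, MulEquiv.apply_symm_apply, nA_tA, toAdd_inv, toAdd_ofAdd, zpow_neg,
        zpow_one] at h2
      rw [map_inv, hTt]
      exact h2
    rwa [inv_eq_of_mul_eq_one_left hK1] at h1
  have hK2 : Th e' s * AM γ * (Th e' s * AM γ) = 1 := by
    rw [← mul_assoc, hKB, inv_mul_cancel]
  have hK12 : Th e' s * (Th e' s * AM γ) = AM γ := by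
    rw [← mul_assoc, hK1, one_mul]
  refine ⟨Th e' s, Th e' s * AM γ, hK1, hK2, hK12, ?_⟩
  have hmem : ∀ l, l ∉ Λ₀ → s⁻¹ * l ∈ Λ₀ := by
    intro l hl
    rw [Subgroup.mul_mem_iff_of_index_two hi, Subgroup.inv_mem_iff]
    exact ⟨fun h => absurd h hs, fun h => absurd h hl⟩
  obtain ⟨D, hD⟩ : ∃ D : Subgroup (GL (Fin 2) ℤ),
    D = Subgroup.closure {Th e' s, Th e' s * AM γ} := ⟨_, rfl⟩
  rw [← hD]
  have hsD : Th e' s ∈ D := by rw [hD]; exact Subgroup.subset_closure (by simp)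
  have hγD : AM γ ∈ D := by
    rw [← hK12]
    exact mul_mem hsD (by rw [hD]; exact Subgroup.subset_closure (by simp))
  have hTD : ∀ l, Th e' l ∈ D := by
    intro l
    by_cases hl : l ∈ Λ₀
    · rw [hT0 ⟨l, hl⟩]
      exact zpow_mem hγD _
    · have h1 : l = s * ((⟨s⁻¹ * l, hmem l hl⟩ : Λ₀) : Λ) := by
        show l = s * (s⁻¹ * l)
        group
      rw [h1, map_mul, hT0]
      exact mul_mem hsD (zpow_mem hγD _)
  have hTs : ∀ X ∈ D, ∃ l, Th e' l = X := by
    have h1 : D ≤ (Th e').range := by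
      rw [hD, Subgroup.closure_le]
      rintro X (rfl | rfl)
      · exact ⟨s, rfl⟩
      · exact ⟨s * t, by rw [map_mul, hTt]⟩
    exact fun X hX => h1 hX
  have hTk : ∀ l, Th e' l = 1 → l ∈ j.range := by
    intro l hl1
    by_cases hl : l ∈ Λ₀
    · rw [hT0 ⟨l, hl⟩] at hl1
      have h1 := hyp_inj hd ht hl1
      have h2 : nA γ (e ⟨l, hl⟩) = 1 := Multiplicative.toAdd.injective h1
      obtain ⟨w, hw⟩ := hdeg0 _ h2
      exact ⟨w, hw.symm⟩
    · exfalso
      have h1 : l = s * ((⟨s⁻¹ * l, hmem l hl⟩ : Λ₀) : Λ) := by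
        show l = s * (s⁻¹ * l)
        group
      rw [h1, map_mul, hT0] at hl1
      have ht' : 3 ≤ |(Th e' s * (Th e' s * AM γ)).val.trace| := by rw [hK12]; exact ht
      apply inv_notMem hK1 hK2 ht' (Multiplicative.toAdd (nA γ (e ⟨s⁻¹ * l, hmem l hl⟩))) 0
      rw [hK12, zpow_zero]
      exact hl1
  let π₁ : Λ →* D := (Th e').codRestrict D hTD
  have hπ₁ : Function.Surjective π₁ := by
    rintro ⟨X, hX⟩
    obtain ⟨l, hl⟩ := hTs X hX
    exact ⟨l, Subtype.ext hl⟩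
  have hk₁ : π₁.ker = j.range := by
    ext l
    constructor
    · intro hl
      exact hTk l (congrArg Subtype.val (MonoidHom.mem_ker.1 hl))
    · intro hl
      rw [MonoidHom.mem_ker]
      exact Subtype.ext (Th_mem' e' l hl)
  let e₁ : π₁.ker ≃* F := (MulEquiv.subgroupCongr hk₁).trans e'
  have hTh₁ : ∀ l, Th e₁ l = Th e' l := by
    intro l
    rw [Th_apply, Th_apply]
    congr 1
  let π₂ : Pre D →* D := AM.subgroupComap D
  have hπ₂ : Function.Surjective π₂ := by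
    rintro ⟨X, hX⟩
    obtain ⟨x, rfl⟩ := p_sur X
    exact ⟨⟨x, hX⟩, rfl⟩
  have hconjD : ∀ w : F, (MulAut.conj w : MulAut F) ∈ Pre D := fun w => by
    rw [Subgroup.mem_comap, AM_conj]
    exact one_mem D
  let c₂ : F →* π₂.ker :=
    { toFun := fun w => ⟨⟨MulAut.conj w, hconjD w⟩, Subtype.ext (AM_conj w)⟩
      map_one' := by
        apply Subtype.ext
        apply Subtype.ext
        exact map_one _
      map_mul' := fun a b => by
        apply Subtype.ext
        apply Subtype.ext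
        exact map_mul _ a b }
  have hc₂ : Function.Bijective c₂ := by
    constructor
    · rw [injective_iff_map_eq_one]
      intro w hw
      have h1 : (MulAut.conj w : MulAut F) = 1 :=
        congrArg (fun z : π₂.ker => ((z : Pre D) : MulAut F)) hw
      apply p_cen w
      intro v
      have h5 := DFunLike.congr_fun h1 v
      rw [MulAut.conj_apply, MulAut.one_apply] at h5
      calc w * v = w * v * w⁻¹ * w := by group
        _ = v * w := by rw [h5]
    · rintro ⟨⟨α, hα⟩, hα1⟩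
      have h1 : AM α = 1 := congrArg Subtype.val (MonoidHom.mem_ker.1 hα1)
      obtain ⟨g, hg⟩ := all_out α h1
      refine ⟨g, ?_⟩
      apply Subtype.ext
      apply Subtype.ext
      exact hg.symm
  let e₂ : π₂.ker ≃* F := (MulEquiv.ofBijective c₂ hc₂).symm
  have hTh₂ : ∀ g : Pre D, Th e₂ g = AM (g : MulAut F) := by
    intro g
    rw [Th_apply]
    congr 1
    ext w
    rw [F2X.cj_apply]
    have h1 : MulAut.conjNormal g (e₂.symm w) = e₂.symm ((g : MulAut F) w) := by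
      apply Subtype.ext
      apply Subtype.ext
      show (g : MulAut F) * MulAut.conj w * (g : MulAut F)⁻¹ = MulAut.conj ((g : MulAut F) w)
      ext v
      rw [MulAut.mul_apply, MulAut.mul_apply, MulAut.conj_apply, MulAut.conj_apply, map_mul,
        map_mul, map_inv, MulAut.apply_inv_self]
    rw [h1, MulEquiv.apply_symm_apply]
  exact p_ext all_out p_cen (Pre D) Λ D π₂ π₁ hπ₂ hπ₁ e₂ e₁ fun g l hgl => by
    rw [hTh₂, hTh₁]
    exact congrArg Subtype.val hgl

/-- conjugate groups of matrices -/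
theorem pre_conj {D D' : Subgroup (GL (Fin 2) ℤ)} (X : GL (Fin 2) ℤ)
    (h : D'.map (MulAut.conj X).toMonoidHom = D) : Nonempty (Pre D' ≃* Pre D) := by
  obtain ⟨x, hx⟩ := p_sur X
  have h1 : (Pre D').map (MulAut.conj x).toMonoidHom = Pre D := by
    ext α
    constructor
    · rintro ⟨β, hβ, rfl⟩
      show AM (x * β * x⁻¹) ∈ D
      rw [← h, map_mul, map_mul, map_inv, hx]
      exact ⟨AM β, hβ, rfl⟩
    · intro hα
      have hα' : AM α ∈ D := hα
      rw [← h] at hα'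
      obtain ⟨Y, hY, hY2⟩ := hα'
      refine ⟨x⁻¹ * α * x, ?_, ?_⟩
      · show AM (x⁻¹ * α * x) ∈ D'
        rw [map_mul, map_mul, map_inv, hx, ← hY2]
        have : X⁻¹ * (X * Y * X⁻¹) * X = Y := by group
        show X⁻¹ * (X * Y * X⁻¹) * X ∈ D'
        rw [this]
        exact hY
      · show x * (x⁻¹ * α * x) * x⁻¹ = α
        group
  exact ⟨((MulAut.conj x).subgroupMap (Pre D')).trans (MulEquiv.subgroupCongr h1)⟩

end Pool.Agent.VFib
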