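import Pool.Agent.Lib.MP_305fdd_al.VFib.Nrm
import Pool.Agent.Lib.MP_305fdd_al.VFib.Ext
import Pool.Agent.Lib.MP_305fdd_al.VFib.Semi3

/-!
# MP_305fdd_al, VFib: the preimages in `Aut(F₂)` of virtually cyclic groups of matrices
-/

set_option autoImplicit false

namespace Pool.Agent.VFib

open Pool.Agent.MP_305fdd_al Pool.Agent.Lib.MP_305fdd_al Pool.Agent.F2X Pool.Agent.F8
  Pool.Agent.F8.HN
open Pool.Agent.F8.OV (liftA liftA_iA liftA_tA homA_ext cj_equiv)

/-- the structure of `Γ` -/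
theorem gamD {D : Subgroup (GL (Fin 2) ℤ)} {B : GL (Fin 2) ℤ} (hB : B ∈ D)
    (hd : B.val.det = 1) (ht : 3 ≤ |B.val.trace|) (hi : (Subgroup.zpowers B).relIndex D ≠ 0) :
    ∃ (Γ₀ : Subgroup (Pre D)) (_ : Γ₀.Normal) (β : MulAut F) (e : Γ₀ ≃* GA β), AM β = B ∧
      (∀ y : Pre D, y ∈ Γ₀ ↔ AM (y : MulAut F) ∈ Subgroup.zpowers B) ∧
      (∀ x : Γ₀, AM ((x : Pre D) : MulAut F) ∈ Subgroup.zpowers B) ∧
      (∀ w, (((e.symm (iA β w) : Γ₀) : Pre D) : MulAut F) = MulAut.conj w) ∧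
      Γ₀.index = (Subgroup.zpowers B).relIndex D := by
  obtain ⟨β, hβ⟩ := p_sur B
  obtain ⟨f, hf, fi, hA, hr⟩ := bundle_aut' β (by rw [hβ]; exact hd) (by rw [hβ]; exact ht)
  rw [hβ] at hr
  let Γ₀ : Subgroup (Pre D) := (Subgroup.zpowers B).comap (AM.comp (Pre D).subtype)
  have hmem : ∀ y : Pre D, y ∈ Γ₀ ↔ AM (y : MulAut F) ∈ Subgroup.zpowers B := fun y => Iff.rfl
  have hn : Γ₀.Normal := by
    refine ⟨fun x hx y => ?_⟩
    rw [hmem] at hx ⊢
    obtain ⟨k, hk⟩ := Subgroup.mem_zpowers_iff.1 hx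
    show AM ((y : MulAut F) * (x : MulAut F) * (y : MulAut F)⁻¹) ∈ _
    rw [map_mul, map_mul, map_inv, ← hk, ← conj_zpow]
    rcases conj_hyp hd ht hB hi (X := AM (y : MulAut F)) y.2 with h | h
    · rw [h]
      exact Subgroup.zpow_mem_zpowers _ _
    · rw [h]
      exact zpow_mem (inv_mem (Subgroup.mem_zpowers B)) _
  have hfD : ∀ x, f x ∈ Pre D := by
    intro x
    rw [Subgroup.mem_comap, hA, hβ]
    exact zpow_mem hB _
  have hfΓ : ∀ x, (⟨f x, hfD x⟩ : Pre D) ∈ Γ₀ := by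
    intro x
    rw [hmem]
    exact (hr _).1 ⟨x, rfl⟩
  let g : GA β →* Γ₀ :=
    { toFun := fun x => ⟨⟨f x, hfD x⟩, hfΓ x⟩
      map_one' := by
        apply Subtype.ext
        apply Subtype.ext
        exact map_one f
      map_mul' := fun a b => by
        apply Subtype.ext
        apply Subtype.ext
        exact map_mul f a b }
  have hg : Function.Bijective g := by
    constructor
    · intro a b hab
      exact hf (congrArg (fun z : Γ₀ => ((z : Pre D) : MulAut F)) hab)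
    · rintro ⟨⟨α, hα⟩, hα2⟩
      obtain ⟨x, hx⟩ := (hr α).2 ((hmem _).1 hα2)
      refine ⟨x, ?_⟩
      apply Subtype.ext
      apply Subtype.ext
      exact hx
  refine ⟨Γ₀, hn, β, (MulEquiv.ofBijective g hg).symm, hβ, hmem, fun x => (hmem _).1 x.2,
    fun w => ?_, ?_⟩
  · exact fi w
  · show ((Subgroup.zpowers B).comap (AM.comp (Pre D).subtype)).index = _
    rw [Subgroup.index_comap]
    congr 1
    ext X
    constructor
    · rintro ⟨x, rfl⟩
      exact x.2
    · intro hX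
      obtain ⟨x, rfl⟩ := p_sur X
      exact ⟨⟨x, hX⟩, rfl⟩

/-- translations by the class modulo `m` -/
def trl (m : ℕ) : F →* Equiv.Perm (Fin 2 → ZMod m) where
  toFun w := Equiv.addLeft fun i => ((vec w i : ℤ) : ZMod m)
  map_one' := by
    ext v i
    rw [vec_one]
    simp
  map_mul' a b := by
    ext v i
    rw [vec_mul]
    simp [add_assoc]

/-- linear maps -/
def lin (m : ℕ) (A : GL (Fin 2) (ZMod m)) : Equiv.Perm (Fin 2 → ZMod m) where
  toFun v := A.val.mulVec v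
  invFun v := (A⁻¹).val.mulVec v
  left_inv v := by
    show (A⁻¹).val.mulVec (A.val.mulVec v) = v
    rw [Matrix.mulVec_mulVec, ← Units.val_mul, inv_mul_cancel, Units.val_one, Matrix.one_mulVec]
  right_inv v := by
    show A.val.mulVec ((A⁻¹).val.mulVec v) = v
    rw [Matrix.mulVec_mulVec, ← Units.val_mul, mul_inv_cancel, Units.val_one, Matrix.one_mulVec]

theorem red_mulVec (m : ℕ) (A : GL (Fin 2) ℤ) (v : Fin 2 → ℤ) :
    (F2X.red m A).val.mulVec (fun i => ((v i : ℤ) : ZMod m)) =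
      fun i => ((A.val.mulVec v i : ℤ) : ZMod m) := by
  ext i
  rw [Matrix.mulVec, Matrix.mulVec, dotProduct, dotProduct, Fin.sum_univ_two, Fin.sum_univ_two]
  push_cast
  rfl

theorem trl_conj (m : ℕ) (β : MulAut F) (w : F) :
    trl m (β w) = lin m (F2X.red m (AM β)) * trl m w * (lin m (F2X.red m (AM β)))⁻¹ := by
  ext v : 1
  show (fun i => ((vec (β w) i : ℤ) : ZMod m)) + v = (F2X.red m (AM β)).val.mulVec
    ((fun i => ((vec w i : ℤ) : ZMod m)) + ((F2X.red m (AM β))⁻¹).val.mulVec v)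
  rw [Matrix.mulVec_add, Matrix.mulVec_mulVec, ← Units.val_mul, mul_inv_cancel, Units.val_one,
    Matrix.one_mulVec, red_mulVec, AM_vec]

/-- the classes determine the matrix -/
theorem red_of_trl {m : ℕ} {α β : MulAut F} (h : ∀ w, trl m (α w) = trl m (β w)) :
    F2X.red m (AM α) = F2X.red m (AM β) := by
  have h1 : ∀ w i, ((vec (α w) i : ℤ) : ZMod m) = ((vec (β w) i : ℤ) : ZMod m) := by
    intro w i
    have h2 := congrFun (DFunLike.congr_fun (h w) (0 : Fin 2 → ZMod m)) i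
    have h3 : ((vec (α w) i : ℤ) : ZMod m) + 0 = ((vec (β w) i : ℤ) : ZMod m) + 0 := h2
    rwa [add_zero, add_zero] at h3
  apply Units.ext
  ext i j
  have h2 := h1 (FreeGroup.of j) i
  rw [AM_vec, AM_vec, vec_of, Matrix.mulVec_single_one, Matrix.mulVec_single_one] at h2
  exact h2

/-- the groups in the genus of `Γ` -/
theorem lamD {D : Subgroup (GL (Fin 2) ℤ)} {B : GL (Fin 2) ℤ} (hB : B ∈ D)
    (hd : B.val.det = 1) (ht : 3 ≤ |B.val.trace|) (hi : (Subgroup.zpowers B).relIndex D ≠ 0)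
    (Λ : Type) [Group Λ] (hfp : Group.IsFinitelyPresented Λ) (hΛ : LF.LERF Λ)
    (h : SameFiniteQuotients Λ (Pre D)) :
    ∃ (D' : Subgroup (GL (Fin 2) ℤ)) (B' : GL (Fin 2) ℤ), B' ∈ D' ∧ B'.val.det = 1 ∧
      B'.val.trace = B.val.trace ∧ LF.cont B'.val = LF.cont B.val ∧
      (Subgroup.zpowers B').relIndex D' = (Subgroup.zpowers B).relIndex D ∧
      (∀ m : ℕ, 0 < m → ∃ M : GL (Fin 2) (ZMod m),
        (D'.map (F2X.red m)).map (MulAut.conj M).toMonoidHom = D.map (F2X.red m)) ∧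
      Nonempty (Λ ≃* Pre D') := by
  obtain ⟨Γ₀, hn, β, e, hβ, hΓm, hΓz, hec, hidx⟩ := gamD hB hd ht hi
  have hdet : ((AM β).val - 1).det ≠ 0 := by
    have h3 : ∀ M : Matrix (Fin 2) (Fin 2) ℤ, (M - 1).det = M.det - M.trace + 1 := fun M => by
      rw [Matrix.det_fin_two, Matrix.det_fin_two, Matrix.trace_fin_two]
      simp
      ring
    rw [h3, hβ, hd]
    intro h4
    have h5 : B.val.trace = 2 := by linarith
    rw [h5] at ht
    norm_num at ht
  have hΓfi : Γ₀.FiniteIndex := ⟨by rw [hidx]; exact hi⟩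
  have hΛfg : Group.FG Λ := LF.fg_of_fp Λ hfp
  have hfgF : Group.FG F := inferInstance
  have hkF : (nA β).ker.FG := by
    have hk : (nA β).ker = (iA β).range := by
      ext x
      constructor
      · intro hx
        obtain ⟨w, rfl⟩ := GA_ker β x hx
        exact ⟨w, rfl⟩
      · rintro ⟨w, rfl⟩
        exact nA_iA β w
    rw [hk]
    exact (Group.fg_iff_subgroup_fg _).1 (Group.fg_of_surjective (f := (iA β).rangeRestrict)
      (MonoidHom.rangeRestrict_surjective _))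
  have hGA : Group.FG (GA β) := LF.fg_of_ker (nA β) (nA_surjective β) hkF
  have hΓ₀ : Group.FG Γ₀ := Group.fg_of_surjective (f := e.symm.toMonoidHom) e.symm.surjective
  have hΓfg : Group.FG (Pre D) := fg_of_sub Γ₀ hΓ₀
  have hfin : Finite (Pre D ⧸ Γ₀) := Subgroup.finite_quotient_of_finiteIndex
  obtain ⟨Φ⟩ := exists_natBij h
  obtain ⟨π, hπd⟩ : ∃ π : Λ →* Pre D ⧸ Γ₀, π = Φ.invFun _ (QuotientGroup.mk' Γ₀) := ⟨_, rfl⟩
  have hπ : Φ.toFun _ π = QuotientGroup.mk' Γ₀ := by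
    rw [hπd]
    exact Φ.right_inv _ _
  have hπs : Function.Surjective π := by
    rw [← MonoidHom.range_eq_top, ← Φ.range_eq, hπ, MonoidHom.range_eq_top]
    exact QuotientGroup.mk'_surjective Γ₀
  have hA : π.ker = (⊥ : Subgroup (Pre D ⧸ Γ₀)).comap π := (MonoidHom.comap_bot π).symm
  have hBot : Γ₀ = (⊥ : Subgroup (Pre D ⧸ Γ₀)).comap (QuotientGroup.mk' Γ₀) := by
    rw [MonoidHom.comap_bot, QuotientGroup.ker_mk']
  obtain ⟨Ψ, hΨ⟩ := exists_Psi Φ hπ hA hBot
  have hfi : π.ker.FiniteIndex := Subgroup.finiteIndex_ker π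
  have hfp0 : Group.IsFinitelyPresented π.ker := fp_of_finiteIndex hfp π.ker
  have hL0 : LF.LERF π.ker := lerf_sub hΛ π.ker
  obtain ⟨γ, ⟨e'⟩, k1, k2, k3⟩ := LF.bundles β hdet π.ker hfp0 hL0 (same_equiv e (same_natBij Ψ))
  have hgd : (AM γ).val.det = 1 := by rw [k1, hβ, hd]
  have hgt : 3 ≤ |(AM γ).val.trace| := by rw [k2, hβ]; exact ht
  have hgdet : ((AM γ).val - 1).det ≠ 0 := by
    have h3 : ∀ M : Matrix (Fin 2) (Fin 2) ℤ, (M - 1).det = M.det - M.trace + 1 := fun M => by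
      rw [Matrix.det_fin_two, Matrix.det_fin_two, Matrix.trace_fin_two]
      simp
      ring
    rw [h3, hgd]
    intro h4
    have h5 : (AM γ).val.trace = 2 := by linarith
    rw [h5] at hgt
    norm_num at hgt
  -- the normal free subgroup
  let j : F →* Λ := π.ker.subtype.comp (e'.symm.toMonoidHom.comp (iA γ))
  have hj : ∀ w, j w = ((e'.symm (iA γ w) : π.ker) : Λ) := fun w => rfl
  have hji : Function.Injective j := by
    intro a b hab
    exact iA_injective γ (e'.symm.injective (Subtype.ext hab))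
  have hdeg0 : ∀ x : π.ker, nA γ (e' x) = 1 → ∃ w, (x : Λ) = j w := by
    intro x hx
    obtain ⟨w, hw⟩ := GA_ker γ _ hx
    exact ⟨w, by rw [hj, ← hw, MulEquiv.symm_apply_apply]⟩
  have hconj1 : ∀ (l : Λ) (x : π.ker), nA γ (e' x) = 1 →
      nA γ (e' (MulAut.conjNormal l x)) = 1 := by
    intro l x hx
    have h1 := LF.p_E6 γ hgdet ((nA γ).comp (e'.toMonoidHom.comp
      ((MulAut.conjNormal l : MulAut π.ker).toMonoidHom.comp e'.symm.toMonoidHom)))
      (show e' x ∈ (nA γ).ker from hx)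
    have h2 : nA γ (e' (MulAut.conjNormal l (e'.symm (e' x)))) = 1 := h1
    rwa [MulEquiv.symm_apply_apply] at h2
  have hN : j.range.Normal := by
    refine ⟨?_⟩
    rintro _ ⟨w, rfl⟩ l
    have h1 : nA γ (e' (MulAut.conjNormal l (e'.symm (iA γ w)))) = 1 := hconj1 l _ (by
      rw [MulEquiv.apply_symm_apply, nA_iA])
    obtain ⟨v, hv⟩ := hdeg0 _ h1
    exact ⟨v, hv.symm⟩
  let eN : j.range ≃* F := (MonoidHom.ofInjective hji).symm
  have heN : ∀ w, ((eN.symm w : j.range) : Λ) = j w := fun w => rfl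
  -- conjugation
  have hcj : ∀ (l : Λ) (w : F), l * j w * l⁻¹ = j (cj eN l w) := by
    intro l w
    rw [← heN (cj eN l w), F2X.cj_apply, MulEquiv.symm_apply_apply, MulAut.conjNormal_apply, heN]
  let t : Λ := ((e'.symm (tA γ) : π.ker) : Λ)
  have htk : t ∈ π.ker := (e'.symm (tA γ)).2
  have htj : ∀ w, t * j w * t⁻¹ = j (γ w) := by
    intro w
    rw [hj, hj, ← tA_conj, map_mul, map_mul, map_inv]
    rfl
  have hcjt : cj eN t = γ := by
    ext w
    apply hji
    rw [← hcj, htj]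
  have hTt : Th eN t = AM γ := by rw [Th_apply, hcjt]
  have hform : ∀ x : π.ker, ∃ (w : F) (n : ℤ), (x : Λ) = j w * t ^ n ∧
      nA γ (e' x) = Multiplicative.ofAdd n := by
    intro x
    obtain ⟨w, n, hx⟩ := GA_cases γ (e' x)
    refine ⟨w, n, ?_, ?_⟩
    · have h2 : x = e'.symm (iA γ w) * (e'.symm (tA γ)) ^ n := by
        rw [← map_zpow, ← map_mul, ← hx, MulEquiv.symm_apply_apply]
      conv_lhs => rw [h2]
      rfl
    · rw [hx, map_mul, map_zpow, nA_iA, nA_tA, one_mul, ← ofAdd_zsmul]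
      simp
  have hT0 : ∀ x : π.ker, Th eN (x : Λ) = AM γ ^ (Multiplicative.toAdd (nA γ (e' x))) := by
    intro x
    obtain ⟨w, n, h1, h2⟩ := hform x
    rw [h1, map_mul, map_zpow, hTt, Th_mem' eN (j w) ⟨w, rfl⟩, one_mul, h2, toAdd_ofAdd]
  -- the main point
  have hmain : ∀ l, Th eN l = 1 → l ∈ π.ker := by
    intro l hl
    obtain ⟨n₀, hn₀⟩ := all_out (cj eN l) hl
    -- `u = (j n₀)⁻¹ l` centralises `π.ker`
    have hu : ∀ w, ((j n₀)⁻¹ * l) * j w * ((j n₀)⁻¹ * l)⁻¹ = j w := by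
      intro w
      have h1 := hcj l w
      rw [hn₀, MulAut.conj_apply, map_mul, map_mul, map_inv] at h1
      calc ((j n₀)⁻¹ * l) * j w * ((j n₀)⁻¹ * l)⁻¹ = (j n₀)⁻¹ * (l * j w * l⁻¹) * j n₀ := by group
        _ = j w := by rw [h1]; group
    obtain ⟨u, hud⟩ : ∃ u, u = (j n₀)⁻¹ * l := ⟨_, rfl⟩
    rw [← hud] at hu
    have hlu : l = j n₀ * u := by rw [hud]; group
    have hTu : Th eN u = 1 := by
      rw [hud, map_mul, map_inv, Th_mem' eN (j n₀) ⟨n₀, rfl⟩, hl]
      simp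
    have hut : u * t * u⁻¹ = t := by
      have h1 : t⁻¹ * (u * t * u⁻¹) ∈ π.ker := by
        refine mul_mem (inv_mem htk) ?_
        exact (inferInstance : π.ker.Normal).conj_mem t htk u
      have h2 := hT0 ⟨_, h1⟩
      have h3 : Th eN (t⁻¹ * (u * t * u⁻¹)) = 1 := by
        simp only [map_mul, map_inv, hTu, hTt]
        group
      have h4 : AM γ ^ (Multiplicative.toAdd (nA γ (e' ⟨_, h1⟩))) = 1 := by
        rw [← h2]
        exact h3
      have h5 := hyp_inj hgd hgt h4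
      obtain ⟨w, hw⟩ := hdeg0 ⟨_, h1⟩ (Multiplicative.toAdd.injective h5)
      have hw' : t⁻¹ * (u * t * u⁻¹) = j w := hw
      have h6 : w = 1 := by
        apply p_cen w
        intro v
        apply hji
        -- both sides: conjugation with `t⁻¹ u t u⁻¹`
        have h7 : (t⁻¹ * (u * t * u⁻¹)) * j v * (t⁻¹ * (u * t * u⁻¹))⁻¹ = j v := by
          have h8 : u⁻¹ * j v * u = j v := by
            have := hu v
            calc u⁻¹ * j v * u = u⁻¹ * (u * j v * u⁻¹) * u := by rw [this]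
              _ = j v := by group
          calc (t⁻¹ * (u * t * u⁻¹)) * j v * (t⁻¹ * (u * t * u⁻¹))⁻¹
              = t⁻¹ * (u * (t * (u⁻¹ * j v * u) * t⁻¹) * u⁻¹) * t := by group
            _ = t⁻¹ * (t * j v * t⁻¹) * t := by rw [h8, htj, hu]
            _ = j v := by group
        rw [hw'] at h7
        rw [map_mul, map_mul]
        calc j w * j v = (j w * j v * (j w)⁻¹) * j w := by group
          _ = j v * j w := by rw [h7]
      rw [h6, map_one] at hw'
      calc u * t * u⁻¹ = t * (t⁻¹ * (u * t * u⁻¹)) := by group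
        _ = t := by rw [hw', mul_one]
    have hux : ∀ x : π.ker, u * (x : Λ) * u⁻¹ = x := by
      intro x
      obtain ⟨w, n, h1, -⟩ := hform x
      have h2 : u * t ^ n * u⁻¹ = t ^ n := by rw [← conj_zpow, hut]
      rw [h1]
      calc u * (j w * t ^ n) * u⁻¹ = (u * j w * u⁻¹) * (u * t ^ n * u⁻¹) := by group
        _ = j w * t ^ n := by rw [hu, h2]
    have hlx : ∀ x : π.ker, l * (x : Λ) * l⁻¹ = j n₀ * x * (j n₀)⁻¹ := by
      intro x
      rw [hlu]
      calc j n₀ * u * (x : Λ) * (j n₀ * u)⁻¹ = j n₀ * (u * (x : Λ) * u⁻¹) * (j n₀)⁻¹ := by group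
        _ = _ := by rw [hux]
    -- the element `y` of `Γ`
    obtain ⟨y, hy⟩ := QuotientGroup.mk'_surjective Γ₀ (π l)
    have hstar : ∀ (P : Type) [Group P] [Finite P] (ψ' : Γ₀ →* P), ∃ b₀ : Γ₀, ∀ b : Γ₀,
        ψ' (MulAut.conjNormal y b) = ψ' (b₀ * b * b₀⁻¹) := by
      intro P _ _ ψ'
      obtain ⟨ψ, hψ⟩ := Ψ.surjective P ψ'
      have hc := hΨ P ψ
      rw [hψ] at hc
      obtain ⟨E, _, _, θ, hθ⟩ := hc
      obtain ⟨l₂, g1, g2⟩ := pair_val Φ θ π y
      have ha : l₂ * l⁻¹ ∈ π.ker := by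
        rw [MonoidHom.mem_ker, map_mul, map_inv, g2, hπ, hy, mul_inv_cancel]
      have hjn : j n₀ ∈ π.ker := (e'.symm (iA γ n₀)).2
      let a : π.ker := ⟨l₂ * l⁻¹, ha⟩ * ⟨j n₀, hjn⟩
      -- the element `b₀`
      obtain ⟨b₀, q1, q2⟩ := pair_val Φ.symm (Φ.toFun E θ) (QuotientGroup.mk' Γ₀) (a : Λ)
      have hsy : Φ.symm.toFun E (Φ.toFun E θ) = θ := Φ.left_inv E θ
      have hsπ : Φ.symm.toFun _ (QuotientGroup.mk' Γ₀) = π := by
        rw [← hπ]
        exact Φ.left_inv _ π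
      rw [hsy] at q1
      rw [hsπ] at q2
      have hb₀ : b₀ ∈ Γ₀ := by
        rw [← QuotientGroup.eq_one_iff]
        have : (QuotientGroup.mk' Γ₀) b₀ = 1 := by
          rw [q2]
          exact a.2
        exact this
      refine ⟨⟨b₀, hb₀⟩, fun b => ?_⟩
      obtain ⟨x, r1, r2⟩ := pair_val Φ θ π (b : Pre D)
      have hx : x ∈ π.ker := by
        rw [MonoidHom.mem_ker, r2, hπ]
        exact (QuotientGroup.eq_one_iff _).2 b.2
      have s1 : ψ ⟨x, hx⟩ = ψ' b := hθ ⟨x, hx⟩ b r1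
      have s2 : ψ a = ψ' ⟨b₀, hb₀⟩ := hθ a ⟨b₀, hb₀⟩ q1.symm
      have hx2 : l₂ * x * l₂⁻¹ ∈ π.ker := (inferInstance : π.ker.Normal).conj_mem x hx l₂
      have s3 : ψ ⟨l₂ * x * l₂⁻¹, hx2⟩ = ψ' (MulAut.conjNormal y b) := by
        apply hθ
        show θ (l₂ * x * l₂⁻¹) = Φ.toFun E θ (y * b * y⁻¹)
        rw [map_mul, map_mul, map_inv, map_mul, map_mul, map_inv, g1, r1]
      have s4 : (⟨l₂ * x * l₂⁻¹, hx2⟩ : π.ker) = a * ⟨x, hx⟩ * a⁻¹ := by
        apply Subtype.ext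
        show l₂ * x * l₂⁻¹ = l₂ * l⁻¹ * j n₀ * x * (l₂ * l⁻¹ * j n₀)⁻¹
        have s5 := hlx ⟨x, hx⟩
        have s6 : j n₀ * x * (j n₀)⁻¹ = l * x * l⁻¹ := s5.symm
        calc l₂ * x * l₂⁻¹ = l₂ * l⁻¹ * (l * x * l⁻¹) * (l₂ * l⁻¹)⁻¹ := by group
          _ = l₂ * l⁻¹ * (j n₀ * x * (j n₀)⁻¹) * (l₂ * l⁻¹)⁻¹ := by rw [s6]
          _ = _ := by group
      have s7 : ψ (a * ⟨x, hx⟩ * a⁻¹) = ψ a * ψ ⟨x, hx⟩ * (ψ a)⁻¹ := by
        rw [map_mul, map_mul, map_inv]
      rw [← s3, s4, s7, s1, s2, map_mul, map_mul, map_inv]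
    have hsep : ∀ m : ℕ, 0 < m → ∃ k : ℤ, F2X.red m (AM (y : MulAut F)) = F2X.red m B ^ k := by
      intro m hm
      have : NeZero m := ⟨by omega⟩
      have hfinP : Finite (Equiv.Perm (Fin 2 → ZMod m)) := inferInstance
      let ψ' : Γ₀ →* Equiv.Perm (Fin 2 → ZMod m) :=
        (liftA (trl m) (lin m (F2X.red m (AM β))) (trl_conj m β)).comp e.toMonoidHom
      have hψc : ∀ (v : F) (b : Γ₀), ((b : Pre D) : MulAut F) = MulAut.conj v → ψ' b = trl m v := by
        intro v b hb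
        have h1 : b = e.symm (iA β v) := by
          apply Subtype.ext
          apply Subtype.ext
          rw [hb, hec]
        show liftA (trl m) (lin m (F2X.red m (AM β))) (trl_conj m β) (e b) = trl m v
        rw [h1, MulEquiv.apply_symm_apply]
        exact liftA_iA _ _ _ v
      obtain ⟨b₀, hb₀⟩ := hstar _ ψ'
      obtain ⟨k, hk⟩ := Subgroup.mem_zpowers_iff.1 (hΓz b₀)
      refine ⟨k, ?_⟩
      rw [← map_zpow, hk]
      apply red_of_trl
      intro w
      have h1 := hb₀ (e.symm (iA β w))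
      rw [hψc ((y : MulAut F) w) _ ?_, hψc (((b₀ : Pre D) : MulAut F) w) _ ?_] at h1
      · exact h1
      · show ((b₀ : Pre D) : MulAut F) * (((e.symm (iA β w) : Γ₀) : Pre D) : MulAut F) *
          ((b₀ : Pre D) : MulAut F)⁻¹ = _
        rw [hec, mul_conj]
      · show (y : MulAut F) * (((e.symm (iA β w) : Γ₀) : Pre D) : MulAut F) * (y : MulAut F)⁻¹ = _
        rw [hec, mul_conj]
    obtain ⟨n, hn1, -, hn2⟩ := Subgroup.exists_pow_mem_of_relIndex_ne_zero hi
      (a := AM (y : MulAut F)) y.2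
    obtain ⟨i, hi'⟩ := Subgroup.mem_zpowers_iff.1 hn2.1
    obtain ⟨k, hk⟩ := sep hd ht hn1 hi'.symm hsep
    have hyΓ : y ∈ Γ₀ := by
      rw [hΓm, hk]
      exact Subgroup.zpow_mem_zpowers _ _
    rw [MonoidHom.mem_ker, ← hy]
    exact (QuotientGroup.eq_one_iff y).2 hyΓ
  have hkT : ∀ l, Th eN l = 1 → l ∈ j.range := by
    intro l hl
    have h1 := hmain l hl
    have h2 := hT0 ⟨l, h1⟩
    have h3 : AM γ ^ (Multiplicative.toAdd (nA γ (e' ⟨l, h1⟩))) = 1 := by
      rw [← h2]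
      exact hl
    have h4 := hyp_inj hgd hgt h3
    obtain ⟨w, hw⟩ := hdeg0 ⟨l, h1⟩ (Multiplicative.toAdd.injective h4)
    exact ⟨w, hw.symm⟩
  have hcomap : (Subgroup.zpowers (AM γ)).comap (Th eN) = π.ker := by
    ext l
    constructor
    · intro hl
      obtain ⟨k, hk⟩ := Subgroup.mem_zpowers_iff.1 hl
      have h1 : Th eN (l * (t ^ k)⁻¹) = 1 := by
        rw [map_mul, map_inv, map_zpow, hTt, hk, mul_inv_cancel]
      have h2 := hmain _ h1
      have h3 : l = l * (t ^ k)⁻¹ * t ^ k := by group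
      rw [h3]
      exact mul_mem h2 (zpow_mem htk k)
    · intro hl
      show Th eN l ∈ Subgroup.zpowers (AM γ)
      rw [hT0 ⟨l, hl⟩]
      exact Subgroup.zpow_mem_zpowers _ _
  -- the classes
  have hloc : ∀ m : ℕ, 0 < m → ∃ M : GL (Fin 2) (ZMod m),
      ((Th eN).range.map (F2X.red m)).map (MulAut.conj M).toMonoidHom = D.map (F2X.red m) := by
    intro m hm
    have : NeZero m := ⟨by omega⟩
    have hfinP : Finite (Equiv.Perm (Fin 2 → ZMod m)) := inferInstance
    have hc : Function.Surjective ((nA β).comp e.toMonoidHom) :=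
      (nA_surjective β).comp e.surjective
    have hb : ∀ f : Γ₀ →* Multiplicative ℤ, ((nA β).comp e.toMonoidHom).ker ≤ f.ker := by
      intro f x hx
      have h1 := LF.p_E6 β hdet (f.comp e.symm.toMonoidHom) (show e x ∈ (nA β).ker from hx)
      have h2 : f (e.symm (e x)) = 1 := h1
      rwa [MulEquiv.symm_apply_apply] at h2
    have hΛ₀fg : Group.FG π.ker := Subgroup.fg_of_index_ne_zero π.ker
    obtain ⟨χ, hχ, hM⟩ := LF.p_C1 π.ker Γ₀ Ψ ((nA β).comp e.toMonoidHom) hc hb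
    have hmm := LF.p_C2 π.ker Γ₀ Ψ χ ((nA β).comp e.toMonoidHom) hχ hc hM
    have hχ1 : ∀ w, χ (e'.symm (iA γ w)) = 1 := by
      intro w
      exact LF.p_E6 γ hgdet (χ.comp e'.symm.toMonoidHom)
        (show iA γ w ∈ (nA γ).ker from nA_iA γ w)
    have hdec : ∀ x : π.ker, ∃ (w : F) (n : ℤ), x = e'.symm (iA γ w) * (e'.symm (tA γ)) ^ n := by
      intro x
      obtain ⟨w, n, hx'⟩ := GA_cases γ (e' x)
      exact ⟨w, n, by rw [← map_zpow, ← map_mul, ← hx', MulEquiv.symm_apply_apply]⟩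
    have hχt : χ (e'.symm (tA γ)) ≠ 1 := by
      intro h1
      obtain ⟨x, hx⟩ := hχ (Multiplicative.ofAdd 1)
      obtain ⟨w, n, h2⟩ := hdec x
      rw [h2, map_mul, map_zpow, hχ1, h1, one_zpow, mul_one] at hx
      exact absurd (congrArg Multiplicative.toAdd hx) (by simp)
    have hχk : ∀ x : π.ker, χ x = 1 → ∃ w, x = e'.symm (iA γ w) := by
      intro x hx
      obtain ⟨w, n, h2⟩ := hdec x
      rw [h2, map_mul, map_zpow, hχ1, one_mul] at hx
      have h3 : n = 0 := by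
        by_contra hn
        apply hχt
        have h4 := congrArg Multiplicative.toAdd hx
        rw [toAdd_zpow, toAdd_one] at h4
        have h5 := (smul_eq_zero.1 h4).resolve_left hn
        exact Multiplicative.toAdd.injective h5
      exact ⟨w, by rw [h2, h3, zpow_zero, mul_one]⟩
    have hf1 : ∀ (Q : Type) [Group Q] [Finite Q] (ψ : π.ker →* Q) (w : F), ∃ v : F,
        (Ψ.toFun Q ψ) (e.symm (iA β v)) = ψ (e'.symm (iA γ w)) := by
      intro Q _ _ ψ w
      have h1 : ψ (e'.symm (iA γ w)) ∈ χ.ker.map ψ := ⟨_, hχ1 w, rfl⟩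
      rw [hmm] at h1
      obtain ⟨b, hb1, hb2⟩ := h1
      obtain ⟨v, hv⟩ := GA_ker β (e b) hb1
      refine ⟨v, ?_⟩
      rw [← hv, MulEquiv.symm_apply_apply, hb2]
    have hf2 : ∀ (Q : Type) [Group Q] [Finite Q] (ψ : π.ker →* Q) (v : F), ∃ w : F,
        ψ (e'.symm (iA γ w)) = (Ψ.toFun Q ψ) (e.symm (iA β v)) := by
      intro Q _ _ ψ v
      have h1 : (Ψ.toFun Q ψ) (e.symm (iA β v)) ∈
          ((nA β).comp e.toMonoidHom).ker.map (Ψ.toFun Q ψ) := by
        refine ⟨_, ?_, rfl⟩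
        show nA β (e (e.symm (iA β v))) = 1
        rw [MulEquiv.apply_symm_apply, nA_iA]
      rw [← hmm] at h1
      obtain ⟨x, hx1, hx2⟩ := h1
      obtain ⟨w, rfl⟩ := hχk x hx1
      exact ⟨w, hx2⟩
    -- the homomorphism
    obtain ⟨ψ', hψ'⟩ : ∃ ψ' : Γ₀ →* Equiv.Perm (Fin 2 → ZMod m),
        ∀ v, ψ' (e.symm (iA β v)) = trl m v := by
      refine ⟨(liftA (trl m) (lin m (F2X.red m (AM β))) (trl_conj m β)).comp e.toMonoidHom,
        fun v => ?_⟩
      show liftA (trl m) (lin m (F2X.red m (AM β))) (trl_conj m β) (e (e.symm (iA β v))) = trl m v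
      rw [MulEquiv.apply_symm_apply]
      exact liftA_iA _ _ _ v
    obtain ⟨ψ, hψ⟩ := Ψ.surjective _ ψ'
    have hcor := hΨ _ ψ
    rw [hψ] at hcor
    obtain ⟨E, _, _, θ, hθ⟩ := hcor
    -- the matrix
    have hcol : ∀ i : Fin 2, ∃ v : F, ψ (e'.symm (iA γ (FreeGroup.of i))) = trl m v := by
      intro i
      obtain ⟨v, hv⟩ := hf1 _ ψ (FreeGroup.of i)
      exact ⟨v, by rw [← hv, hψ, hψ']⟩
    choose v hv using hcol
    obtain ⟨M, hMd⟩ : ∃ M : Matrix (Fin 2) (Fin 2) (ZMod m),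
        M = Matrix.of fun i k => ((vec (v k) i : ℤ) : ZMod m) := ⟨_, rfl⟩
    have hMw : ∀ w, ψ (e'.symm (iA γ w)) =
        Equiv.addLeft (M.mulVec fun i => ((vec w i : ℤ) : ZMod m)) := by
      let g1 : F →* Equiv.Perm (Fin 2 → ZMod m) := ψ.comp (e'.symm.toMonoidHom.comp (iA γ))
      let g2 : F →* Equiv.Perm (Fin 2 → ZMod m) :=
        { toFun := fun w => Equiv.addLeft (M.mulVec fun i => ((vec w i : ℤ) : ZMod m))
          map_one' := by
            ext u i
            have h0 : (fun i => ((vec (1 : F) i : ℤ) : ZMod m)) = 0 := by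
              ext i
              rw [vec_one]
              simp
            rw [h0, Matrix.mulVec_zero]
            simp
          map_mul' := fun a b => by
            have h0 : (fun i => ((vec (a * b) i : ℤ) : ZMod m)) =
                (fun i => ((vec a i : ℤ) : ZMod m)) + (fun i => ((vec b i : ℤ) : ZMod m)) := by
              ext i
              rw [vec_mul]
              simp
            ext u : 1
            show (M.mulVec fun i => ((vec (a * b) i : ℤ) : ZMod m)) + u =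
              (M.mulVec fun i => ((vec a i : ℤ) : ZMod m)) +
                ((M.mulVec fun i => ((vec b i : ℤ) : ZMod m)) + u)
            rw [h0, Matrix.mulVec_add, add_assoc] }
      have hg : g1 = g2 := by
        ext i : 1
        show ψ (e'.symm (iA γ (FreeGroup.of i))) =
          Equiv.addLeft (M.mulVec fun k => ((vec (FreeGroup.of i) k : ℤ) : ZMod m))
        rw [hv i]
        have h0 : (fun k => ((vec (FreeGroup.of i) k : ℤ) : ZMod m)) = Pi.single i 1 := by
          ext k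
          rw [vec_of, Pi.single_apply, Pi.single_apply]
          split_ifs <;> simp
        rw [h0, Matrix.mulVec_single_one, hMd]
        rfl
      intro w
      exact DFunLike.congr_fun hg w
    have hMe : ∀ w v : F, ψ (e'.symm (iA γ w)) = ψ' (e.symm (iA β v)) →
        (M.mulVec fun i => ((vec w i : ℤ) : ZMod m)) = fun i => ((vec v i : ℤ) : ZMod m) := by
      intro w v h1
      rw [hMw, hψ'] at h1
      have h2 := DFunLike.congr_fun h1 (0 : Fin 2 → ZMod m)
      have h3 : (M.mulVec fun i => ((vec w i : ℤ) : ZMod m)) + 0 =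
        (fun i => ((vec v i : ℤ) : ZMod m)) + 0 := h2
      rwa [add_zero, add_zero] at h3
    have hM1 : ∀ k : Fin 2, ∃ w : F, (M.mulVec fun i => ((vec w i : ℤ) : ZMod m)) =
        Pi.single k 1 := by
      intro k
      obtain ⟨w, hw⟩ := hf2 _ ψ (FreeGroup.of k)
      rw [hψ] at hw
      refine ⟨w, ?_⟩
      rw [hMe w _ hw]
      ext i
      rw [vec_of, Pi.single_apply, Pi.single_apply]
      split_ifs <;> simp
    choose r hr using hM1
    obtain ⟨N, hNd⟩ : ∃ N : Matrix (Fin 2) (Fin 2) (ZMod m),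
        N = Matrix.of fun i k => ((vec (r k) i : ℤ) : ZMod m) := ⟨_, rfl⟩
    have hMN : M * N = 1 := by
      ext i k
      have h1 := congrFun (hr k) i
      rw [Pi.single_apply] at h1
      rw [Matrix.one_apply, ← h1, hNd]
      rfl
    obtain ⟨U, hU⟩ : ∃ U : GL (Fin 2) (ZMod m), U.val = M :=
      ⟨⟨M, N, hMN, mul_eq_one_comm.1 hMN⟩, rfl⟩
    -- the main point
    have hcomm : ∀ (l : Λ) (y : Pre D), θ l = Φ.toFun E θ y →
        U * F2X.red m (Th eN l) * U⁻¹ = F2X.red m (AM (y : MulAut F)) := by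
      intro l y hly
      have hcu : Ψ.toFun E (θ.comp π.ker.subtype) = (Φ.toFun E θ).comp Γ₀.subtype :=
        cor_unique Φ hπ hA hBot (hΨ E _) ⟨E, inferInstance, inferInstance, θ, fun _ _ h => h⟩
      have hw : ∀ w : F, (M.mulVec fun i => ((vec (cj eN l w) i : ℤ) : ZMod m)) =
          (F2X.red m (AM (y : MulAut F))).val.mulVec
            (M.mulVec fun i => ((vec w i : ℤ) : ZMod m)) := by
        intro w
        obtain ⟨v, hv⟩ := hf1 E (θ.comp π.ker.subtype) w
        rw [hcu] at hv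
        have hv' : Φ.toFun E θ ((e.symm (iA β v) : Γ₀) : Pre D) =
          θ ((e'.symm (iA γ w) : π.ker) : Λ) := hv
        have k1 := hMe w v (hθ (e'.symm (iA γ w)) (e.symm (iA β v)) hv'.symm)
        have hmemL : l * ((e'.symm (iA γ w) : π.ker) : Λ) * l⁻¹ =
          ((e'.symm (iA γ (cj eN l w)) : π.ker) : Λ) := hcj l w
        have hmemR : y * ((e.symm (iA β v) : Γ₀) : Pre D) * y⁻¹ =
            ((e.symm (iA β ((y : MulAut F) v)) : Γ₀) : Pre D) := by
          apply Subtype.ext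
          show (y : MulAut F) * (((e.symm (iA β v) : Γ₀) : Pre D) : MulAut F) *
            (y : MulAut F)⁻¹ = _
          rw [hec, hec, mul_conj]
        have k2 := hMe (cj eN l w) ((y : MulAut F) v) (hθ _ _ (by
          rw [← hmemL, ← hmemR, map_mul, map_mul, map_inv, map_mul, map_mul, map_inv, hv', hly]))
        rw [k2, k1, AM_vec, red_mulVec]
      have hmat : M * (F2X.red m (Th eN l)).val = (F2X.red m (AM (y : MulAut F))).val * M := by
        ext i k
        have h1 := congrFun (hw (FreeGroup.of k)) i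
        have h0 : (fun j => ((vec (FreeGroup.of k) j : ℤ) : ZMod m)) = Pi.single k 1 := by
          ext j
          rw [vec_of, Pi.single_apply, Pi.single_apply]
          split_ifs <;> simp
        have h2 : (fun i => ((vec (cj eN l (FreeGroup.of k)) i : ℤ) : ZMod m)) =
            (F2X.red m (Th eN l)).val.mulVec (Pi.single k 1) := by
          rw [AM_vec, ← h0, red_mulVec, Th_apply]
        rw [h2, h0, Matrix.mulVec_mulVec, Matrix.mulVec_mulVec, Matrix.mulVec_single_one,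
          Matrix.mulVec_single_one] at h1
        exact h1
      have hmat' : U * F2X.red m (Th eN l) = F2X.red m (AM (y : MulAut F)) * U := by
        apply Units.ext
        rw [Units.val_mul, Units.val_mul, hU]
        exact hmat
      rw [hmat', mul_inv_cancel_right]
    refine ⟨U, ?_⟩
    ext Z
    constructor
    · rintro ⟨_, ⟨_, ⟨l, rfl⟩, rfl⟩, rfl⟩
      obtain ⟨y, q1, -⟩ := pair_val Φ.symm (Φ.toFun E θ) (Φ.toFun E θ) l
      have hsy : Φ.symm.toFun E (Φ.toFun E θ) = θ := Φ.left_inv E θ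
      rw [hsy] at q1
      exact ⟨AM (y : MulAut F), y.2, (hcomm l y q1.symm).symm⟩
    · rintro ⟨X, hX, rfl⟩
      obtain ⟨y, rfl⟩ := p_sur X
      obtain ⟨l, r1, -⟩ := pair_val Φ θ θ (⟨y, hX⟩ : Pre D)
      exact ⟨F2X.red m (Th eN l), ⟨Th eN l, ⟨l, rfl⟩, rfl⟩, hcomm l ⟨y, hX⟩ r1⟩
  refine ⟨(Th eN).range, AM γ, ⟨t, hTt⟩, hgd, by rw [k2, hβ], by rw [k3, hβ], ?_, hloc,
    ext_iso eN hkT⟩
  rw [← Subgroup.index_comap, hcomap, ← hidx, index_ker_eq π hπs]
  rfl

end Pool.Agent.VFib
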