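import Mathlib

set_option autoImplicit false

namespace Pool.Agent.VFib

private lemma fin_box (M : ℤ) :
    {Z : GL (Fin 2) ℤ | ∀ i j, |Z.val i j| ≤ M}.Finite := by
  have h1 : (Set.pi Set.univ (fun _ : Fin 2 => Set.pi Set.univ
      (fun _ : Fin 2 => Set.Icc (-M) M)) : Set (Fin 2 → Fin 2 → ℤ)).Finite :=
    Set.Finite.pi' (fun _ => Set.Finite.pi' (fun _ => Set.finite_Icc _ _)) |>.subset (by
      intro f hf
      simp only [Set.mem_pi, Set.mem_univ, true_imp_iff] at hf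
      exact fun i => fun j => hf i j)
  have hinj : Function.Injective (fun Z : GL (Fin 2) ℤ => (fun i j => Z.val i j : Fin 2 → Fin 2 → ℤ)) := by
    intro Z W h
    apply Units.ext
    ext i j
    exact congrFun (congrFun h i) j
  refine (h1.preimage (f := fun Z : GL (Fin 2) ℤ => (fun i j => Z.val i j : Fin 2 → Fin 2 → ℤ))
    hinj.injOn).subset ?_
  intro Z hZ
  simp only [Set.mem_preimage, Set.mem_pi, Set.mem_univ, true_imp_iff]
  intro i j
  exact abs_le.1 (hZ i j)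

private lemma key_ineq (a b c d x q r y : ℤ) (hdet : a * d - b * c = 1) (ht : 3 ≤ |a + d|)
    (h1 : q * c = b * r) (h2 : (x - y) * b = (a - d) * q) (he : x * y - q * r = 1 ∨ x * y - q * r = -1)
    (m1 : |q| ≤ |x * b + q * d|) (m2 : |q| ≤ |x * (-b) + q * a|) : b ≠ 0 ∧ q ^ 2 ≤ b ^ 2 := by
  have hb : b ≠ 0 := by
    rintro rfl
    have had : a * d = 1 := by linarith
    rcases Int.eq_one_or_neg_one_of_mul_eq_one' had with ⟨ha, hd⟩ | ⟨ha, hd⟩
    · rw [ha, hd] at ht; norm_num at ht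
    · rw [ha, hd] at ht; norm_num at ht
  refine ⟨hb, ?_⟩
  have hsum : (x * b + q * d) + (x * (-b) + q * a) = (a + d) * q := by ring
  have hprod : ∀ e : ℤ, x * y - q * r = e →
      (x * b + q * d) * (x * (-b) + q * a) = q ^ 2 - e * b ^ 2 := by
    intro e hee
    have e1 : (x * b + q * d) * (x * (-b) + q * a)
        = -(x * b) * ((x * b)) + (x * b) * ((a - d) * q) + q ^ 2 * (a * d) := by ring
    have e2 : a * d = 1 + b * c := by linarith
    have e3 : x * y = e + q * r := by linarith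
    have e4 : -(x * b) * (x * b) + (x * b) * ((x - y) * b) = -(x * y) * b ^ 2 := by ring
    rw [e1, ← h2, e4, e2, e3]
    have e5 : -(e + q * r) * b ^ 2 + q ^ 2 * (1 + b * c)
        = q ^ 2 - e * b ^ 2 + q * b * (q * c - b * r) := by ring
    rw [e5, h1]; ring
  have hbp : 0 < b ^ 2 := by positivity
  rcases he with he | he
  · have hp := hprod 1 he
    by_contra hcon
    rw [not_le] at hcon
    have h3 : |q| * |q| ≤ |x * b + q * d| * |x * (-b) + q * a| :=
      mul_le_mul m1 m2 (abs_nonneg _) (abs_nonneg _)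
    rw [← abs_mul, ← abs_mul, hp] at h3
    have h4 : |q * q| = q ^ 2 := by rw [abs_of_nonneg (mul_self_nonneg q)]; ring
    have h5 : |q ^ 2 - 1 * b ^ 2| = q ^ 2 - b ^ 2 := by
      rw [one_mul]; exact abs_of_nonneg (by linarith)
    rw [h4, h5] at h3
    linarith
  · have hp := hprod (-1) he
    have hA : |x * b + q * d| * |x * (-b) + q * a| = q ^ 2 + b ^ 2 := by
      rw [← abs_mul, hp]
      rw [abs_of_nonneg (by nlinarith [sq_nonneg q])]
      ring
    have hS : 3 * |q| ≤ |x * b + q * d| + |x * (-b) + q * a| := by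
      calc 3 * |q| ≤ |a + d| * |q| := mul_le_mul_of_nonneg_right ht (abs_nonneg _)
        _ = |(x * b + q * d) + (x * (-b) + q * a)| := by rw [hsum, abs_mul]
        _ ≤ _ := abs_add_le _ _
    have hq : |q| * |q| = q ^ 2 := by rw [← abs_mul, abs_of_nonneg (mul_self_nonneg q)]; ring
    have hpp : 0 ≤ (|x * b + q * d| - |q|) * (|x * (-b) + q * a| - |q|) :=
      mul_nonneg (by linarith) (by linarith)
    have h7 : 0 ≤ |q| * (|x * b + q * d| + |x * (-b) + q * a| - 3 * |q|) :=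
      mul_nonneg (abs_nonneg _) (by linarith)
    nlinarith

private lemma entries (a b c d x q r y : ℤ) (hb : b ≠ 0) (hq : q ^ 2 ≤ b ^ 2)
    (h1 : q * c = b * r) (h2 : (x - y) * b = (a - d) * q)
    (he : x * y - q * r = 1 ∨ x * y - q * r = -1) :
    |x| ≤ (a - d) ^ 2 + 2 + 2 * |b * c| + |b| + |c| ∧ |q| ≤ (a - d) ^ 2 + 2 + 2 * |b * c| + |b| + |c| ∧
    |r| ≤ (a - d) ^ 2 + 2 + 2 * |b * c| + |b| + |c| ∧ |y| ≤ (a - d) ^ 2 + 2 + 2 * |b * c| + |b| + |c| := by
  have hbq : |q| ≤ |b| := sq_le_sq.1 hq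
  have hbp : 0 < |b| := abs_pos.2 hb
  have hr : |r| ≤ |c| := by
    have h3 : |q| * |c| = |b| * |r| := by rw [← abs_mul, ← abs_mul, h1]
    have h4 : |b| * |r| ≤ |b| * |c| := by
      rw [← h3]; exact mul_le_mul_of_nonneg_right hbq (abs_nonneg _)
    exact le_of_mul_le_mul_left h4 hbp
  have hxy : |x - y| ≤ |a - d| := by
    have h3 : |x - y| * |b| = |a - d| * |q| := by rw [← abs_mul, ← abs_mul, h2]
    have h4 : |x - y| * |b| ≤ |a - d| * |b| := by
      rw [h3]; exact mul_le_mul_of_nonneg_left hbq (abs_nonneg _)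
    exact le_of_mul_le_mul_right h4 hbp
  have hxy2 : (x - y) ^ 2 ≤ (a - d) ^ 2 := sq_le_sq.2 hxy
  have hqr : |q * r| ≤ |b * c| := by
    rw [abs_mul, abs_mul]; exact mul_le_mul hbq hr (abs_nonneg _) (abs_nonneg _)
  have hprod : x * y ≤ 1 + |b * c| := by
    have h5 := le_abs_self (q * r)
    rcases he with he | he <;> linarith
  have hsq : x ^ 2 + y ^ 2 ≤ (a - d) ^ 2 + 2 + 2 * |b * c| := by nlinarith
  have habs : ∀ z : ℤ, |z| ≤ z ^ 2 := by
    intro z
    have h6 : |z| ^ 2 = z ^ 2 := sq_abs z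
    rcases eq_or_ne z 0 with rfl | hz
    · simp
    · have h7 : 1 ≤ |z| := Int.one_le_abs hz
      nlinarith
  have hbc : 0 ≤ |b * c| := abs_nonneg _
  have had2 : 0 ≤ (a - d) ^ 2 := sq_nonneg _
  have hcp : 0 ≤ |c| := abs_nonneg _
  refine ⟨?_, ?_, ?_, ?_⟩
  · have := habs x; nlinarith [sq_nonneg y]
  · linarith
  · linarith
  · have := habs y; nlinarith [sq_nonneg x]

private lemma comm_case (B : GL (Fin 2) ℤ) (hd : B.val.det = 1) (ht : 3 ≤ |B.val.trace|)
    (Y : GL (Fin 2) ℤ) (hY : Y * B = B * Y) :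
    ∃ k : ℤ, Y * B ^ k ∈ {Z : GL (Fin 2) ℤ | ∀ i j, |Z.val i j| ≤
      (B.val 0 0 - B.val 1 1) ^ 2 + 2 + 2 * |B.val 0 1 * B.val 1 0| + |B.val 0 1| + |B.val 1 0|} := by
  classical
  let P : ℕ → Prop := fun n => ∃ k : ℤ, n = ((Y * B ^ k).val 0 1).natAbs
  have hex : ∃ n, P n := ⟨_, 0, rfl⟩
  obtain ⟨k, hk⟩ := Nat.find_spec hex
  have hmin : ∀ l : ℤ, ((Y * B ^ k).val 0 1).natAbs ≤ ((Y * B ^ l).val 0 1).natAbs := by
    intro l
    rw [← hk]
    exact Nat.find_min' hex ⟨l, rfl⟩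
  have hmin' : ∀ l : ℤ, |(Y * B ^ k).val 0 1| ≤ |(Y * B ^ l).val 0 1| := by
    intro l
    have := hmin l
    rw [Int.abs_eq_natAbs, Int.abs_eq_natAbs]
    exact_mod_cast this
  refine ⟨k, ?_⟩
  have hc1 : (Y * B ^ k) * B = B * (Y * B ^ k) := by
    rw [mul_assoc, ← zpow_add_one, add_comm, zpow_one_add, ← mul_assoc, hY, mul_assoc]
  have hm1 := hmin' (k + 1)
  have hm2 := hmin' (k - 1)
  rw [zpow_add_one, ← mul_assoc] at hm1
  rw [zpow_sub_one, ← mul_assoc] at hm2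
  generalize Y * B ^ k = X at *
  have hinv : (B⁻¹).val = !![B.val 1 1, -B.val 0 1; -B.val 1 0, B.val 0 0] := by
    rw [Matrix.coe_units_inv, Matrix.inv_def, hd, Ring.inverse_one, one_smul, Matrix.adjugate_fin_two]
  have hq1 : (X * B).val 0 1 = X.val 0 0 * B.val 0 1 + X.val 0 1 * B.val 1 1 := by
    rw [Units.val_mul, Matrix.mul_apply, Fin.sum_univ_two]
  have hq2 : (X * B⁻¹).val 0 1 = X.val 0 0 * (-B.val 0 1) + X.val 0 1 * B.val 0 0 := by
    rw [Units.val_mul, Matrix.mul_apply, Fin.sum_univ_two, hinv]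
    simp
  rw [hq1] at hm1
  rw [hq2] at hm2
  have hv := congrArg Units.val hc1
  rw [Units.val_mul, Units.val_mul] at hv
  have h00 := congrFun (congrFun hv 0) 0
  have h01 := congrFun (congrFun hv 0) 1
  rw [Matrix.mul_apply, Matrix.mul_apply, Fin.sum_univ_two, Fin.sum_univ_two] at h00 h01
  have hdetB : B.val 0 0 * B.val 1 1 - B.val 0 1 * B.val 1 0 = 1 := by
    rw [← Matrix.det_fin_two, hd]
  have htr : 3 ≤ |B.val 0 0 + B.val 1 1| := by
    rw [← Matrix.trace_fin_two]; exact ht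
  have hu : X.val.det = 1 ∨ X.val.det = -1 :=
    Int.isUnit_iff.1 ((Matrix.isUnit_iff_isUnit_det _).1 X.isUnit)
  rw [Matrix.det_fin_two] at hu
  have hk1 : X.val 0 1 * B.val 1 0 = B.val 0 1 * X.val 1 0 := by linarith
  have hk2 : (X.val 0 0 - X.val 1 1) * B.val 0 1 = (B.val 0 0 - B.val 1 1) * X.val 0 1 := by
    linarith
  obtain ⟨hb, hqb⟩ := key_ineq _ _ _ _ _ _ _ _ hdetB htr hk1 hk2 hu hm1 hm2
  obtain ⟨g1, g2, g3, g4⟩ := entries _ _ _ _ _ _ _ _ hb hqb hk1 hk2 hu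
  intro i j
  fin_cases i <;> fin_cases j
  · exact g1
  · exact g2
  · exact g3
  · exact g4

/-- the normaliser of a hyperbolic matrix is a finite union of cosets of its powers -/
theorem norm_fin (B : GL (Fin 2) ℤ) (hd : B.val.det = 1) (ht : 3 ≤ |B.val.trace|) :
    ∃ S : Set (GL (Fin 2) ℤ), S.Finite ∧ ∀ X : GL (Fin 2) ℤ,
      (X * B * X⁻¹ = B ∨ X * B * X⁻¹ = B⁻¹) → ∃ k : ℤ, X * B ^ k ∈ S := by
  classical
  have hcomm := comm_case B hd ht
  have hfin := fin_box ((B.val 0 0 - B.val 1 1) ^ 2 + 2 + 2 * |B.val 0 1 * B.val 1 0| +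
    |B.val 0 1| + |B.val 1 0|)
  generalize {Z : GL (Fin 2) ℤ | ∀ i j, |Z.val i j| ≤
      (B.val 0 0 - B.val 1 1) ^ 2 + 2 + 2 * |B.val 0 1 * B.val 1 0| + |B.val 0 1| + |B.val 1 0|} = S1
    at hcomm hfin
  by_cases hX0 : ∃ X0 : GL (Fin 2) ℤ, X0 * B * X0⁻¹ = B⁻¹
  · obtain ⟨X0, hX0⟩ := hX0
    refine ⟨S1 ∪ (fun Z => X0 * Z) '' S1, hfin.union (hfin.image _), ?_⟩
    rintro X (hX | hX)
    · obtain ⟨k, hk⟩ := hcomm X (by
        have := congrArg (· * X) hX
        simpa [mul_assoc] using this)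
      exact ⟨k, Or.inl hk⟩
    · have e1 : X * B = B⁻¹ * X := by
        have := congrArg (· * X) hX
        simpa [mul_assoc] using this
      have e2 : X0 * B = B⁻¹ * X0 := by
        have := congrArg (· * X0) hX0
        simpa [mul_assoc] using this
      have e3 : X0⁻¹ * B⁻¹ = B * X0⁻¹ := by
        have h := congrArg (fun t => X0⁻¹ * t * X0⁻¹) e2
        simp only [mul_assoc, mul_inv_cancel, mul_one, inv_mul_cancel_left] at h
        exact h.symm
      obtain ⟨k, hk⟩ := hcomm (X0⁻¹ * X) (by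
        rw [mul_assoc, e1, ← mul_assoc, e3, mul_assoc])
      refine ⟨k, Or.inr ⟨_, hk, ?_⟩⟩
      simp [mul_assoc]
  · refine ⟨S1, hfin, ?_⟩
    rintro X (hX | hX)
    · exact hcomm X (by
        have := congrArg (· * X) hX
        simpa [mul_assoc] using this)
    · exact absurd ⟨X, hX⟩ hX0

end Pool.Agent.VFib
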