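import Mathlib

/-!
`conj_fin`: there are finitely many conjugacy classes under `GL(2,ℤ)` of integer matrices of
determinant `1` with a given trace `τ`, `|τ| ≥ 3`. Reduction: among the conjugates one makes the
upper right entry `b` small, with `|a - d| ≤ |b| ≤ |c|`; then `4bc = τ² - 4 - (a-d)²` bounds all
entries by `τ²`.
-/

set_option autoImplicit false

namespace Pool.Agent.VFib

private def lo (k : ℤ) : GL (Fin 2) ℤ :=
  ⟨!![1, 0; k, 1], !![1, 0; -k, 1], by ext i j; fin_cases i <;> fin_cases j <;> simp,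
    by ext i j; fin_cases i <;> fin_cases j <;> simp⟩

private def sw : GL (Fin 2) ℤ :=
  ⟨!![0, 1; 1, 0], !![0, 1; 1, 0], by ext i j; fin_cases i <;> fin_cases j <;> simp,
    by ext i j; fin_cases i <;> fin_cases j <;> simp⟩

private theorem lo_conj (k : ℤ) (B : GL (Fin 2) ℤ) :
    (lo k * B * (lo k)⁻¹).val 0 0 = B.val 0 0 - k * B.val 0 1 ∧
    (lo k * B * (lo k)⁻¹).val 0 1 = B.val 0 1 ∧
    (lo k * B * (lo k)⁻¹).val 1 0 =
      k * B.val 0 0 + B.val 1 0 - k * (k * B.val 0 1 + B.val 1 1) ∧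
    (lo k * B * (lo k)⁻¹).val 1 1 = B.val 1 1 + k * B.val 0 1 := by
  have h : (lo k * B * (lo k)⁻¹).val = !![1, 0; k, 1] * B.val * !![1, 0; -k, 1] := rfl
  rw [h]
  refine ⟨?_, ?_, ?_, ?_⟩ <;>
    simp [Matrix.mul_apply, Matrix.vecMul, dotProduct, Fin.sum_univ_two] <;> ring

private theorem sw_conj (B : GL (Fin 2) ℤ) :
    (sw * B * sw⁻¹).val 0 0 = B.val 1 1 ∧
    (sw * B * sw⁻¹).val 0 1 = B.val 1 0 ∧
    (sw * B * sw⁻¹).val 1 0 = B.val 0 1 ∧
    (sw * B * sw⁻¹).val 1 1 = B.val 0 0 := by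
  have h : (sw * B * sw⁻¹).val = !![0, 1; 1, 0] * B.val * !![0, 1; 1, 0] := rfl
  rw [h]
  refine ⟨?_, ?_, ?_, ?_⟩ <;> simp [Matrix.mul_apply, Matrix.vecMul, dotProduct, Fin.sum_univ_two]

private theorem exists_round (x b : ℤ) (hb : b ≠ 0) : ∃ k : ℤ, |x - 2 * k * b| ≤ |b| := by
  refine ⟨round ((x : ℚ) / (2 * b)), ?_⟩
  set k := round ((x : ℚ) / (2 * b)) with hk
  have h := abs_sub_round ((x : ℚ) / (2 * b))
  rw [← hk] at h
  have hb' : (b : ℚ) ≠ 0 := by exact_mod_cast hb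
  have e : (x : ℚ) - 2 * k * b = (2 * b) * ((x : ℚ) / (2 * b) - k) := by
    field_simp
  have h2 : |(x : ℚ) - 2 * k * b| ≤ |(b : ℚ)| := by
    rw [e, abs_mul, abs_mul]
    have h3 : |(2 : ℚ)| = 2 := by norm_num
    rw [h3]
    have h4 := abs_nonneg (b : ℚ)
    nlinarith
  exact_mod_cast h2

private theorem reduced_bound (τ a b c d : ℤ) (hτ : 3 ≤ |τ|) (hdet : a * d - b * c = 1)
    (htr : a + d = τ) (hb : b ≠ 0) (h1 : |a - d| ≤ |b|) (h2 : |b| ≤ |c|) :
    |a| ≤ τ ^ 2 ∧ |b| ≤ τ ^ 2 ∧ |c| ≤ τ ^ 2 ∧ |d| ≤ τ ^ 2 := by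
  have hb0 : 1 ≤ |b| := Int.one_le_abs hb
  have hτ2 : |τ| * |τ| = τ ^ 2 := by rw [abs_mul_abs_self]; ring
  have hτ9 : 3 * |τ| ≤ τ ^ 2 := by nlinarith
  have hbb : |b| * |b| = b * b := abs_mul_abs_self b
  have hsq : (a - d) * (a - d) ≤ |b| * |b| := by
    have := abs_mul_abs_self (a - d)
    have h0 := abs_nonneg (a - d)
    nlinarith
  have h4 : 4 * (b * c) = τ ^ 2 - 4 - (a - d) * (a - d) := by
    rw [← htr]
    linarith [mul_comm a d, show (a + d) ^ 2 - 4 - (a - d) * (a - d) = 4 * (a * d) - 4 by ring]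
  have hbc : |b| * |c| = |b * c| := (abs_mul b c).symm
  have hbc1 : |b| * |b| ≤ |b| * |c| := mul_le_mul_of_nonneg_left h2 (abs_nonneg b)
  have hpos : 0 < b * c := by
    by_contra hcon
    push Not at hcon
    have h5 : |b * c| = -(b * c) := abs_of_nonpos hcon
    have h6 : 0 < |b| * |b| := by nlinarith
    nlinarith
  have h7 : |b| * |c| = b * c := by rw [hbc, abs_of_pos hpos]
  have h8 : 4 * (|b| * |c|) ≤ τ ^ 2 := by
    rw [h7, h4]
    nlinarith [mul_self_nonneg (a - d)]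
  have hc1 : 1 ≤ |c| := hb0.trans h2
  have hB : |b| ≤ τ ^ 2 := by nlinarith
  have hC : |c| ≤ τ ^ 2 := by nlinarith
  have hB2 : 4 * |b| ≤ τ ^ 2 := by nlinarith
  have hA : |a| ≤ τ ^ 2 := by
    have h9 : |2 * a| ≤ |τ| + |b| := by
      have : 2 * a = τ + (a - d) := by rw [← htr]; ring
      rw [this]
      exact (abs_add_le _ _).trans (by linarith)
    rw [abs_mul] at h9
    have h10 : |(2 : ℤ)| = 2 := by norm_num
    rw [h10] at h9
    nlinarith [abs_nonneg τ, abs_nonneg a]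
  have hD : |d| ≤ τ ^ 2 := by
    have h9 : |2 * d| ≤ |τ| + |b| := by
      have : 2 * d = τ + -(a - d) := by rw [← htr]; ring
      rw [this]
      refine (abs_add_le _ _).trans ?_
      rw [abs_neg]
      linarith
    rw [abs_mul] at h9
    have h10 : |(2 : ℤ)| = 2 := by norm_num
    rw [h10] at h9
    nlinarith [abs_nonneg τ, abs_nonneg d]
  exact ⟨hA, hB, hC, hD⟩

private theorem reduce (τ : ℤ) (hτ : 3 ≤ |τ|) : ∀ n : ℕ, ∀ B : GL (Fin 2) ℤ,
    (B.val 0 1).natAbs = n → B.val.det = 1 → B.val.trace = τ →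
      ∃ X : GL (Fin 2) ℤ, ∀ i j, |(X * B * X⁻¹).val i j| ≤ τ ^ 2 := by
  intro n
  induction n using Nat.strong_induction_on with
  | _ n ih =>
    intro B hn hdet htr
    rw [Matrix.det_fin_two] at hdet
    rw [Matrix.trace_fin_two] at htr
    have hb : B.val 0 1 ≠ 0 := by
      intro h0
      rw [h0, zero_mul, sub_zero] at hdet
      rcases Int.mul_eq_one_iff_eq_one_or_neg_one.1 hdet with ⟨h1, h2⟩ | ⟨h1, h2⟩
      · rw [h1, h2] at htr
        rw [← htr] at hτ
        norm_num at hτ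
      · rw [h1, h2] at htr
        rw [← htr] at hτ
        norm_num at hτ
    obtain ⟨k, hk⟩ := exists_round (B.val 0 0 - B.val 1 1) (B.val 0 1) hb
    obtain ⟨e00, e01, e10, e11⟩ := lo_conj k B
    set B' := lo k * B * (lo k)⁻¹ with hB'
    have hdet' : B'.val 0 0 * B'.val 1 1 - B'.val 0 1 * B'.val 1 0 = 1 := by
      rw [e00, e01, e10, e11]
      linear_combination hdet
    have htr' : B'.val 0 0 + B'.val 1 1 = τ := by
      rw [e00, e11]
      linear_combination htr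
    have hk' : |B'.val 0 0 - B'.val 1 1| ≤ |B'.val 0 1| := by
      rw [e00, e11, e01]
      have : B.val 0 0 - k * B.val 0 1 - (B.val 1 1 + k * B.val 0 1) =
          B.val 0 0 - B.val 1 1 - 2 * k * B.val 0 1 := by ring
      rw [this]
      exact hk
    by_cases hc : |B'.val 0 1| ≤ |B'.val 1 0|
    · refine ⟨lo k, ?_⟩
      obtain ⟨h1, h2, h3, h4⟩ := reduced_bound τ _ _ _ _ hτ hdet' htr' (by rw [e01]; exact hb)
        hk' hc
      intro i j
      fin_cases i <;> fin_cases j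
      · exact h1
      · exact h2
      · exact h3
      · exact h4
    · push Not at hc
      obtain ⟨f00, f01, f10, f11⟩ := sw_conj B'
      set B'' := sw * B' * sw⁻¹ with hB''
      have hlt : (B''.val 0 1).natAbs < n := by
        rw [f01, ← hn, ← e01]
        zify
        exact hc
      obtain ⟨X, hX⟩ := ih _ hlt B'' rfl
        (by rw [Matrix.det_fin_two, f00, f01, f10, f11]; linear_combination hdet')
        (by rw [Matrix.trace_fin_two, f00, f11]; linear_combination htr')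
      refine ⟨X * (sw * lo k), ?_⟩
      have he : X * (sw * lo k) * B * (X * (sw * lo k))⁻¹ = X * B'' * X⁻¹ := by
        rw [hB'', hB']
        group
      rw [he]
      exact hX

/-- finitely many conjugacy classes of hyperbolic matrices with a given trace -/
theorem conj_fin (τ : ℤ) (hτ : 3 ≤ |τ|) : ∃ S : Set (GL (Fin 2) ℤ), S.Finite ∧
    ∀ B : GL (Fin 2) ℤ, B.val.det = 1 → B.val.trace = τ →
      ∃ X : GL (Fin 2) ℤ, X * B * X⁻¹ ∈ S := by
  refine ⟨{M | ∀ i j, |M.val i j| ≤ τ ^ 2}, ?_, ?_⟩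
  · have hfin : {N : Matrix (Fin 2) (Fin 2) ℤ | ∀ i j, |N i j| ≤ τ ^ 2}.Finite := by
      have h1 : {N : Fin 2 → Fin 2 → ℤ | ∀ i, N i ∈ {r : Fin 2 → ℤ | ∀ j, r j ∈
          Set.Icc (-τ ^ 2) (τ ^ 2)}}.Finite :=
        Set.Finite.pi' fun _ => Set.Finite.pi' fun _ => Set.finite_Icc _ _
      refine h1.subset ?_
      intro N hN i j
      have := abs_le.1 (hN i j)
      exact ⟨by linarith [this.1], this.2⟩
    exact hfin.preimage (Units.val_injective.injOn)
  · intro B hdet htr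
    obtain ⟨X, hX⟩ := reduce τ hτ _ B rfl hdet htr
    exact ⟨X, hX⟩

end Pool.Agent.VFib
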