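import Pool.Agent.Lib.MP_305fdd_al.VFib.Semi1
import Pool.Agent.Lib.MP_305fdd_al.F2X.P.fo

/-!
# MP_305fdd_al, VFib: powers of hyperbolic matrices modulo `m`
-/

set_option autoImplicit false

namespace Pool.Agent.VFib

open Pool.Agent.MP_305fdd_al Pool.Agent.Lib.MP_305fdd_al Pool.Agent.F2X

/-- the Lucas sequence -/
def lu (τ : ℤ) : ℕ → ℤ
  | 0 => 0
  | 1 => 1
  | (n + 2) => τ * lu τ (n + 1) - lu τ n

theorem lu_lt {τ : ℤ} (hτ : 3 ≤ |τ|) (n : ℕ) : |lu τ n| < |lu τ (n + 1)| := by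
  induction n with
  | zero => simp [lu]
  | succ n ih =>
    show |lu τ (n + 1)| < |τ * lu τ (n + 1) - lu τ n|
    have h1 : 3 * |lu τ (n + 1)| ≤ |τ * lu τ (n + 1)| := by
      rw [abs_mul]
      exact mul_le_mul_of_nonneg_right hτ (abs_nonneg _)
    have h2 : |τ * lu τ (n + 1)| - |lu τ n| ≤ |τ * lu τ (n + 1) - lu τ n| :=
      abs_sub_abs_le_abs_sub _ _
    have h3 := abs_nonneg (lu τ n)
    linarith

theorem lu_mono {τ : ℤ} (hτ : 3 ≤ |τ|) : StrictMono fun n => |lu τ n| :=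
  strictMono_nat_of_lt_succ fun n => lu_lt hτ n

theorem lu_pow {B : Matrix (Fin 2) (Fin 2) ℤ} (hd : B.det = 1) (n : ℕ) :
    (B ^ (n + 1)) 0 0 = lu B.trace (n + 1) * B 0 0 - lu B.trace n ∧
      (B ^ (n + 1)) 0 1 = lu B.trace (n + 1) * B 0 1 ∧
      (B ^ (n + 1)) 1 0 = lu B.trace (n + 1) * B 1 0 ∧
      (B ^ (n + 1)) 1 1 = lu B.trace (n + 1) * B 1 1 - lu B.trace n := by
  rw [Matrix.det_fin_two] at hd
  induction n with
  | zero => refine ⟨?_, ?_, ?_, ?_⟩ <;> simp [lu]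
  | succ n ih =>
    obtain ⟨h2, h3, h4, h5⟩ := ih
    have hl : lu B.trace (n + 1 + 1) = (B 0 0 + B 1 1) * lu B.trace (n + 1) - lu B.trace n := by
      rw [← Matrix.trace_fin_two]
      rfl
    refine ⟨?_, ?_, ?_, ?_⟩
    · rw [pow_succ, Matrix.mul_apply, Fin.sum_univ_two, h2, h3, hl]
      linear_combination (-lu B.trace (n + 1)) * hd
    · rw [pow_succ, Matrix.mul_apply, Fin.sum_univ_two, h2, h3, hl]
      ring
    · rw [pow_succ, Matrix.mul_apply, Fin.sum_univ_two, h4, h5, hl]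
      ring
    · rw [pow_succ, Matrix.mul_apply, Fin.sum_univ_two, h4, h5, hl]
      linear_combination (-lu B.trace (n + 1)) * hd

/-- the matrices which are scalar modulo `m` -/
def scal (m : ℤ) : Subgroup (GL (Fin 2) ℤ) where
  carrier := {A | m ∣ A.val 0 1 ∧ m ∣ A.val 1 0 ∧ m ∣ A.val 0 0 - A.val 1 1}
  one_mem' := by
    refine ⟨?_, ?_, ?_⟩
    · rw [Units.val_one, Matrix.one_apply_ne (by decide)]
      exact dvd_zero m
    · rw [Units.val_one, Matrix.one_apply_ne (by decide)]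
      exact dvd_zero m
    · rw [Units.val_one, Matrix.one_apply_eq, Matrix.one_apply_eq, sub_self]
      exact dvd_zero m
  mul_mem' := by
    rintro A C ⟨⟨a, ha⟩, ⟨b, hb⟩, ⟨c, hc⟩⟩ ⟨⟨x, hx⟩, ⟨y, hy⟩, ⟨z, hz⟩⟩
    have hc' : A.val 0 0 = A.val 1 1 + m * c := by linarith
    have hz' : C.val 0 0 = C.val 1 1 + m * z := by linarith
    refine ⟨?_, ?_, ?_⟩
    · rw [Units.val_mul, Matrix.mul_apply, Fin.sum_univ_two, ha, hx]
      exact ⟨A.val 0 0 * x + a * C.val 1 1, by ring⟩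
    · rw [Units.val_mul, Matrix.mul_apply, Fin.sum_univ_two, hb, hy]
      exact ⟨b * C.val 0 0 + A.val 1 1 * y, by ring⟩
    · rw [Units.val_mul, Matrix.mul_apply, Matrix.mul_apply, Fin.sum_univ_two, Fin.sum_univ_two,
        ha, hb, hx, hy, hc', hz']
      exact ⟨(A.val 1 1 + m * c) * z + c * C.val 1 1 + a * m * y - b * m * x, by ring⟩
  inv_mem' := by
    rintro A ⟨⟨a, ha⟩, ⟨b, hb⟩, ⟨c, hc⟩⟩
    have h00 : (A⁻¹).val 0 0 = A.val.det * A.val 1 1 := by
      rw [LF.inv_eq_adj, Matrix.adjugate_fin_two]; rfl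
    have h01 : (A⁻¹).val 0 1 = A.val.det * -A.val 0 1 := by
      rw [LF.inv_eq_adj, Matrix.adjugate_fin_two]; rfl
    have h10 : (A⁻¹).val 1 0 = A.val.det * -A.val 1 0 := by
      rw [LF.inv_eq_adj, Matrix.adjugate_fin_two]; rfl
    have h11 : (A⁻¹).val 1 1 = A.val.det * A.val 0 0 := by
      rw [LF.inv_eq_adj, Matrix.adjugate_fin_two]; rfl
    refine ⟨?_, ?_, ?_⟩
    · rw [h01, ha]
      exact ⟨-(A.val.det * a), by ring⟩
    · rw [h10, hb]
      exact ⟨-(A.val.det * b), by ring⟩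
    · rw [h00, h11, ← mul_sub]
      exact ⟨-(A.val.det * c), by linear_combination (-A.val.det) * hc⟩

theorem trace_pow_cont {B : GL (Fin 2) ℤ} (hd : B.val.det = 1) (ht : 3 ≤ |B.val.trace|) :
    LF.cont B.val ≠ 0 ∧ B.val 0 1 ≠ 0 := by
  have h01 : B.val 0 1 ≠ 0 := by
    intro h
    rw [Matrix.det_fin_two, h, zero_mul, sub_zero] at hd
    rw [Matrix.trace_fin_two] at ht
    rcases Int.eq_one_or_neg_one_of_mul_eq_one hd with h1 | h1
    · rw [h1, one_mul] at hd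
      rw [h1, hd] at ht
      norm_num at ht
    · rw [h1] at hd
      have : B.val 1 1 = -1 := by linarith
      rw [h1, this] at ht
      norm_num at ht
  refine ⟨fun h => ?_, h01⟩
  have h1 : LF.cont B.val ∣ Int.gcd (B.val 0 1) (B.val 1 0) := Nat.gcd_dvd_left _ _
  rw [h, zero_dvd_iff, Int.gcd_eq_zero_iff] at h1
  exact h01 h1.1

/-- powers which are scalar modulo `c U_N` -/
theorem scal_pow {B : GL (Fin 2) ℤ} (hd : B.val.det = 1) (ht : 3 ≤ |B.val.trace|) {N : ℕ}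
    (hN : 0 < N) {j : ℕ} (hj : B ^ j ∈ scal (LF.cont B.val * lu B.val.trace N)) : N ∣ j := by
  obtain ⟨n, rfl⟩ : ∃ n, N = n + 1 := ⟨N - 1, by omega⟩
  have hg : ∀ x : ℤ, x = B.val 0 1 ∨ x = B.val 1 0 ∨ x = B.val 0 0 - B.val 1 1 →
      (LF.cont B.val : ℤ) ∣ x := by
    intro x hx
    have g1 : LF.cont B.val ∣ Int.gcd (B.val 0 1) (B.val 1 0) := Nat.gcd_dvd_left _ _
    rcases hx with rfl | rfl | rfl
    · exact (Int.natCast_dvd_natCast.2 g1).trans (Int.gcd_dvd_left _ _)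
    · exact (Int.natCast_dvd_natCast.2 g1).trans (Int.gcd_dvd_right _ _)
    · exact Int.natCast_dvd.2 (Nat.gcd_dvd_right _ _)
  have hBN : B ^ (n + 1) ∈ scal (LF.cont B.val * lu B.val.trace (n + 1)) := by
    obtain ⟨h1, h2, h3, h4⟩ := lu_pow hd n
    refine ⟨?_, ?_, ?_⟩
    · rw [Units.val_pow_eq_pow_val, h2, mul_comm]
      exact mul_dvd_mul_left _ (hg _ (Or.inl rfl))
    · rw [Units.val_pow_eq_pow_val, h3, mul_comm]
      exact mul_dvd_mul_left _ (hg _ (Or.inr (Or.inl rfl)))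
    · rw [Units.val_pow_eq_pow_val, h1, h4, mul_comm,
        show lu B.val.trace (n + 1) * B.val 0 0 - lu B.val.trace n -
          (lu B.val.trace (n + 1) * B.val 1 1 - lu B.val.trace n) =
          lu B.val.trace (n + 1) * (B.val 0 0 - B.val 1 1) by ring]
      exact mul_dvd_mul_left _ (hg _ (Or.inr (Or.inr rfl)))
  have hr : B ^ (j % (n + 1)) ∈ scal (LF.cont B.val * lu B.val.trace (n + 1)) := by
    have h1 : B ^ j = (B ^ (n + 1)) ^ (j / (n + 1)) * B ^ (j % (n + 1)) := by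
      rw [← pow_mul, ← pow_add, Nat.div_add_mod]
    rw [h1] at hj
    exact (Subgroup.mul_mem_cancel_left _ (pow_mem hBN _)).1 hj
  by_contra hne
  have hr0 : j % (n + 1) ≠ 0 := fun h => hne (Nat.dvd_of_mod_eq_zero h)
  obtain ⟨r, hr1⟩ : ∃ r, j % (n + 1) = r + 1 := ⟨j % (n + 1) - 1, by omega⟩
  have hrn : r + 1 < n + 1 := by
    rw [← hr1]
    exact Nat.mod_lt _ (Nat.succ_pos n)
  rw [hr1] at hr
  obtain ⟨h1, h2, h3, h4⟩ := lu_pow hd r
  obtain ⟨q1, q2, q3⟩ := hr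
  rw [Units.val_pow_eq_pow_val] at q1 q2 q3
  rw [h2] at q1
  rw [h3] at q2
  rw [h1, h4, show lu B.val.trace (r + 1) * B.val 0 0 - lu B.val.trace r -
          (lu B.val.trace (r + 1) * B.val 1 1 - lu B.val.trace r) =
          lu B.val.trace (r + 1) * (B.val 0 0 - B.val 1 1) by ring] at q3
  have p1 := Int.natAbs_dvd_natAbs.2 q1
  have p2 := Int.natAbs_dvd_natAbs.2 q2
  have p3 := Int.natAbs_dvd_natAbs.2 q3
  rw [Int.natAbs_mul, Int.natAbs_mul, Int.natAbs_natCast] at p1 p2 p3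
  have p4 : LF.cont B.val * (lu B.val.trace (n + 1)).natAbs ∣
      (lu B.val.trace (r + 1)).natAbs * LF.cont B.val := by
    have e : LF.cont B.val = Nat.gcd (Nat.gcd (B.val 0 1).natAbs (B.val 1 0).natAbs)
        (B.val 0 0 - B.val 1 1).natAbs := rfl
    conv_rhs => rw [e]
    rw [← Nat.gcd_mul_left, ← Nat.gcd_mul_left]
    exact Nat.dvd_gcd (Nat.dvd_gcd p1 p2) p3
  rw [mul_comm (lu B.val.trace (r + 1)).natAbs] at p4
  have p5 := (Nat.mul_dvd_mul_iff_left (Nat.pos_of_ne_zero (trace_pow_cont hd ht).1)).1 p4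
  have p6 := lu_mono ht hrn
  have p7 : |lu B.val.trace 0| < |lu B.val.trace (r + 1)| := lu_mono ht (Nat.succ_pos r)
  have p8 : (lu B.val.trace (r + 1)).natAbs ≠ 0 := by
    rw [Ne, Int.natAbs_eq_zero]
    intro h
    rw [h] at p7
    simp [lu] at p7
  have p9 := Nat.le_of_dvd (Nat.pos_of_ne_zero p8) p5
  have p10 : |lu B.val.trace (r + 1)| < |lu B.val.trace (n + 1)| := p6
  rw [Int.abs_eq_natAbs, Int.abs_eq_natAbs] at p10
  omega

end Pool.Agent.VFib
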