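import Pool.Agent.Lib.MP_305fdd_al.VFib.Gen
import Pool.Agent.Lib.MP_305fdd_al.VFib.H1
import Pool.Agent.Lib.MP_305fdd_al.VFib.H2

/-!
# MP_305fdd_al, VFib: finiteness and rigidity
-/

set_option autoImplicit false

namespace Pool.Agent.VFib

open Pool.Agent.MP_305fdd_al Pool.Agent.Lib.MP_305fdd_al Pool.Agent.F2X Pool.Agent.F8
  Pool.Agent.F8.HN

theorem cont_conj (X B : GL (Fin 2) ℤ) : LF.cont (X * B * X⁻¹).val = LF.cont B.val := by
  have key : ∀ A C Y : GL (Fin 2) ℤ, A = Y * C * Y⁻¹ → LF.E2.Hy A C := by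
    intro A C Y h m _
    refine ⟨1, (F2X.red m Y)⁻¹, odd_one, ?_⟩
    rw [h, map_mul, map_mul, map_inv, pow_one]
    group
  exact Nat.dvd_antisymm (LF.E2.cont_dvd (key _ _ X⁻¹ (by group)))
    (LF.E2.cont_dvd (key _ _ X rfl))

/-- up to conjugacy only finitely many groups -/
theorem fin_D (τ : ℤ) (hτ : 3 ≤ |τ|) : ∃ S : Set (Subgroup (GL (Fin 2) ℤ)), S.Finite ∧
    ∀ (D : Subgroup (GL (Fin 2) ℤ)) (B : GL (Fin 2) ℤ), B ∈ D → B.val.det = 1 →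
      B.val.trace = τ → (Subgroup.zpowers B).relIndex D ≠ 0 →
      ∃ X : GL (Fin 2) ℤ, D.map (MulAut.conj X).toMonoidHom ∈ S := by
  classical
  obtain ⟨S₂, hS₂, h2⟩ := conj_fin τ hτ
  have h1 : ∀ B : GL (Fin 2) ℤ, ∃ T : Set (GL (Fin 2) ℤ), T.Finite ∧
      (B.val.det = 1 → B.val.trace = τ → ∀ X : GL (Fin 2) ℤ,
        (X * B * X⁻¹ = B ∨ X * B * X⁻¹ = B⁻¹) → ∃ k : ℤ, X * B ^ k ∈ T) := by
    intro B
    by_cases hB : B.val.det = 1 ∧ B.val.trace = τ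
    · obtain ⟨T, hT, hT2⟩ := norm_fin B hB.1 (by rw [hB.2]; exact hτ)
      exact ⟨T, hT, fun _ _ => hT2⟩
    · exact ⟨∅, Set.finite_empty, fun h h' => absurd ⟨h, h'⟩ hB⟩
  choose T hT hT2 using h1
  refine ⟨⋃ B ∈ S₂, (fun U : Set (GL (Fin 2) ℤ) => Subgroup.closure (U ∪ {B})) '' {U | U ⊆ T B},
    hS₂.biUnion fun B _ => ((hT B).finite_subsets).image _, ?_⟩
  intro D B hB hd ht hi
  obtain ⟨X, hX⟩ := h2 B hd ht
  refine ⟨X, ?_⟩
  obtain ⟨C, hC⟩ : ∃ C, C = X * B * X⁻¹ := ⟨_, rfl⟩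
  obtain ⟨E, hE⟩ : ∃ E, E = D.map (MulAut.conj X).toMonoidHom := ⟨_, rfl⟩
  rw [← hC] at hX
  rw [← hE]
  have hCd : C.val.det = 1 := by
    rw [hC, Units.val_mul, Units.val_mul, Matrix.det_mul, Matrix.det_mul, mul_right_comm,
      ← Matrix.det_mul, ← Units.val_mul, mul_inv_cancel, Units.val_one, Matrix.det_one, one_mul,
      hd]
  have hCt : C.val.trace = τ := by
    rw [hC, Units.val_mul, Units.val_mul, Matrix.trace_mul_comm, ← Matrix.mul_assoc,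
      ← Units.val_mul, inv_mul_cancel, Units.val_one, Matrix.one_mul, ht]
  have hCE : C ∈ E := by
    rw [hE, hC]
    exact ⟨B, hB, rfl⟩
  have hCi : (Subgroup.zpowers C).relIndex E ≠ 0 := by
    have h3 : Subgroup.zpowers C = (Subgroup.zpowers B).map (MulAut.conj X).toMonoidHom := by
      rw [MonoidHom.map_zpowers, hC]
      rfl
    rw [h3, hE, Subgroup.relIndex_map_map_of_injective _ _ (MulAut.conj X).injective]
    exact hi
  have hCabs : 3 ≤ |C.val.trace| := by rw [hCt]; exact hτ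
  refine Set.mem_biUnion hX ⟨T C ∩ E, Set.inter_subset_left, ?_⟩
  show Subgroup.closure (T C ∩ (E : Set (GL (Fin 2) ℤ)) ∪ {C}) = E
  apply le_antisymm
  · rw [Subgroup.closure_le]
    rintro Y (hY | hY)
    · exact hY.2
    · rw [Set.mem_singleton_iff.1 hY]
      exact hCE
  · intro Y hY
    obtain ⟨k, hk⟩ := hT2 C hCd hCt Y (conj_hyp hCd hCabs hCE hCi hY)
    have h3 : Y = Y * C ^ k * (C ^ k)⁻¹ := by group
    rw [h3]
    refine mul_mem (Subgroup.subset_closure (Or.inl ⟨hk, mul_mem hY (zpow_mem hCE k)⟩)) ?_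
    have h4 : C ∈ Subgroup.closure (T C ∩ (E : Set (GL (Fin 2) ℤ)) ∪ {C}) :=
      Subgroup.subset_closure (Or.inr rfl)
    exact inv_mem (zpow_mem h4 k)

/-- conjugate modulo all `m` -/
def LC (D' D : Subgroup (GL (Fin 2) ℤ)) : Prop := ∀ m : ℕ, 0 < m → ∃ M : GL (Fin 2) (ZMod m),
  (D'.map (F2X.red m)).map (MulAut.conj M).toMonoidHom = D.map (F2X.red m)

theorem LC.conj {D' D : Subgroup (GL (Fin 2) ℤ)} (h : LC D' D) (X : GL (Fin 2) ℤ) :
    LC (D'.map (MulAut.conj X).toMonoidHom) D := by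
  intro m hm
  obtain ⟨M, hM⟩ := h m hm
  refine ⟨M * (F2X.red m X)⁻¹, ?_⟩
  rw [← hM]
  ext Z
  constructor
  · rintro ⟨_, ⟨_, ⟨Y, hY, rfl⟩, rfl⟩, rfl⟩
    refine ⟨F2X.red m Y, ⟨Y, hY, rfl⟩, ?_⟩
    show M * F2X.red m Y * M⁻¹ = M * (F2X.red m X)⁻¹ * F2X.red m (X * Y * X⁻¹) *
      (M * (F2X.red m X)⁻¹)⁻¹
    rw [map_mul, map_mul, map_inv]
    group
  · rintro ⟨_, ⟨Y, hY, rfl⟩, rfl⟩
    refine ⟨F2X.red m (X * Y * X⁻¹), ⟨X * Y * X⁻¹, ⟨Y, hY, rfl⟩, rfl⟩, ?_⟩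
    show M * (F2X.red m X)⁻¹ * F2X.red m (X * Y * X⁻¹) * (M * (F2X.red m X)⁻¹)⁻¹ =
      M * F2X.red m Y * M⁻¹
    rw [map_mul, map_mul, map_inv]
    group

/-- the genus of `Γ` is finite -/
theorem genus_fin {D : Subgroup (GL (Fin 2) ℤ)} {B : GL (Fin 2) ℤ} (hB : B ∈ D)
    (hd : B.val.det = 1) (ht : 3 ≤ |B.val.trace|) (hi : (Subgroup.zpowers B).relIndex D ≠ 0) :
    ∃ S : Set (Subgroup (GL (Fin 2) ℤ)), S.Finite ∧
      (∀ D' ∈ S, LC D' D ∧ ∃ B' ∈ D', B'.val.det = 1 ∧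
        B'.val.trace = B.val.trace ∧ LF.cont B'.val = LF.cont B.val ∧
        (Subgroup.zpowers B').relIndex D' = (Subgroup.zpowers B).relIndex D) ∧
      ∀ (Λ : Type) [Group Λ], Group.IsFinitelyPresented Λ → LF.LERF Λ →
        SameFiniteQuotients Λ (Pre D) → ∃ D' ∈ S, Nonempty (Λ ≃* Pre D') := by
  obtain ⟨S, hS, h1⟩ := fin_D B.val.trace ht
  refine ⟨{D' | D' ∈ S ∧ LC D' D ∧ ∃ B' ∈ D', B'.val.det = 1 ∧
        B'.val.trace = B.val.trace ∧ LF.cont B'.val = LF.cont B.val ∧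
        (Subgroup.zpowers B').relIndex D' = (Subgroup.zpowers B).relIndex D},
    hS.subset fun D' h => h.1, fun D' h => h.2, ?_⟩
  intro Λ _ hfp hΛ h
  obtain ⟨D', B', k1, k2, k3, k4, k5, k6, ⟨e⟩⟩ := lamD hB hd ht hi Λ hfp hΛ h
  obtain ⟨X, hX⟩ := h1 D' B' k1 k2 k3 (by rw [k5]; exact hi)
  obtain ⟨e'⟩ := pre_conj X (D := D'.map (MulAut.conj X).toMonoidHom) (D' := D') rfl
  refine ⟨_, ⟨hX, LC.conj k6 X, X * B' * X⁻¹, ⟨B', k1, rfl⟩, ?_, ?_, ?_, ?_⟩, ⟨e.trans e'⟩⟩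
  · rw [Units.val_mul, Units.val_mul, Matrix.det_mul, Matrix.det_mul, mul_right_comm,
      ← Matrix.det_mul, ← Units.val_mul, mul_inv_cancel, Units.val_one, Matrix.det_one, one_mul,
      k2]
  · rw [Units.val_mul, Units.val_mul, Matrix.trace_mul_comm, ← Matrix.mul_assoc,
      ← Units.val_mul, inv_mul_cancel, Units.val_one, Matrix.one_mul, k3]
  · rw [← k4]
    exact cont_conj X B'
  · rw [← k5]
    have h3 : Subgroup.zpowers (X * B' * X⁻¹) =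
        (Subgroup.zpowers B').map (MulAut.conj X).toMonoidHom := by
      rw [MonoidHom.map_zpowers]
      rfl
    rw [h3, Subgroup.relIndex_map_map_of_injective _ _ (MulAut.conj X).injective]

/-- rigidity -/
theorem rigid_N {D : Subgroup (GL (Fin 2) ℤ)} {B : GL (Fin 2) ℤ} (hB : B ∈ D)
    (hd : B.val.det = 1) (ht : 3 ≤ |B.val.trace|) (hi : (Subgroup.zpowers B).relIndex D ≠ 0)
    (hN : ∀ X : GL (Fin 2) ℤ, (X * B * X⁻¹ = B ∨ X * B * X⁻¹ = B⁻¹) → X ∈ D)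
    (hcl : ∀ A : GL (Fin 2) ℤ, A.val.det = 1 → A.val.trace = B.val.trace →
      LF.cont A.val = LF.cont B.val → ∃ X : GL (Fin 2) ℤ, X * A * X⁻¹ = B)
    (Λ : Type) [Group Λ] (hfp : Group.IsFinitelyPresented Λ) (hΛ : LF.LERF Λ)
    (h : SameFiniteQuotients Λ (Pre D)) : Nonempty (Λ ≃* Pre D) := by
  obtain ⟨D', B', k1, k2, k3, k4, k5, -, ⟨e⟩⟩ := lamD hB hd ht hi Λ hfp hΛ h
  obtain ⟨X, hX⟩ := hcl B' k2 k3 k4
  have hBE : B ∈ D'.map (MulAut.conj X).toMonoidHom := ⟨B', k1, hX⟩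
  have hEi : (Subgroup.zpowers B).relIndex (D'.map (MulAut.conj X).toMonoidHom) =
      (Subgroup.zpowers B).relIndex D := by
    have h3 : Subgroup.zpowers B = (Subgroup.zpowers B').map (MulAut.conj X).toMonoidHom := by
      rw [MonoidHom.map_zpowers, ← hX]
      rfl
    rw [← k5]
    conv_lhs => rw [h3]
    rw [Subgroup.relIndex_map_map_of_injective _ _ (MulAut.conj X).injective]
  have hle : D'.map (MulAut.conj X).toMonoidHom ≤ D := by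
    intro Y hY
    exact hN Y (conj_hyp hd ht hBE (by rw [hEi]; exact hi) hY)
  have hmul := Subgroup.relIndex_mul_relIndex (Subgroup.zpowers B)
    (D'.map (MulAut.conj X).toMonoidHom) D ((Subgroup.zpowers_le).2 hBE) hle
  rw [hEi] at hmul
  have h1 : (D'.map (MulAut.conj X).toMonoidHom).relIndex D = 1 := by
    have h2 : 0 < (Subgroup.zpowers B).relIndex D := Nat.pos_of_ne_zero hi
    exact Nat.eq_of_mul_eq_mul_left h2 (by rw [hmul, mul_one])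
  have heq : D'.map (MulAut.conj X).toMonoidHom = D :=
    le_antisymm hle (Subgroup.relIndex_eq_one.1 h1)
  obtain ⟨e'⟩ := pre_conj X heq
  exact ⟨e.trans e'⟩

/-- the powers of `B` have finite index in the normaliser -/
theorem nrm_index {D : Subgroup (GL (Fin 2) ℤ)} {B : GL (Fin 2) ℤ} (hB : B ∈ D)
    (hd : B.val.det = 1) (ht : 3 ≤ |B.val.trace|)
    (hN : ∀ X ∈ D, X * B * X⁻¹ = B ∨ X * B * X⁻¹ = B⁻¹) :
    (Subgroup.zpowers B).relIndex D ≠ 0 := by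
  obtain ⟨S, hS, h1⟩ := norm_fin B hd ht
  have hfin : Finite {X : D // (X : GL (Fin 2) ℤ) ∈ S} :=
    Set.Finite.to_subtype (hS.preimage (Subtype.val_injective.injOn))
  have hq : Finite (D ⧸ (Subgroup.zpowers B).subgroupOf D) := by
    refine Finite.of_surjective
      (fun X : {X : D // (X : GL (Fin 2) ℤ) ∈ S} => (X.1 : D ⧸ (Subgroup.zpowers B).subgroupOf D))
      fun q => ?_
    obtain ⟨Y, rfl⟩ := QuotientGroup.mk_surjective q
    obtain ⟨k, hk⟩ := h1 Y (hN Y Y.2)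
    refine ⟨⟨⟨(Y : GL (Fin 2) ℤ) * B ^ k, mul_mem Y.2 (zpow_mem hB k)⟩, hk⟩, ?_⟩
    rw [QuotientGroup.eq, Subgroup.mem_subgroupOf]
    refine Subgroup.mem_zpowers_iff.2 ⟨-k, ?_⟩
    show B ^ (-k) = ((Y : GL (Fin 2) ℤ) * B ^ k)⁻¹ * Y
    group
  exact Subgroup.index_ne_zero_of_finite

end Pool.Agent.VFib
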