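import Pool.Agent.Lib.MP_305fdd_al.VFib.Sep

/-!
# MP_305fdd_al, VFib: hyperbolic matrices with a common power
-/

set_option autoImplicit false

namespace Pool.Agent.VFib

open Pool.Agent.MP_305fdd_al Pool.Agent.Lib.MP_305fdd_al Pool.Agent.F2X

theorem inv_entries' {B : GL (Fin 2) ℤ} (hd : B.val.det = 1) :
    (B⁻¹).val 0 0 = B.val 1 1 ∧ (B⁻¹).val 0 1 = -B.val 0 1 ∧ (B⁻¹).val 1 0 = -B.val 1 0 ∧
      (B⁻¹).val 1 1 = B.val 0 0 := by
  rw [LF.inv_eq_adj, Matrix.adjugate_fin_two, hd, one_smul]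
  exact ⟨rfl, rfl, rfl, rfl⟩

theorem inv_hyp {B : GL (Fin 2) ℤ} (hd : B.val.det = 1) :
    (B⁻¹).val.det = 1 ∧ (B⁻¹).val.trace = B.val.trace := by
  obtain ⟨h1, h2, h3, h4⟩ := inv_entries' hd
  refine ⟨by rw [LF.det_inv', hd], ?_⟩
  rw [Matrix.trace_fin_two, Matrix.trace_fin_two, h1, h4, add_comm]

theorem pow_eq_pow {B C : GL (Fin 2) ℤ} (hd : B.val.det = 1) (hd' : C.val.det = 1)
    (ht : 3 ≤ |B.val.trace|) (htr : C.val.trace = B.val.trace) {k l : ℕ} (hk : 0 < k) (hl : 0 < l)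
    (h : C ^ k = B ^ l) : C = B ∨ C = B⁻¹ := by
  obtain ⟨k, rfl⟩ : ∃ n, k = n + 1 := ⟨k - 1, by omega⟩
  obtain ⟨l, rfl⟩ : ∃ n, l = n + 1 := ⟨l - 1, by omega⟩
  obtain ⟨b1, b2, b3, b4⟩ := lu_pow hd l
  obtain ⟨c1, c2, c3, c4⟩ := lu_pow hd' k
  rw [htr] at c1 c2 c3 c4
  have hv : C.val ^ (k + 1) = B.val ^ (l + 1) := by
    rw [← Units.val_pow_eq_pow_val, h, Units.val_pow_eq_pow_val]
  rw [hv, b1] at c1
  rw [hv, b2] at c2
  rw [hv, b3] at c3
  rw [hv, b4] at c4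
  set τ := B.val.trace with hτ
  set u := lu τ (l + 1) with hu
  set v := lu τ (k + 1) with hv'
  have hu0 : u ≠ 0 := by
    intro h0
    have p7 : |lu τ 0| < |lu τ (l + 1)| := lu_mono ht (Nat.succ_pos l)
    rw [← hu, h0] at p7
    simp [lu] at p7
  have hv0 : v ≠ 0 := by
    intro h0
    have p7 : |lu τ 0| < |lu τ (k + 1)| := lu_mono ht (Nat.succ_pos k)
    rw [← hv', h0] at p7
    simp [lu] at p7
  have c5 : u * (B.val 0 0 - B.val 1 1) = v * (C.val 0 0 - C.val 1 1) := by linarith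
  have hBd : (B.val 0 0 - B.val 1 1) ^ 2 + 4 * (B.val 0 1 * B.val 1 0) = τ ^ 2 - 4 := by
    rw [Matrix.det_fin_two] at hd
    rw [hτ, Matrix.trace_fin_two]
    linear_combination (-4) * hd
  have hCd : (C.val 0 0 - C.val 1 1) ^ 2 + 4 * (C.val 0 1 * C.val 1 0) = τ ^ 2 - 4 := by
    rw [Matrix.det_fin_two] at hd'
    rw [← htr, Matrix.trace_fin_two]
    linear_combination (-4) * hd'
  have ht9 : 9 ≤ τ ^ 2 := by
    have : |τ| ^ 2 = τ ^ 2 := sq_abs _
    nlinarith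
  have huv : u ^ 2 = v ^ 2 := by
    have h1 : u ^ 2 * (τ ^ 2 - 4) = v ^ 2 * (τ ^ 2 - 4) := by
      conv_lhs => rw [← hBd]
      conv_rhs => rw [← hCd]
      have e1 : u ^ 2 * (B.val 0 0 - B.val 1 1) ^ 2 = v ^ 2 * (C.val 0 0 - C.val 1 1) ^ 2 := by
        rw [← mul_pow, c5, mul_pow]
      have e2 : (u * B.val 0 1) * (u * B.val 1 0) = (v * C.val 0 1) * (v * C.val 1 0) := by
        rw [c2, c3]
      linear_combination e1 + 4 * e2
    exact mul_right_cancel₀ (by linarith) h1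
  have htC : C.val 0 0 + C.val 1 1 = B.val 0 0 + B.val 1 1 := by
    rw [← Matrix.trace_fin_two, ← Matrix.trace_fin_two]
    exact htr
  obtain ⟨i1, i2, i3, i4⟩ := inv_entries' hd
  rcases sq_eq_sq_iff_eq_or_eq_neg.1 huv with h1 | h1
  · left
    rw [h1] at c2 c3 c5
    have e01 := mul_left_cancel₀ hv0 c2
    have e10 := mul_left_cancel₀ hv0 c3
    have e := mul_left_cancel₀ hv0 c5
    apply Units.ext
    ext r s
    fin_cases r <;> fin_cases s
    · show C.val 0 0 = B.val 0 0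
      linarith
    · exact e01.symm
    · exact e10.symm
    · show C.val 1 1 = B.val 1 1
      linarith
  · right
    rw [h1] at c2 c3 c5
    have e01 : -B.val 0 1 = C.val 0 1 := mul_left_cancel₀ hv0 (by linarith)
    have e10 : -B.val 1 0 = C.val 1 0 := mul_left_cancel₀ hv0 (by linarith)
    have e : -(B.val 0 0 - B.val 1 1) = C.val 0 0 - C.val 1 1 :=
      mul_left_cancel₀ hv0 (by linarith)
    apply Units.ext
    ext r s
    fin_cases r <;> fin_cases s
    · show C.val 0 0 = (B⁻¹).val 0 0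
      rw [i1]
      linarith
    · show C.val 0 1 = (B⁻¹).val 0 1
      rw [i2, e01]
    · show C.val 1 0 = (B⁻¹).val 1 0
      rw [i3, e10]
    · show C.val 1 1 = (B⁻¹).val 1 1
      rw [i4]
      linarith

/-- in a group in which the powers of `B` have finite index `B` is conjugate to `B` and `B⁻¹`
only -/
theorem conj_hyp {B : GL (Fin 2) ℤ} (hd : B.val.det = 1) (ht : 3 ≤ |B.val.trace|)
    {D : Subgroup (GL (Fin 2) ℤ)} (hB : B ∈ D) (hi : (Subgroup.zpowers B).relIndex D ≠ 0)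
    {X : GL (Fin 2) ℤ} (hX : X ∈ D) : X * B * X⁻¹ = B ∨ X * B * X⁻¹ = B⁻¹ := by
  obtain ⟨k, hk, -, hk2⟩ := Subgroup.exists_pow_mem_of_relIndex_ne_zero hi
    (a := X * B * X⁻¹) (mul_mem (mul_mem hX hB) (inv_mem hX))
  have hk3 : (X * B * X⁻¹) ^ k ∈ Subgroup.zpowers B := by
    exact hk2.1
  obtain ⟨l, hl⟩ := Subgroup.mem_zpowers_iff.1 hk3
  have hCd : (X * B * X⁻¹).val.det = 1 := by
    rw [Units.val_mul, Units.val_mul, Matrix.det_mul, Matrix.det_mul, mul_comm X.val.det,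
      mul_assoc, ← Matrix.det_mul, ← Units.val_mul, mul_inv_cancel, Units.val_one,
      Matrix.det_one, mul_one, hd]
  have hCt : (X * B * X⁻¹).val.trace = B.val.trace := by
    rw [Units.val_mul, Units.val_mul, Matrix.trace_mul_comm, ← Units.val_mul, ← Units.val_mul,
      ← mul_assoc, inv_mul_cancel, one_mul]
  have hl0 : l ≠ 0 := by
    rintro rfl
    rw [zpow_zero] at hl
    have h1 := hyp_inj hCd (by rw [hCt]; exact ht) (k := (k : ℤ)) (by
      rw [zpow_natCast, ← hl])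
    omega
  rcases lt_or_gt_of_ne hl0 with h | h
  · obtain ⟨n, hn⟩ := Int.eq_ofNat_of_zero_le (show 0 ≤ -l by omega)
    have h2 : (X * B * X⁻¹) ^ k = (B⁻¹) ^ n := by
      rw [← hl, inv_pow, ← zpow_natCast, ← zpow_neg]
      congr 1
      omega
    obtain ⟨g1, g2⟩ := inv_hyp hd
    rcases pow_eq_pow g1 hCd (by rw [g2]; exact ht) (by rw [hCt, g2]) hk (by omega) h2 with h3 | h3
    · exact Or.inr h3
    · rw [inv_inv] at h3
      exact Or.inl h3
  · obtain ⟨n, hn⟩ := Int.eq_ofNat_of_zero_le (show 0 ≤ l by omega)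
    have h2 : (X * B * X⁻¹) ^ k = B ^ n := by
      rw [← hl, ← zpow_natCast B n]
      congr 1
    exact pow_eq_pow hd hCd ht hCt hk (by omega) h2

end Pool.Agent.VFib
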