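import Pool.Agent.Lib.MP_305fdd_al.VFib.Core

/-!
# MP_305fdd_al, VFib: the quotients by the kernels
-/

set_option autoImplicit false

namespace Pool.Agent.VFib

open Pool.Agent.MP_305fdd_al Pool.Agent.Lib.MP_305fdd_al Pool.Agent.F8 Pool.Agent.LF

/-- The main theorem with the quotients by the kernels. -/
theorem main_quot {Γ : Type} [Group Γ] (Γ₀ : Subgroup Γ) [Γ₀.Normal] [Γ₀.FiniteIndex]
    (c : Γ₀ →* Multiplicative ℤ) (hc : Function.Surjective c) (hfg : c.ker.FG)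
    (k : ℕ) (g : Fin k → Γ) (n : Fin k → ℤ)
    (h1 : ∀ (f : Γ₀ →* Multiplicative ℤ) (x : Γ₀), c x = 1 →
      ∏ i, f (MulAut.conjNormal (g i) x) ^ n i = 1)
    (h2 : ∃ x : Γ₀, ∏ i, c (MulAut.conjNormal (g i) x) ^ n i ≠ 1)
    (Λ : Type) [Group Λ] (hfp : Group.IsFinitelyPresented Λ) (hΛ : LERF Λ)
    (h : SameFiniteQuotients Λ Γ) :
    ∃ (Λ₀ : Subgroup Λ) (_ : Λ₀.Normal) (χ : Λ₀ →* Multiplicative ℤ),
      Nonempty (Λ ⧸ Λ₀ ≃* Γ ⧸ Γ₀) ∧ Function.Surjective χ ∧ χ.ker.FG ∧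
      SameFiniteQuotients Λ₀ Γ₀ ∧ SameFiniteQuotients χ.ker c.ker ∧
      (ProfinitelyRigid c.ker → Nonempty (χ.ker ≃* c.ker)) ∧
      ∀ _ : (c.ker.map Γ₀.subtype).Normal, ∃ _ : (χ.ker.map Λ₀.subtype).Normal,
        SameFiniteQuotients (Λ ⧸ χ.ker.map Λ₀.subtype) (Γ ⧸ c.ker.map Γ₀.subtype) := by
  have hΛfg : Group.FG Λ := fg_of_fp Λ hfp
  have hB0 : Group.FG Γ₀ := fg_of_ker c hc hfg
  have hΓfg : Group.FG Γ := fg_of_sub Γ₀ hB0
  have hfin : Finite (Γ ⧸ Γ₀) := Subgroup.finite_quotient_of_finiteIndex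
  obtain ⟨Φ⟩ := exists_natBij h
  obtain ⟨π, hπd⟩ : ∃ π : Λ →* Γ ⧸ Γ₀, π = Φ.invFun _ (QuotientGroup.mk' Γ₀) := ⟨_, rfl⟩
  have hπ : Φ.toFun _ π = QuotientGroup.mk' Γ₀ := by
    rw [hπd]
    exact Φ.right_inv _ _
  have hπs : Function.Surjective π := by
    rw [← MonoidHom.range_eq_top, ← Φ.range_eq, hπ, MonoidHom.range_eq_top]
    exact QuotientGroup.mk'_surjective Γ₀
  have hA : π.ker = (⊥ : Subgroup (Γ ⧸ Γ₀)).comap π := (MonoidHom.comap_bot π).symm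
  have hB : Γ₀ = (⊥ : Subgroup (Γ ⧸ Γ₀)).comap (QuotientGroup.mk' Γ₀) := by
    rw [MonoidHom.comap_bot, QuotientGroup.ker_mk']
  obtain ⟨Ψ, hΨ⟩ := exists_Psi Φ hπ hA hB
  have hconj : ∀ (l : Λ) (y : Γ), π l = QuotientGroup.mk' Γ₀ y →
      CA Ψ (MulAut.conjNormal l : MulAut π.ker) (MulAut.conjNormal y : MulAut Γ₀) := by
    intro l y hly P _ _ ψ
    exact cor_unique Φ hπ hA hB (hΨ P _) (cor_conj Φ hπ hA (hΨ P ψ) l y hly)
  choose l hl using fun i => hπs (QuotientGroup.mk' Γ₀ (g i))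
  have hfi : π.ker.FiniteIndex := Subgroup.finiteIndex_ker π
  have hA0 : Group.FG π.ker := Subgroup.fg_of_index_ne_zero π.ker
  obtain ⟨χ, hχ, hM⟩ := iso_class Ψ (fun i => (MulAut.conjNormal (l i) : MulAut π.ker))
    (fun i => (MulAut.conjNormal (g i) : MulAut Γ₀)) n (fun i => hconj _ _ (hl i)) c
    (fun f x hx => h1 f x hx) h2
  have hfp0 : Group.IsFinitelyPresented π.ker := fp_of_finiteIndex hfp π.ker
  have hL0 : LERF π.ker := lerf_sub hΛ π.ker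
  have hfg' : χ.ker.FG := p_F p_A (p_B p_B1 p_B2) π.ker Γ₀ Ψ χ c hL0 hχ hc hfg hM
  have hm := p_C2 π.ker Γ₀ Ψ χ c hχ hc hM
  have hm' : ∀ (R : Type) [Group R] [Finite R] (θ : Γ₀ →* R),
      c.ker.map θ = χ.ker.map (Ψ.symm.toFun R θ) := fun R _ _ θ => by
    have h3 := hm R (Ψ.invFun R θ)
    rw [Ψ.right_inv] at h3
    exact h3.symm
  have hsame : SameFiniteQuotients χ.ker c.ker := fun P _ _ =>
    ⟨fun ⟨p, hp⟩ => p_D π.ker Γ₀ Ψ χ c hχ hfg' (fun R _ _ θ => hm R θ) P p hp,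
      fun ⟨p, hp⟩ => p_D Γ₀ π.ker Ψ.symm c χ hc hfg (fun R _ _ θ => hm' R θ) P p hp⟩
  refine ⟨π.ker, inferInstance, χ, ⟨QuotientGroup.quotientKerEquivOfSurjective π hπs⟩, hχ, hfg',
    same_natBij Ψ, hsame,
    fun hr => hr χ.ker ⟨(Group.fg_iff_subgroup_fg _).2 hfg', rf_of_lerf hL0 _, hsame⟩,
    fun hn => ?_⟩
  have hN : (χ.ker.map π.ker.subtype).Normal := by
    refine ⟨?_⟩
    rintro _ ⟨x, hx, rfl⟩ t
    obtain ⟨y, hy⟩ := QuotientGroup.mk'_surjective Γ₀ (π t)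
    have h3 := ker_conj Ψ (hconj t y hy.symm) hχ hc hM (fun z hz => by
      obtain ⟨w, hw, h4⟩ := hn.conj_mem _ ⟨z, hz, rfl⟩ y
      have h5 : w = MulAut.conjNormal y z := Subtype.ext h4
      rw [← h5]
      exact hw) x hx
    exact ⟨_, h3, rfl⟩
  refine ⟨hN, ?_⟩
  -- the restriction of `θ` and the restriction of `Φ θ` correspond
  have hres : ∀ (P : Type) [Group P] [Finite P] (θ : Λ →* P),
      Ψ.toFun P (θ.comp π.ker.subtype) = (Φ.toFun P θ).comp Γ₀.subtype := fun P _ _ θ =>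
    cor_unique Φ hπ hA hB (hΨ P _) ⟨P, _, ‹_›, θ, fun _ _ e => e⟩
  have hker : ∀ (P : Type) [Group P] [Finite P] (θ : Λ →* P),
      χ.ker.map π.ker.subtype ≤ θ.ker ↔ c.ker.map Γ₀.subtype ≤ (Φ.toFun P θ).ker := by
    intro P _ _ θ
    rw [← Subgroup.map_eq_bot_iff, ← Subgroup.map_eq_bot_iff, Subgroup.map_map, Subgroup.map_map,
      ← hres, hm P (θ.comp π.ker.subtype)]
  intro P _ _
  constructor
  · rintro ⟨φ, hφ⟩
    have e1 : χ.ker.map π.ker.subtype ≤ (φ.comp (QuotientGroup.mk' _)).ker := fun x hx => by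
      rw [MonoidHom.mem_ker, MonoidHom.comp_apply, QuotientGroup.mk'_apply,
        (QuotientGroup.eq_one_iff x).2 hx, map_one]
    have e2 := (hker P _).1 e1
    refine ⟨QuotientGroup.lift _ (Φ.toFun P (φ.comp (QuotientGroup.mk' _))) e2, ?_⟩
    have e3 : Function.Surjective (Φ.toFun P (φ.comp (QuotientGroup.mk' _))) := by
      rw [← MonoidHom.range_eq_top, Φ.range_eq, MonoidHom.range_eq_top]
      exact hφ.comp (QuotientGroup.mk'_surjective _)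
    intro p
    obtain ⟨y, hy⟩ := e3 p
    exact ⟨QuotientGroup.mk y, hy⟩
  · rintro ⟨φ, hφ⟩
    obtain ⟨θ, hθ⟩ : ∃ θ : Λ →* P, Φ.toFun P θ = φ.comp (QuotientGroup.mk' _) :=
      ⟨Φ.invFun P (φ.comp (QuotientGroup.mk' _)), Φ.right_inv _ _⟩
    have e1 : c.ker.map Γ₀.subtype ≤ (Φ.toFun P θ).ker := fun x hx => by
      rw [hθ, MonoidHom.mem_ker, MonoidHom.comp_apply, QuotientGroup.mk'_apply,
        (QuotientGroup.eq_one_iff x).2 hx, map_one]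
    have e2 := (hker P θ).2 e1
    refine ⟨QuotientGroup.lift _ θ e2, ?_⟩
    have e3 : Function.Surjective θ := by
      rw [← MonoidHom.range_eq_top, ← Φ.range_eq, hθ, MonoidHom.range_eq_top]
      exact hφ.comp (QuotientGroup.mk'_surjective _)
    intro p
    obtain ⟨y, hy⟩ := e3 p
    exact ⟨QuotientGroup.mk y, hy⟩

end Pool.Agent.VFib
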