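import Pool.Agent.Lib.MP_305fdd_al.VFib.Core
import Pool.Agent.Lib.MP_305fdd_al.LF.Fin
import Pool.Agent.Lib.MP_305fdd_al.F2X.Main

/-!
# MP_305fdd_al, VFib: semi-bundles, algebra
-/

set_option autoImplicit false

namespace Pool.Agent.VFib

open Pool.Agent.MP_305fdd_al Pool.Agent.Lib.MP_305fdd_al Pool.Agent.F2X Pool.Agent.F8
  Pool.Agent.F8.HN
open Pool.Agent.F8.OV (liftA liftA_iA liftA_tA homA_ext cj_equiv)

/-- matrices which are hyperbolic have infinite order -/
theorem hyp_pow {B : Matrix (Fin 2) (Fin 2) ℤ} (hd : B.det = 1) (ht : 3 ≤ |B.trace|) (n : ℕ) :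
    ∃ u v : ℤ, |v| < |u| ∧ (B ^ (n + 1)) 0 0 = u * B 0 0 - v ∧ (B ^ (n + 1)) 0 1 = u * B 0 1 ∧
      (B ^ (n + 1)) 1 0 = u * B 1 0 ∧ (B ^ (n + 1)) 1 1 = u * B 1 1 - v := by
  rw [Matrix.det_fin_two] at hd
  rw [Matrix.trace_fin_two] at ht
  induction n with
  | zero => exact ⟨1, 0, by norm_num, by simp, by simp, by simp, by simp⟩
  | succ n ih =>
    obtain ⟨u, v, h1, h2, h3, h4, h5⟩ := ih
    refine ⟨u * (B 0 0 + B 1 1) - v, u, ?_, ?_, ?_, ?_, ?_⟩
    · have h6 : |u| * 3 ≤ |u * (B 0 0 + B 1 1)| := by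
        rw [abs_mul]
        exact mul_le_mul_of_nonneg_left ht (abs_nonneg u)
      have h7 : |u * (B 0 0 + B 1 1)| - |v| ≤ |u * (B 0 0 + B 1 1) - v| :=
        abs_sub_abs_le_abs_sub _ _
      have h8 := abs_nonneg u
      linarith
    · rw [pow_succ, Matrix.mul_apply, Fin.sum_univ_two, h2, h3]
      linear_combination (-u) * hd
    · rw [pow_succ, Matrix.mul_apply, Fin.sum_univ_two, h2, h3]
      ring
    · rw [pow_succ, Matrix.mul_apply, Fin.sum_univ_two, h4, h5]
      ring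
    · rw [pow_succ, Matrix.mul_apply, Fin.sum_univ_two, h4, h5]
      linear_combination (-u) * hd

theorem hyp_inj {B : GL (Fin 2) ℤ} (hd : B.val.det = 1) (ht : 3 ≤ |B.val.trace|) {k : ℤ}
    (h : B ^ k = 1) : k = 0 := by
  have key : ∀ n : ℕ, B ^ (n + 1) ≠ 1 := by
    intro n hn
    obtain ⟨u, v, h1, e00, e01, e10, e11⟩ := hyp_pow hd ht n
    have h3 : B.val ^ (n + 1) = 1 := by
      rw [← Units.val_pow_eq_pow_val, hn, Units.val_one]
    rw [h3] at e00 e01 e10 e11
    have hu : u ≠ 0 := by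
      rintro rfl
      have := abs_nonneg v
      rw [abs_zero] at h1
      linarith
    rw [Matrix.one_apply_eq] at e00 e11
    rw [Matrix.one_apply_ne (by decide)] at e01
    have f01 : B.val 0 1 = 0 := by
      rcases mul_eq_zero.1 e01.symm with h | h
      · exact absurd h hu
      · exact h
    have f : B.val 0 0 = B.val 1 1 := by
      apply mul_left_cancel₀ hu
      linarith
    rw [Matrix.det_fin_two, f01, f, zero_mul, sub_zero] at hd
    rw [Matrix.trace_fin_two, f] at ht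
    rcases Int.eq_one_or_neg_one_of_mul_eq_one hd with h | h <;> rw [h] at ht <;> norm_num at ht
  rcases Int.lt_trichotomy k 0 with h0 | h0 | h0
  · exfalso
    obtain ⟨n, hn⟩ := Int.eq_ofNat_of_zero_le (show 0 ≤ -k - 1 by omega)
    apply key n
    have h1 : B ^ (-k) = 1 := by rw [zpow_neg, h, inv_one]
    rw [show -k = ((n + 1 : ℕ) : ℤ) by push_cast; omega, zpow_natCast] at h1
    exact h1
  · exact h0
  · exfalso
    obtain ⟨n, hn⟩ := Int.eq_ofNat_of_zero_le (show 0 ≤ k - 1 by omega)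
    apply key n
    rw [show k = ((n + 1 : ℕ) : ℤ) by push_cast; omega, zpow_natCast] at h
    exact h

theorem hyp_zinj {B : GL (Fin 2) ℤ} (hd : B.val.det = 1) (ht : 3 ≤ |B.val.trace|) {k l : ℤ}
    (h : B ^ k = B ^ l) : k = l := by
  have h1 : B ^ (k - l) = 1 := by rw [zpow_sub, h, mul_inv_cancel]
  have := hyp_inj hd ht h1
  omega

/-- the product of two involutions -/
theorem inv_det {J K : GL (Fin 2) ℤ} (hJ : J * J = 1) (hK : K * K = 1)
    (ht : (J * K).val.trace ≠ 0) : (J * K).val.det = 1 := by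
  have h1 : (J * K)⁻¹ = K * J := by
    rw [mul_inv_rev, eq_comm, inv_eq_of_mul_eq_one_left hK, inv_eq_of_mul_eq_one_left hJ]
  have h2 : ((J * K)⁻¹).val.trace = (J * K).val.trace := by
    rw [h1, Units.val_mul, Units.val_mul, Matrix.trace_mul_comm]
  have h3 : ((J * K)⁻¹).val.trace = (J * K).val.det * (J * K).val.trace := by
    rw [LF.inv_eq_adj, Matrix.trace_smul, Matrix.trace_fin_two, Matrix.adjugate_fin_two,
      Matrix.trace_fin_two]
    show _ • ((J * K).val 1 1 + (J * K).val 0 0) = _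
    rw [smul_eq_mul, add_comm]
  rw [h2] at h3
  have h4 : ((J * K).val.det - 1) * (J * K).val.trace = 0 := by linarith
  rcases mul_eq_zero.1 h4 with h | h
  · linarith
  · exact absurd h ht

/-- the elements of the group generated by two involutions -/
theorem mem_dih {M : Type} [Group M] {J K : M} (hJ : J * J = 1) (hK : K * K = 1) {x : M}
    (hx : x ∈ Subgroup.closure ({J, K} : Set M)) :
    ∃ i : ℤ, x = (J * K) ^ i ∨ x = J * (J * K) ^ i := by
  have hc : ∀ i : ℤ, (J * K) ^ i * J = J * (J * K) ^ (-i) := by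
    intro i
    have h1 : J * K * J = J * (J * K)⁻¹ := by
      rw [mul_inv_rev, inv_eq_of_mul_eq_one_left hK, inv_eq_of_mul_eq_one_left hJ, mul_assoc]
    have h2 : J⁻¹ * (J * K) * J = (J * K)⁻¹ := by
      rw [mul_assoc, h1, inv_mul_cancel_left]
    have h3 : J⁻¹ * (J * K) ^ i * J = (J * K) ^ (-i) := by
      have h4 : J⁻¹ * (J * K) ^ i * J = (J⁻¹ * (J * K) * J) ^ i := by
        have := (conj_zpow (a := J⁻¹) (b := J * K) (i := i))
        rw [inv_inv] at this
        exact this.symm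
      rw [h4, h2, inv_zpow, zpow_neg]
    rw [← h3]
    group
  have hJi : J⁻¹ = J := inv_eq_of_mul_eq_one_left hJ
  induction hx using Subgroup.closure_induction with
  | mem x hx =>
    rcases hx with rfl | rfl
    · exact ⟨0, Or.inr (by simp)⟩
    · refine ⟨1, Or.inr ?_⟩
      rw [zpow_one, ← mul_assoc, hJ, one_mul]
  | one => exact ⟨0, Or.inl (by simp)⟩
  | mul x y _ _ hx hy =>
    obtain ⟨i, hi⟩ := hx
    obtain ⟨j, hj⟩ := hy
    rcases hi with rfl | rfl <;> rcases hj with rfl | rfl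
    · exact ⟨i + j, Or.inl (by rw [zpow_add])⟩
    · refine ⟨-i + j, Or.inr ?_⟩
      rw [← mul_assoc, hc, mul_assoc, ← zpow_add]
    · exact ⟨i + j, Or.inr (by rw [mul_assoc, zpow_add])⟩
    · refine ⟨-i + j, Or.inl ?_⟩
      rw [mul_assoc, ← mul_assoc ((J * K) ^ i), hc, mul_assoc, ← zpow_add, ← mul_assoc, hJ, one_mul]
  | inv x _ hx =>
    obtain ⟨i, hi⟩ := hx
    rcases hi with rfl | rfl
    · exact ⟨-i, Or.inl (by rw [zpow_neg])⟩
    · refine ⟨i, Or.inr ?_⟩
      rw [mul_inv_rev, hJi, ← zpow_neg, hc, neg_neg]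

end Pool.Agent.VFib
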