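import Pool.Agent.Lib.MP_305fdd_al.VFib.Semi1

/-!
# MP_305fdd_al, VFib: the preimages in `Aut(F₂)` of the groups generated by two involutions
-/

set_option autoImplicit false

namespace Pool.Agent.VFib

open Pool.Agent.MP_305fdd_al Pool.Agent.Lib.MP_305fdd_al Pool.Agent.F2X Pool.Agent.F8
  Pool.Agent.F8.HN
open Pool.Agent.F8.OV (liftA liftA_iA liftA_tA homA_ext cj_equiv)

theorem inv_conj {M : Type} [Group M] {J K : M} (hJ : J * J = 1) (hK : K * K = 1) (k : ℤ) :
    J * (J * K) ^ k * J⁻¹ = (J * K) ^ (-k) := by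
  have h0 : J * (J * K) * J⁻¹ = (J * K)⁻¹ := by
    rw [mul_inv_rev, inv_eq_of_mul_eq_one_left hK, inv_eq_of_mul_eq_one_left hJ, ← mul_assoc, hJ,
      one_mul]
  rw [← conj_zpow, h0, inv_zpow, zpow_neg]

/-- the involutions are not powers of the product -/
theorem inv_notMem {J K : GL (Fin 2) ℤ} (hJ : J * J = 1) (hK : K * K = 1)
    (ht : 3 ≤ |(J * K).val.trace|) (i k : ℤ) : J * (J * K) ^ i ≠ (J * K) ^ k := by
  intro h
  have hd : (J * K).val.det = 1 := inv_det hJ hK fun h0 => by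
    rw [h0, abs_zero] at ht
    norm_num at ht
  have h1 : J = (J * K) ^ (k - i) := by
    rw [zpow_sub, ← h, mul_inv_cancel_right]
  have h2 := inv_conj hJ hK 1
  have h3 : J * (J * K) ^ (1 : ℤ) * J⁻¹ = (J * K) ^ (1 : ℤ) := by
    have h4 : J * (J * K) ^ (1 : ℤ) = (J * K) ^ (1 : ℤ) * J := by
      have h5 : (J * K) ^ (k - i) * (J * K) ^ (1 : ℤ) = (J * K) ^ (1 : ℤ) * (J * K) ^ (k - i) := by
        rw [← zpow_add, ← zpow_add, add_comm]
      rw [← h1] at h5
      exact h5
    rw [h4, mul_inv_cancel_right]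
  rw [h3] at h2
  have := hyp_zinj hd ht h2
  omega

/-- the preimage -/
abbrev Pre (D : Subgroup (GL (Fin 2) ℤ)) : Subgroup (MulAut F) := D.comap AM

/-- the bundle group as a group of automorphisms -/
theorem bundle_aut (β : MulAut F) (hd : (AM β).val.det = 1) (ht : 3 ≤ |(AM β).val.trace|) :
    ∃ f : GA β →* MulAut F, Function.Injective f ∧ (∀ x, AM (f x) = AM β ^ (Multiplicative.toAdd
      (nA β x))) ∧ ∀ α, (∃ k : ℤ, AM α = AM β ^ k) → α ∈ f.range := by
  have h : ∀ w, (MulAut.conj : F →* MulAut F) (β w) = β * MulAut.conj w * β⁻¹ := by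
    intro w
    ext v
    rw [MulAut.mul_apply, MulAut.mul_apply, MulAut.conj_apply, MulAut.conj_apply, map_mul, map_mul,
      map_inv, MulAut.apply_inv_self]
  let f : GA β →* MulAut F := liftA MulAut.conj β h
  have fi : ∀ w, f (iA β w) = MulAut.conj w := fun w => liftA_iA _ _ _ w
  have ft : f (tA β) = β := liftA_tA _ _ _
  have hA : ∀ x, AM (f x) = AM β ^ (Multiplicative.toAdd (nA β x)) := by
    intro x
    obtain ⟨w, n, rfl⟩ := GA_cases β x
    rw [map_mul, map_mul, map_zpow, map_zpow, fi, ft, AM_conj, one_mul, map_mul, nA_iA, one_mul,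
      map_zpow, nA_tA, ← ofAdd_zsmul]
    simp
  have hf : Function.Injective f := by
    rw [injective_iff_map_eq_one]
    intro x hx
    have h1 := hA x
    rw [hx, map_one] at h1
    have h2 := hyp_inj hd ht h1.symm
    have h3 : nA β x = 1 := Multiplicative.toAdd.injective h2
    obtain ⟨w, rfl⟩ := GA_ker β x h3
    rw [fi] at hx
    have h4 : w = 1 := p_cen w fun v => by
      have h5 := DFunLike.congr_fun hx v
      rw [MulAut.conj_apply, MulAut.one_apply] at h5
      calc w * v = w * v * w⁻¹ * w := by group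
        _ = v * w := by rw [h5]
    rw [h4, map_one]
  refine ⟨f, hf, hA, ?_⟩
  rintro α ⟨k, hk⟩
  have h1 : AM (α * (β ^ k)⁻¹) = 1 := by
    rw [map_mul, map_inv, map_zpow, hk, mul_inv_cancel]
  obtain ⟨g, hg⟩ := all_out _ h1
  refine ⟨iA β g * tA β ^ k, ?_⟩
  rw [map_mul, map_zpow, fi, ft, ← hg, inv_mul_cancel_right]

/-- the structure of `Γ` -/
theorem gam_side {J K : GL (Fin 2) ℤ} (hJ : J * J = 1) (hK : K * K = 1)
    (ht : 3 ≤ |(J * K).val.trace|) :
    ∃ (Γ₀ : Subgroup (Pre (Subgroup.closure {J, K}))) (_ : Γ₀.Normal) (β : MulAut F)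
      (e : Γ₀ ≃* GA β), Γ₀.index = 2 ∧ AM β = J * K ∧ ∀ y ∉ Γ₀, ∀ x : Γ₀,
        nA β (e (MulAut.conjNormal y x)) = (nA β (e x))⁻¹ := by
  have hd : (J * K).val.det = 1 := inv_det hJ hK fun h0 => by
    rw [h0, abs_zero] at ht
    norm_num at ht
  obtain ⟨β, hβ⟩ := p_sur (J * K)
  obtain ⟨f, hf, hA, hr⟩ := bundle_aut β (by rw [hβ]; exact hd) (by rw [hβ]; exact ht)
  have hBD : J * K ∈ Subgroup.closure ({J, K} : Set (GL (Fin 2) ℤ)) :=
    mul_mem (Subgroup.subset_closure (by simp)) (Subgroup.subset_closure (by simp))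
  have hJD : J ∈ Subgroup.closure ({J, K} : Set (GL (Fin 2) ℤ)) :=
    Subgroup.subset_closure (by simp)
  have hrm : ∀ α, α ∈ f.range ↔ ∃ k : ℤ, AM α = (J * K) ^ k := by
    intro α
    constructor
    · rintro ⟨x, rfl⟩
      exact ⟨_, by rw [hA, hβ]⟩
    · rintro ⟨k, hk⟩
      exact hr α ⟨k, by rw [hβ]; exact hk⟩
  have hle : f.range ≤ Pre (Subgroup.closure {J, K}) := by
    intro α hα
    obtain ⟨k, hk⟩ := (hrm α).1 hα
    show AM α ∈ Subgroup.closure {J, K}
    rw [hk]
    exact zpow_mem hBD k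
  have hn : (f.range.subgroupOf (Pre (Subgroup.closure {J, K}))).Normal := by
    refine ⟨fun x hx y => ?_⟩
    obtain ⟨k, hk⟩ := (hrm _).1 hx
    have hk1 : AM (x : MulAut F) = (J * K) ^ k := hk
    show (y : MulAut F) * x * (y : MulAut F)⁻¹ ∈ f.range
    rw [hrm, map_mul, map_mul, map_inv, hk1]
    obtain ⟨i, hi | hi⟩ := mem_dih hJ hK y.2
    · have hi' : AM (y : MulAut F) = (J * K) ^ i := hi
      refine ⟨k, ?_⟩
      rw [hi', ← zpow_add, ← zpow_neg, ← zpow_add]
      congr 1
      ring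
    · have hi' : AM (y : MulAut F) = J * (J * K) ^ i := hi
      refine ⟨-k, ?_⟩
      rw [hi', ← inv_conj hJ hK k, mul_inv_rev]
      have : (J * K) ^ i * (J * K) ^ k * ((J * K) ^ i)⁻¹ = (J * K) ^ k := by
        rw [← zpow_add, ← zpow_neg, ← zpow_add]
        congr 1
        ring
      rw [← this]
      group
  let e : f.range.subgroupOf (Pre (Subgroup.closure {J, K})) ≃* GA β :=
    (Subgroup.subgroupOfEquivOfLe hle).trans (MonoidHom.ofInjective hf).symm
  have he : ∀ x, f (e x) = ((x : Pre (Subgroup.closure {J, K})) : MulAut F) := by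
    intro x
    have h1 := (MonoidHom.ofInjective hf).apply_symm_apply (Subgroup.subgroupOfEquivOfLe hle x)
    exact congrArg Subtype.val h1
  refine ⟨_, hn, β, e, ?_, hβ, ?_⟩
  · rw [Subgroup.index_eq_two_iff]
    obtain ⟨a, ha⟩ := p_sur J
    have haD : a ∈ Pre (Subgroup.closure {J, K}) := by
      rw [Subgroup.mem_comap, ha]
      exact hJD
    refine ⟨⟨a, haD⟩, fun b => ?_⟩
    obtain ⟨i, hi | hi⟩ := mem_dih hJ hK b.2
    · have hi' : AM (b : MulAut F) = (J * K) ^ i := hi
      refine Or.inr ⟨?_, ?_⟩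
      · show (b : MulAut F) ∈ f.range
        exact (hrm _).2 ⟨i, hi'⟩
      · intro h1
        obtain ⟨k, hk⟩ := (hrm _).1 (show ((b * ⟨a, haD⟩ : Pre _) : MulAut F) ∈ f.range from h1)
        have hk' : AM (b : MulAut F) * AM a = (J * K) ^ k := by
          rw [← map_mul]
          exact hk
        rw [hi', ha] at hk'
        apply inv_notMem hJ hK ht (-i) k
        rw [← hk', ← inv_conj hJ hK i]
        have hJi : J⁻¹ = J := inv_eq_of_mul_eq_one_left hJ
        rw [hJi, ← mul_assoc, ← mul_assoc, hJ, one_mul]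
    · have hi' : AM (b : MulAut F) = J * (J * K) ^ i := hi
      refine Or.inl ⟨?_, ?_⟩
      · show ((b * ⟨a, haD⟩ : Pre _) : MulAut F) ∈ f.range
        rw [hrm]
        refine ⟨-i, ?_⟩
        show AM ((b : MulAut F) * a) = _
        rw [map_mul, hi', ha, ← inv_conj hJ hK i, inv_eq_of_mul_eq_one_left hJ]
      · intro h1
        obtain ⟨k, hk⟩ := (hrm _).1 (show (b : MulAut F) ∈ f.range from h1)
        rw [hi'] at hk
        exact inv_notMem hJ hK ht i k hk
  · intro y hy x
    have hy' : ¬ ∃ k : ℤ, AM (y : MulAut F) = (J * K) ^ k := fun h => hy ((hrm _).2 h)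
    obtain ⟨i, hi | hi⟩ := mem_dih hJ hK y.2
    · exact absurd ⟨i, hi⟩ hy'
    · have hi' : AM (y : MulAut F) = J * (J * K) ^ i := hi
      have h1 := hA (e (MulAut.conjNormal y x))
      have h2 := hA (e x)
      rw [he, hβ] at h1 h2
      have h3 : AM ((y : MulAut F) * ((x : Pre (Subgroup.closure {J, K})) : MulAut F) *
          (y : MulAut F)⁻¹) = (J * K) ^ (Multiplicative.toAdd (nA β (e (MulAut.conjNormal y x)))) :=
        h1
      rw [map_mul, map_mul, map_inv, hi', h2, mul_inv_rev] at h3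
      have h4 : (J * K) ^ i * (J * K) ^ (Multiplicative.toAdd (nA β (e x))) * ((J * K) ^ i)⁻¹ =
          (J * K) ^ (Multiplicative.toAdd (nA β (e x))) := by
        rw [← zpow_add, ← zpow_neg, ← zpow_add]
        congr 1
        ring
      have h5 : (J * K) ^ (-(Multiplicative.toAdd (nA β (e x)))) =
          (J * K) ^ (Multiplicative.toAdd (nA β (e (MulAut.conjNormal y x)))) := by
        rw [← inv_conj hJ hK, ← h3, ← h4]
        group
      have h6 := hyp_zinj hd ht h5
      apply Multiplicative.toAdd.injective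
      rw [toAdd_inv]
      exact h6.symm

end Pool.Agent.VFib
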