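import Pool.Agent.Lib.MP_305fdd_al.VFib.Hyp

/-!
# MP_305fdd_al, VFib: the powers of a hyperbolic matrix are separable
-/

set_option autoImplicit false

namespace Pool.Agent.VFib

open Pool.Agent.MP_305fdd_al Pool.Agent.Lib.MP_305fdd_al Pool.Agent.F2X

theorem red_dvd {A C : GL (Fin 2) ℤ} {m : ℕ} (h : F2X.red m A = F2X.red m C) (i j : Fin 2) :
    (m : ℤ) ∣ A.val i j - C.val i j := by
  have h0 : (F2X.red m C).val = (F2X.red m A).val := by rw [h]
  have h1 : ((C.val i j : ℤ) : ZMod m) = ((A.val i j : ℤ) : ZMod m) := congrFun (congrFun h0 i) j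
  exact (ZMod.intCast_eq_intCast_iff_dvd_sub _ _ _).1 h1

theorem red_ext {A C : GL (Fin 2) ℤ} (h : ∀ m : ℕ, 0 < m → F2X.red m A = F2X.red m C) :
    A = C := by
  apply Units.ext
  ext i j
  have h1 := red_dvd (h ((A.val i j - C.val i j).natAbs + 1) (Nat.succ_pos _)) i j
  by_contra hne
  have h2 : A.val i j - C.val i j ≠ 0 := sub_ne_zero.2 hne
  have h3 := Int.le_of_dvd (Int.natAbs_pos.2 h2 |> Int.natCast_pos.2) (Int.dvd_natAbs.2 h1)
  push_cast at h3
  linarith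

/-- the equations for commuting matrices -/
theorem comm_eq {B Z : GL (Fin 2) ℤ} (h : Z * B = B * Z) :
    B.val 0 1 * (Z.val 0 0 - Z.val 1 1) = Z.val 0 1 * (B.val 0 0 - B.val 1 1) ∧
    Z.val 0 1 * B.val 1 0 = B.val 0 1 * Z.val 1 0 := by
  have h1 : Z.val * B.val = B.val * Z.val := by rw [← Units.val_mul, h, Units.val_mul]
  have e00 := congrFun (congrFun h1 0) 0
  have e01 := congrFun (congrFun h1 0) 1
  rw [Matrix.mul_apply, Matrix.mul_apply, Fin.sum_univ_two, Fin.sum_univ_two] at e00 e01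
  constructor
  · linear_combination e01
  · linear_combination e00

theorem not_sq {τ k : ℤ} (hτ : 3 ≤ |τ|) (h : k ^ 2 = τ ^ 2 - 4) : False := by
  have h1 : |k| ^ 2 = |τ| ^ 2 - 4 := by rw [sq_abs, sq_abs]; exact h
  have h2 : |k| < |τ| := by nlinarith [abs_nonneg k, abs_nonneg τ]
  have h3 : |k| ≤ |τ| - 1 := by linarith
  nlinarith [abs_nonneg k]

theorem tors {B Z : GL (Fin 2) ℤ} (hd : B.val.det = 1) (ht : 3 ≤ |B.val.trace|)
    (hc : Z * B = B * Z) {n : ℕ} (hn : 0 < n) (hZ : Z ^ n = 1) : Z = 1 ∨ Z.val = -1 := by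
  have hZ' : Z.val ^ n = 1 := by rw [← Units.val_pow_eq_pow_val, hZ, Units.val_one]
  obtain ⟨f1, f2, f3⟩ := p_fo Z.val n hn hZ'
  obtain ⟨c1, c2⟩ := comm_eq hc
  have hb := (trace_pow_cont hd ht).2
  have hB : (B.val 0 0 - B.val 1 1) ^ 2 + 4 * (B.val 0 1 * B.val 1 0) = B.val.trace ^ 2 - 4 := by
    rw [Matrix.det_fin_two] at hd
    rw [Matrix.trace_fin_two]
    linear_combination (-4) * hd
  have hdisc : B.val 0 1 ^ 2 * ((Z.val 0 0 - Z.val 1 1) ^ 2 + 4 * (Z.val 0 1 * Z.val 1 0)) =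
      Z.val 0 1 ^ 2 * (B.val.trace ^ 2 - 4) := by
    rw [← hB]
    have e1 : B.val 0 1 ^ 2 * (Z.val 0 0 - Z.val 1 1) ^ 2 =
        Z.val 0 1 ^ 2 * (B.val 0 0 - B.val 1 1) ^ 2 := by
      rw [← mul_pow, c1, mul_pow]
    linear_combination e1 - 4 * B.val 0 1 * Z.val 0 1 * c2
  have hZd : (Z.val 0 0 - Z.val 1 1) ^ 2 + 4 * (Z.val 0 1 * Z.val 1 0) =
      Z.val.trace ^ 2 - 4 * Z.val.det := by
    rw [Matrix.det_fin_two, Matrix.trace_fin_two]
    ring
  rw [hZd] at hdisc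
  have hb2 : 0 < B.val 0 1 ^ 2 := by positivity
  have ht2 : 9 ≤ B.val.trace ^ 2 := by
    have : |B.val.trace| ^ 2 = B.val.trace ^ 2 := sq_abs _
    nlinarith
  rcases f3 with f3 | f3
  · rcases f1 f3 with g | g | g
    · exfalso
      have g2 : Z.val.trace ^ 2 ≤ 1 := by
        have : |Z.val.trace| ^ 2 = Z.val.trace ^ 2 := sq_abs _
        nlinarith [abs_nonneg Z.val.trace]
      rw [f3] at hdisc
      have : 0 ≤ Z.val 0 1 ^ 2 * (B.val.trace ^ 2 - 4) := by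
        apply mul_nonneg (sq_nonneg _)
        linarith
      nlinarith
    · exact Or.inl (Units.ext g)
    · exact Or.inr g
  · exfalso
    rw [f3, (f2 f3).1] at hdisc
    have h1 : (2 * B.val 0 1) ^ 2 = Z.val 0 1 ^ 2 * (B.val.trace ^ 2 - 4) := by
      rw [← hdisc]
      ring
    have h2 : Z.val 0 1 ∣ 2 * B.val 0 1 := by
      rw [← Int.pow_dvd_pow_iff (two_ne_zero), h1]
      exact dvd_mul_right _ _
    obtain ⟨k, hk⟩ := h2
    rw [hk, mul_pow] at h1
    have hz : Z.val 0 1 ≠ 0 := by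
      intro h0
      rw [h0, zero_mul] at hk
      exact hb (by linarith)
    exact not_sq ht (mul_left_cancel₀ (pow_ne_zero 2 hz) h1)

theorem sep {B Y : GL (Fin 2) ℤ} (hd : B.val.det = 1) (ht : 3 ≤ |B.val.trace|) {n : ℕ}
    (hn : 0 < n) {i : ℤ} (hY : Y ^ n = B ^ i)
    (hs : ∀ m : ℕ, 0 < m → ∃ k : ℤ, F2X.red m Y = F2X.red m B ^ k) : ∃ k : ℤ, Y = B ^ k := by
  have hcomm : Y * B = B * Y := by
    apply red_ext
    intro m hm
    obtain ⟨k, hk⟩ := hs m hm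
    rw [map_mul, map_mul, hk, ← zpow_add_one, ← zpow_one_add, add_comm]
  have hc0 := (trace_pow_cont hd ht).1
  have hlu : ∀ N : ℕ, 0 < N → (lu B.val.trace N).natAbs ≠ 0 := by
    intro N hN
    rw [Ne, Int.natAbs_eq_zero]
    intro h
    have p7 : |lu B.val.trace 0| < |lu B.val.trace N| := lu_mono ht hN
    rw [h] at p7
    simp [lu] at p7
  -- congruences give divisibilities
  have hscal : ∀ (N : ℕ), 0 < N → ∀ (j : ℤ), B ^ j ∈ scal (LF.cont B.val * lu B.val.trace N) →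
      (N : ℤ) ∣ j := by
    intro N hN j hj
    have h1 : B ^ j.natAbs ∈ scal (LF.cont B.val * lu B.val.trace N) := by
      rcases Int.natAbs_eq j with h | h
      · rw [h, zpow_natCast] at hj
        exact hj
      · rw [h, zpow_neg, zpow_natCast] at hj
        exact (Subgroup.inv_mem_iff _).1 hj
    exact Int.natCast_dvd.2 (scal_pow hd ht hN h1)
  have hred : ∀ (N : ℕ) (A : GL (Fin 2) ℤ), (A ∈ scal (((LF.cont B.val *
      (lu B.val.trace N).natAbs : ℕ)) : ℤ)) → A ∈ scal (LF.cont B.val * lu B.val.trace N) := by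
    intro N A h
    have e : ∀ x : ℤ, (((LF.cont B.val * (lu B.val.trace N).natAbs : ℕ)) : ℤ) ∣ x →
        (LF.cont B.val : ℤ) * lu B.val.trace N ∣ x := by
      intro x hx
      rw [← Int.natAbs_dvd_natAbs, Int.natAbs_mul, Int.natAbs_natCast]
      have := Int.natAbs_dvd_natAbs.2 hx
      rwa [Int.natAbs_natCast] at this
    exact ⟨e _ h.1, e _ h.2.1, e _ h.2.2⟩
  have hmemred : ∀ (m : ℕ) (A C : GL (Fin 2) ℤ), F2X.red m A = F2X.red m C → C ∈ scal m →
      A ∈ scal m := by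
    intro m A C h hC
    refine ⟨?_, ?_, ?_⟩
    · exact (dvd_iff_dvd_of_dvd_sub (red_dvd h 0 1)).2 hC.1
    · exact (dvd_iff_dvd_of_dvd_sub (red_dvd h 1 0)).2 hC.2.1
    · have h1 : (m : ℤ) ∣ (A.val 0 0 - A.val 1 1) - (C.val 0 0 - C.val 1 1) := by
        have := dvd_sub (red_dvd h 0 0) (red_dvd h 1 1)
        rwa [show A.val 0 0 - C.val 0 0 - (A.val 1 1 - C.val 1 1) =
          (A.val 0 0 - A.val 1 1) - (C.val 0 0 - C.val 1 1) by ring] at this
      exact (dvd_iff_dvd_of_dvd_sub h1).2 hC.2.2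
  -- `n` divides `i`
  obtain ⟨k, hk⟩ := hs _ (Nat.mul_pos (Nat.pos_of_ne_zero hc0) (Nat.pos_of_ne_zero (hlu n hn)))
  have h1 : F2X.red (LF.cont B.val * (lu B.val.trace n).natAbs) (B ^ (i - n * k)) =
      F2X.red (LF.cont B.val * (lu B.val.trace n).natAbs) 1 := by
    rw [map_one, zpow_sub, ← hY, map_mul, map_inv, map_pow, hk, map_zpow, mul_comm (n : ℤ) k,
      zpow_mul, zpow_natCast, mul_inv_cancel]
  have h2 : (n : ℤ) ∣ i - n * k := hscal n hn _ (hred n _ (hmemred _ _ _ h1 (one_mem _)))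
  have h3 : (n : ℤ) ∣ i := (dvd_sub_left (dvd_mul_right _ _)).1 h2
  obtain ⟨i', hi'⟩ := h3
  have hZc : Y * (B ^ i')⁻¹ * B = B * (Y * (B ^ i')⁻¹) := by
    have e1 : (B ^ i')⁻¹ * B = B * (B ^ i')⁻¹ := by
      rw [← zpow_neg, ← zpow_add_one, ← zpow_one_add, add_comm]
    rw [mul_assoc, e1, ← mul_assoc, hcomm, mul_assoc]
  have hZn : (Y * (B ^ i')⁻¹) ^ n = 1 := by
    have e2 : Commute Y (B ^ i')⁻¹ := ((show Commute Y B from hcomm).zpow_right i').inv_right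
    rw [e2.mul_pow, hY, hi', inv_pow, ← zpow_natCast (B ^ i'), ← zpow_mul, mul_comm (n : ℤ) i',
      mul_inv_cancel]
  rcases tors hd ht hZc hn hZn with h4 | h4
  · exact ⟨i', by rw [← mul_inv_eq_one]; exact h4⟩
  · exfalso
    -- `-1` is congruent to a power of `B`
    have hM : lu B.val.trace 3 = B.val.trace ^ 2 - 1 := by
      simp [lu]
      ring
    have ht9 : 9 ≤ B.val.trace ^ 2 := by
      have : |B.val.trace| ^ 2 = B.val.trace ^ 2 := sq_abs _
      nlinarith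
    obtain ⟨k, hk⟩ := hs _ (Nat.mul_pos (Nat.pos_of_ne_zero hc0)
      (Nat.pos_of_ne_zero (hlu 3 (by norm_num))))
    have g1 : F2X.red (LF.cont B.val * (lu B.val.trace 3).natAbs) (B ^ (k - i')) =
        F2X.red (LF.cont B.val * (lu B.val.trace 3).natAbs) (Y * (B ^ i')⁻¹) := by
      rw [map_mul, hk, map_inv, map_zpow, map_zpow, zpow_sub]
    have gneg : Y * (B ^ i')⁻¹ ∈ scal (((LF.cont B.val *
        (lu B.val.trace 3).natAbs : ℕ)) : ℤ) := by
      refine ⟨?_, ?_, ?_⟩ <;> rw [h4] <;> simp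
    have g2 : ((3 : ℕ) : ℤ) ∣ k - i' :=
      hscal 3 (by norm_num) _ (hred 3 _ (hmemred _ _ _ g1 gneg))
    obtain ⟨q, hq⟩ := g2
    -- reduction modulo `M`
    have g3 : (lu B.val.trace 3) ∣ (B ^ (k - i')).val 0 0 - (Y * (B ^ i')⁻¹).val 0 0 := by
      have := red_dvd g1 0 0
      refine dvd_trans ?_ this
      rw [Nat.cast_mul]
      refine Dvd.dvd.mul_left ?_ _
      exact Int.dvd_natAbs.2 dvd_rfl
    have g4 : (Y * (B ^ i')⁻¹).val 0 0 = -1 := by
      rw [h4]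
      rfl
    rw [g4, hM, hq] at g3
    -- `B ^ 3` modulo `M`
    obtain ⟨l1, l2, l3, l4⟩ := lu_pow hd 2
    have hl2 : lu B.val.trace 2 = B.val.trace := by simp [lu]
    rw [hM, hl2] at l1
    rw [hM] at l2 l3
    rw [hM, hl2] at l4
    set τ := B.val.trace with hτ
    have hM0 : 0 < τ ^ 2 - 1 := by linarith
    obtain ⟨M', hM'⟩ : ∃ M' : ℕ, (M' : ℤ) = τ ^ 2 - 1 :=
      ⟨(τ ^ 2 - 1).toNat, Int.toNat_of_nonneg hM0.le⟩
    have h6 : F2X.red M' (B ^ 3 * B ^ 3) = 1 := by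
      apply Units.ext
      have key : ∀ r s : Fin 2, (M' : ℤ) ∣ (1 : Matrix (Fin 2) (Fin 2) ℤ) r s -
          (B ^ 3 * B ^ 3).val r s := by
        intro r s
        rw [hM', Units.val_mul, Units.val_pow_eq_pow_val, Matrix.mul_apply, Fin.sum_univ_two]
        fin_cases r <;> fin_cases s
        · show τ ^ 2 - 1 ∣ (1 : Matrix (Fin 2) (Fin 2) ℤ) 0 0 -
            ((B.val ^ 3) 0 0 * (B.val ^ 3) 0 0 + (B.val ^ 3) 0 1 * (B.val ^ 3) 1 0)
          rw [l1, l2, l3, Matrix.one_apply_eq]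
          exact ⟨-1 - B.val 0 0 * ((τ ^ 2 - 1) * B.val 0 0 - 2 * τ) -
            B.val 0 1 * (τ ^ 2 - 1) * B.val 1 0, by ring⟩
        · show τ ^ 2 - 1 ∣ (1 : Matrix (Fin 2) (Fin 2) ℤ) 0 1 -
            ((B.val ^ 3) 0 0 * (B.val ^ 3) 0 1 + (B.val ^ 3) 0 1 * (B.val ^ 3) 1 1)
          rw [l1, l2, l4, Matrix.one_apply_ne (by decide)]
          exact ⟨-(B.val 0 1 * ((τ ^ 2 - 1) * B.val 0 0 - τ)) -
            B.val 0 1 * ((τ ^ 2 - 1) * B.val 1 1 - τ), by ring⟩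
        · show τ ^ 2 - 1 ∣ (1 : Matrix (Fin 2) (Fin 2) ℤ) 1 0 -
            ((B.val ^ 3) 1 0 * (B.val ^ 3) 0 0 + (B.val ^ 3) 1 1 * (B.val ^ 3) 1 0)
          rw [l1, l3, l4, Matrix.one_apply_ne (by decide)]
          exact ⟨-(B.val 1 0 * ((τ ^ 2 - 1) * B.val 0 0 - τ)) -
            B.val 1 0 * ((τ ^ 2 - 1) * B.val 1 1 - τ), by ring⟩
        · show τ ^ 2 - 1 ∣ (1 : Matrix (Fin 2) (Fin 2) ℤ) 1 1 -
            ((B.val ^ 3) 1 0 * (B.val ^ 3) 0 1 + (B.val ^ 3) 1 1 * (B.val ^ 3) 1 1)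
          rw [l2, l3, l4, Matrix.one_apply_eq]
          exact ⟨-1 - B.val 1 1 * ((τ ^ 2 - 1) * B.val 1 1 - 2 * τ) -
            B.val 0 1 * (τ ^ 2 - 1) * B.val 1 0, by ring⟩
      ext r s
      have h7 := (ZMod.intCast_eq_intCast_iff_dvd_sub _ _ _).2 (key r s)
      have h8 : (((1 : Matrix (Fin 2) (Fin 2) ℤ) r s : ℤ) : ZMod M') =
          (1 : Matrix (Fin 2) (Fin 2) (ZMod M')) r s := by
        rw [Matrix.one_apply, Matrix.one_apply]
        split_ifs <;> simp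
      rw [h8] at h7
      exact h7
    have h9 : ∀ r : ℤ, q = 2 * (q / 2) + r → F2X.red M' (B ^ (3 * q)) = F2X.red M' (B ^ (3 * r)) := by
      intro r hr
      have e : B ^ ((3 : ℤ) * q) = (B ^ 3 * B ^ 3) ^ (q / 2) * B ^ (3 * r) := by
        rw [← zpow_natCast B 3, ← zpow_add, ← zpow_mul, ← zpow_add]
        congr 1
        push_cast
        linarith
      rw [e, map_mul, map_zpow, h6, one_zpow, one_mul]
    have hq3 : (((3 : ℕ) : ℤ)) * q = 3 * q := by norm_num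
    rw [hq3] at g3
    rcases Int.emod_two_eq_zero_or_one q with h10 | h10
    · have h11 := red_dvd (h9 0 (by omega)) 0 0
      rw [mul_zero, zpow_zero, Units.val_one, Matrix.one_apply_eq, hM'] at h11
      have h12 : τ ^ 2 - 1 ∣ 2 := by
        have := dvd_sub g3 h11
        rwa [show (B ^ (3 * q)).val 0 0 - -1 - ((B ^ (3 * q)).val 0 0 - 1) = 2 by ring] at this
      have := Int.le_of_dvd (by norm_num) h12
      linarith
    · have h11 := red_dvd (h9 1 (by omega)) 0 0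
      have h13 : (B ^ ((3 : ℤ) * 1)).val 0 0 = (τ ^ 2 - 1) * B.val 0 0 - τ := by
        rw [mul_one, show (3 : ℤ) = ((3 : ℕ) : ℤ) by norm_num, zpow_natCast,
          Units.val_pow_eq_pow_val]
        exact l1
      rw [h13, hM'] at h11
      have h12 : τ ^ 2 - 1 ∣ τ - 1 := by
        have h14 := dvd_sub h11 g3
        rw [show (B ^ (3 * q)).val 0 0 - ((τ ^ 2 - 1) * B.val 0 0 - τ) -
          ((B ^ (3 * q)).val 0 0 - -1) = τ - 1 - (τ ^ 2 - 1) * B.val 0 0 by ring] at h14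
        exact (dvd_sub_left (dvd_mul_right _ _)).1 h14
      have h15 : τ - 1 ≠ 0 := by
        intro h16
        have : τ = 1 := by linarith
        rw [this] at ht9
        norm_num at ht9
      have h17 := Int.le_of_dvd (abs_pos.2 h15) ((dvd_abs _ _).2 h12)
      have h18 : |τ - 1| ≤ |τ| + 1 := by
        have := abs_sub τ 1
        rw [abs_one] at this
        exact this
      have h19 : |τ| ^ 2 = τ ^ 2 := sq_abs _
      nlinarith [abs_nonneg τ]

end Pool.Agent.VFib
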